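import Mathlib

namespace Pool.Agent.Lib.MP_ae49d3_an.H39Win

/-- The function `x ↦ cos (j π x)` on `[0,1]`. -/
noncomputable def cosine (j : ℕ) : C(unitInterval, ℝ) :=
  ⟨fun x => Real.cos (j * Real.pi * x), by fun_prop⟩

/-- The system `φ` stays in a window of width `K (n+1)^a` around the cosine system. -/
def Window (φ : ℕ → C(unitInterval, ℝ)) (K a : ℝ) : Prop :=
  ∀ n : ℕ,
    φ n ∈ Submodule.span ℝ (cosine '' {j : ℕ | (j : ℝ) ≤ n + K * ((n : ℝ) + 1) ^ a}) ∧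
    cosine n ∈ Submodule.span ℝ (φ '' {j : ℕ | (j : ℝ) ≤ n + K * ((n : ℝ) + 1) ^ a})

end Pool.Agent.Lib.MP_ae49d3_an.H39Win
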