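import Mathlib
import Pool.Agent.Results.MP_ae49d3_an.OneStepShift
import Pool.Agent.Lib.MP_ae49d3_an.H39WinDefs

namespace Pool.Agent.Lib.MP_ae49d3_an.H39Win

open MeasureTheory Set Filter Topology Pool.Agent.Results.MP_ae49d3_an.OneStepShift

lemma cosine_apply (j : ℕ) (x : unitInterval) : cosine j x = Real.cos (j * Real.pi * x) := rfl

lemma cosine_zero : cosine 0 = 1 := by
  ext x
  simp [cosine_apply]

lemma cosine_at_zero (j : ℕ) : cosine j 0 = 1 := by
  simp [cosine_apply]

lemma int_cos (k : ℤ) :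
    ∫ x : unitInterval, Real.cos (k * Real.pi * x) = if k = 0 then 1 else 0 := by
  split_ifs with hk
  · simp [hk]
  · have h : ∫ x : unitInterval, Real.cos (k * Real.pi * x) =
        ∫ x in (0 : ℝ)..1, Real.cos (k * Real.pi * x) := by
      rw [intervalIntegral.integral_of_le zero_le_one, ← integral_Icc_eq_integral_Ioc,
        ← integral_subtype_comap measurableSet_Icc]
      rfl
    have hc : (k : ℝ) * Real.pi ≠ 0 := mul_ne_zero (by exact_mod_cast hk) Real.pi_ne_zero
    rw [h, intervalIntegral.integral_comp_mul_left (fun x => Real.cos x) hc, integral_cos]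
    simp [Real.sin_int_mul_pi]

lemma B_cos (i j : ℕ) : B (cosine i) (cosine j) =
    ((if (i : ℤ) - j = 0 then 1 else 0) + (if (i : ℤ) + j = 0 then 1 else 0)) / 2 := by
  rw [← int_cos, ← int_cos, ← integral_add, ← integral_div, B_apply, ip]
  · refine integral_congr_ae (Eventually.of_forall fun x => ?_)
    simp only [cosine_apply]
    push_cast
    rw [sub_mul, sub_mul, add_mul, add_mul, Real.cos_sub, Real.cos_add]
    ring
  · exact Continuous.integrable_of_hasCompactSupport (by fun_prop)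
      (HasCompactSupport.of_compactSpace _)
  · exact Continuous.integrable_of_hasCompactSupport (by fun_prop)
      (HasCompactSupport.of_compactSpace _)

lemma cos_orth (i j : ℕ) (h : i ≠ j) : B (cosine i) (cosine j) = 0 := by
  rw [B_cos, if_neg (by omega), if_neg (by omega)]
  norm_num

lemma cos_self (j : ℕ) : B (cosine j) (cosine j) = if j = 0 then 1 else 1 / 2 := by
  rw [B_cos, if_pos (by omega)]
  by_cases h : j = 0
  · rw [if_pos (by omega), if_pos h]
    norm_num
  · rw [if_neg (by omega), if_neg h]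
    norm_num

lemma cos_ne (j : ℕ) : cosine j ≠ 0 := by
  intro h
  have h1 := cosine_at_zero j
  rw [h] at h1
  simp at h1

lemma cos_mul (i j : ℕ) (h : j ≤ i) :
    cosine i * cosine j = (1 / 2 : ℝ) • (cosine (i - j) + cosine (i + j)) := by
  ext x
  simp only [ContinuousMap.mul_apply, ContinuousMap.smul_apply, ContinuousMap.add_apply,
    cosine_apply, smul_eq_mul]
  push_cast [h]
  rw [sub_mul, sub_mul, add_mul, add_mul, Real.cos_sub, Real.cos_add]
  ring

lemma cos_dense : Dense (Submodule.span ℝ (range cosine) : Set C(unitInterval, ℝ)) := by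
  have hm : ∀ i j, cosine i * cosine j ∈ Submodule.span ℝ (range cosine) := by
    intro i j
    rcases le_total j i with h | h
    · rw [cos_mul i j h]
      exact Submodule.smul_mem _ _
        (add_mem (Submodule.subset_span ⟨_, rfl⟩) (Submodule.subset_span ⟨_, rfl⟩))
    · rw [mul_comm, cos_mul j i h]
      exact Submodule.smul_mem _ _
        (add_mem (Submodule.subset_span ⟨_, rfl⟩) (Submodule.subset_span ⟨_, rfl⟩))
  have hmul : ∀ x y, x ∈ Submodule.span ℝ (range cosine) → y ∈ Submodule.span ℝ (range cosine) →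
      x * y ∈ Submodule.span ℝ (range cosine) := by
    intro x y hx hy
    have h1 := Submodule.mul_mem_mul hx hy
    rw [Submodule.span_mul_span] at h1
    refine Submodule.span_le.2 ?_ h1
    rintro _ ⟨_, ⟨i, rfl⟩, _, ⟨j, rfl⟩, rfl⟩
    exact hm i j
  have h1 : (1 : C(unitInterval, ℝ)) ∈ Submodule.span ℝ (range cosine) :=
    Submodule.subset_span ⟨0, cosine_zero⟩
  let A : Subalgebra ℝ C(unitInterval, ℝ) := (Submodule.span ℝ (range cosine)).toSubalgebra h1 hmul
  have hsep : A.SeparatesPoints := by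
    intro x y hxy
    refine ⟨cosine 1, ⟨cosine 1, Submodule.subset_span ⟨1, rfl⟩, rfl⟩, fun h => hxy ?_⟩
    simp only [cosine_apply, Nat.cast_one, one_mul] at h
    have hp := Real.pi_pos
    have hx : Real.pi * x ∈ Icc 0 Real.pi :=
      ⟨mul_nonneg hp.le x.2.1, by nlinarith [x.2.2]⟩
    have hy : Real.pi * y ∈ Icc 0 Real.pi :=
      ⟨mul_nonneg hp.le y.2.1, by nlinarith [y.2.2]⟩
    exact Subtype.ext (mul_left_cancel₀ hp.ne' (Real.injOn_cos hx hy h))
  have h2 := ContinuousMap.subalgebra_topologicalClosure_eq_top_of_separatesPoints A hsep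
  have h3 : closure (A : Set C(unitInterval, ℝ)) = univ := by
    rw [← Subalgebra.topologicalClosure_coe, h2]
    rfl
  exact dense_iff_closure_eq.2 h3

/-- Orthogonal projection on the first `n` functions. -/
noncomputable def proj (ψ : ℕ → C(unitInterval, ℝ)) (n : ℕ) (f : C(unitInterval, ℝ)) :
    C(unitInterval, ℝ) :=
  ∑ j ∈ Finset.range n, (B f (ψ j) / B (ψ j) (ψ j)) • ψ j

lemma partialSum_eq (ψ : ℕ → C(unitInterval, ℝ)) (f : C(unitInterval, ℝ)) (N : ℕ) :
    partialSum ψ f N = proj ψ (N + 1) f := rfl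

lemma proj_mem (ψ : ℕ → C(unitInterval, ℝ)) (n : ℕ) (f : C(unitInterval, ℝ)) :
    proj ψ n f ∈ Submodule.span ℝ (ψ '' Iio n) :=
  Submodule.sum_mem _ fun _ hj => Submodule.smul_mem _ _ (mem_level ψ (Finset.mem_range.1 hj))

lemma proj_sub (ψ : ℕ → C(unitInterval, ℝ)) (n : ℕ) (f g : C(unitInterval, ℝ)) :
    proj ψ n (f - g) = proj ψ n f - proj ψ n g := by
  unfold proj
  rw [← Finset.sum_sub_distrib]
  refine Finset.sum_congr rfl fun j _ => ?_
  rw [map_sub, LinearMap.sub_apply, sub_div, sub_smul]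

lemma B_proj_left (ψ : ℕ → C(unitInterval, ℝ)) (n : ℕ) (f g : C(unitInterval, ℝ)) :
    B (proj ψ n f) g = ∑ j ∈ Finset.range n, (B f (ψ j) / B (ψ j) (ψ j)) * B (ψ j) g := by
  unfold proj
  rw [map_sum, LinearMap.sum_apply]
  refine Finset.sum_congr rfl fun j _ => ?_
  rw [map_smul, LinearMap.smul_apply, smul_eq_mul]

lemma B_nonneg (f : C(unitInterval, ℝ)) : 0 ≤ B f f := by
  by_cases h : f = 0
  · simp [h]
  · exact (B_pos h).le

lemma B_le (f : C(unitInterval, ℝ)) : B f f ≤ ‖f‖ ^ 2 := by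
  have h : ‖∫ x, f x * f x‖ ≤ (‖f‖ * ‖f‖) * (volume : Measure unitInterval).real univ := by
    refine norm_integral_le_of_norm_le_const (Eventually.of_forall fun x => ?_)
    rw [norm_mul]
    exact mul_le_mul (f.norm_coe_le_norm x) (f.norm_coe_le_norm x) (norm_nonneg _) (norm_nonneg _)
  have h2 : |B f f| ≤ ‖f‖ * ‖f‖ := by simpa [B_apply, ip] using h
  rw [sq]
  exact (le_abs_self _).trans h2

section Orth

variable {ψ : ℕ → C(unitInterval, ℝ)} (ho : ∀ m n, m ≠ n → B (ψ m) (ψ n) = 0) (hn : ∀ n, ψ n ≠ 0)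

include ho hn

lemma B_proj (n : ℕ) (f : C(unitInterval, ℝ)) {g : C(unitInterval, ℝ)}
    (hg : g ∈ Submodule.span ℝ (ψ '' Iio n)) : B (proj ψ n f) g = B f g := by
  induction hg using Submodule.span_induction with
  | mem x hx =>
    obtain ⟨i, hi, rfl⟩ := hx
    rw [B_proj_left, Finset.sum_eq_single i]
    · rw [div_mul_cancel₀ _ (B_pos (hn i)).ne']
    · intro j _ hji
      rw [ho j i hji, mul_zero]
    · intro h
      exact absurd (Finset.mem_range.2 hi) h
  | zero => simp
  | add x y _ _ hx hy => rw [map_add, map_add, hx, hy]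
  | smul a x _ hx => rw [map_smul, map_smul, hx]

lemma proj_eq (n : ℕ) {g : C(unitInterval, ℝ)} (hg : g ∈ Submodule.span ℝ (ψ '' Iio n)) :
    proj ψ n g = g := by
  by_contra h
  have h1 := B_pos (sub_ne_zero.2 h)
  have h2 := B_proj ho hn n g (sub_mem (proj_mem ψ n g) hg)
  have h3 : B (proj ψ n g - g) (proj ψ n g - g) =
      B (proj ψ n g) (proj ψ n g - g) - B g (proj ψ n g - g) := by
    rw [map_sub B, LinearMap.sub_apply]
  rw [h3, h2, sub_self] at h1
  exact lt_irrefl _ h1

lemma bessel (n : ℕ) (f : C(unitInterval, ℝ)) :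
    ∑ j ∈ Finset.range n, B f (ψ j) ^ 2 / B (ψ j) (ψ j) ≤ ‖f‖ ^ 2 := by
  have h1 := B_proj ho hn n f (proj_mem ψ n f)
  have h2 := B_nonneg (f - proj ψ n f)
  have h3 : B (f - proj ψ n f) (f - proj ψ n f) = B f f - B (proj ψ n f) f := by
    simp only [map_sub, LinearMap.sub_apply]
    rw [h1]
    ring
  have h4 : B (proj ψ n f) f = ∑ j ∈ Finset.range n, B f (ψ j) ^ 2 / B (ψ j) (ψ j) := by
    rw [B_proj_left]
    refine Finset.sum_congr rfl fun j _ => ?_
    rw [B_comm (ψ j) f]
    ring
  have h5 := B_le f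
  linarith

lemma band_diff {m N M : ℕ} (hmM : m ≤ M)
    (h1 : Submodule.span ℝ (cosine '' Iio m) ≤ Submodule.span ℝ (ψ '' Iio N))
    (h2 : Submodule.span ℝ (ψ '' Iio N) ≤ Submodule.span ℝ (cosine '' Iio M))
    (f : C(unitInterval, ℝ)) (x : unitInterval) :
    (proj ψ N f x - proj cosine m f x) ^ 2 ≤
      2 * ((M - m : ℕ) : ℝ) *
        ∑ j ∈ Finset.Ico m M, B f (cosine j) ^ 2 / B (cosine j) (cosine j) := by
  obtain ⟨g, hg⟩ : ∃ g, g = proj ψ N f - proj cosine m f := ⟨_, rfl⟩
  have gV : g ∈ Submodule.span ℝ (ψ '' Iio N) := by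
    rw [hg]
    exact sub_mem (proj_mem ψ N f) (h1 (proj_mem cosine m f))
  have g0 : ∀ j, j < m → B g (cosine j) = 0 := by
    intro j hj
    rw [hg, map_sub, LinearMap.sub_apply, B_proj ho hn N f (h1 (mem_level cosine hj)),
      B_proj cos_orth cos_ne m f (mem_level cosine hj), sub_self]
  have gg : B g g = B g f := by
    have h3 : B (proj cosine m f) g = 0 := by
      rw [B_proj_left]
      refine Finset.sum_eq_zero fun j hj => ?_
      rw [B_comm (cosine j) g, g0 j (Finset.mem_range.1 hj), mul_zero]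
    have h4 : B g g = B (proj ψ N f) g - B (proj cosine m f) g := by
      conv_lhs => rw [B_comm]
      have : B g g = B (proj ψ N f - proj cosine m f) g := by rw [← hg]
      rw [this, map_sub, LinearMap.sub_apply]
    rw [h4, h3, B_proj ho hn N f gV, sub_zero, B_comm]
  have gs' : g = ∑ j ∈ Finset.Ico m M, (B g (cosine j) / B (cosine j) (cosine j)) • cosine j := by
    have h3 := proj_eq cos_orth cos_ne M (h2 gV)
    unfold proj at h3
    rw [← Finset.sum_range_add_sum_Ico _ hmM, Finset.sum_eq_zero, zero_add] at h3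
    · exact h3.symm
    · intro j hj
      rw [g0 j (Finset.mem_range.1 hj), zero_div, zero_smul]
  have gB : ∀ p, B g p = ∑ j ∈ Finset.Ico m M,
      (B g (cosine j) / B (cosine j) (cosine j)) * B (cosine j) p := by
    intro p
    conv_lhs => rw [gs']
    rw [map_sum, LinearMap.sum_apply]
    refine Finset.sum_congr rfl fun j _ => ?_
    rw [map_smul, LinearMap.smul_apply, smul_eq_mul]
  have gx : g x = ∑ j ∈ Finset.Ico m M,
      (B g (cosine j) / B (cosine j) (cosine j)) * cosine j x := by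
    conv_lhs => rw [gs']
    rw [ContinuousMap.sum_apply]
    rfl
  have k1 : B g g ≤ ∑ j ∈ Finset.Ico m M, B f (cosine j) ^ 2 / B (cosine j) (cosine j) := by
    have k2 : 2 * B g f ≤ B g g +
        ∑ j ∈ Finset.Ico m M, B f (cosine j) ^ 2 / B (cosine j) (cosine j) := by
      rw [gB f, gB g, Finset.mul_sum, ← Finset.sum_add_distrib]
      refine Finset.sum_le_sum fun j _ => ?_
      have hb := B_pos (cos_ne j)
      rw [B_comm (cosine j) f, B_comm (cosine j) g]
      have h5 : 0 ≤ (B g (cosine j) - B f (cosine j)) ^ 2 / B (cosine j) (cosine j) :=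
        div_nonneg (sq_nonneg _) hb.le
      have h6 : (B g (cosine j) - B f (cosine j)) ^ 2 / B (cosine j) (cosine j) =
          B g (cosine j) / B (cosine j) (cosine j) * B g (cosine j) +
            B f (cosine j) ^ 2 / B (cosine j) (cosine j) -
            2 * (B g (cosine j) / B (cosine j) (cosine j) * B f (cosine j)) := by
        ring
      linarith
    linarith
  have k3 : (g x) ^ 2 ≤ 2 * ((M - m : ℕ) : ℝ) * B g g := by
    rw [gx]
    refine (sq_sum_le_card_mul_sum_sq).trans ?_
    rw [Nat.card_Ico, gB g, mul_comm (2 : ℝ), mul_assoc, Finset.mul_sum _ _ (2 : ℝ)]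
    refine mul_le_mul_of_nonneg_left (Finset.sum_le_sum fun j _ => ?_) (Nat.cast_nonneg _)
    rw [B_comm (cosine j) g, mul_pow]
    have h5 : (cosine j x) ^ 2 ≤ 1 := Real.cos_sq_le_one _
    have h6 : 0 ≤ B g (cosine j) ^ 2 := sq_nonneg _
    have h7 : (B g (cosine j) / B (cosine j) (cosine j)) ^ 2 * (cosine j x) ^ 2 ≤
        (B g (cosine j) / B (cosine j) (cosine j)) ^ 2 :=
      mul_le_of_le_one_right (sq_nonneg _) h5
    refine h7.trans ?_
    rw [cos_self]
    split_ifs <;> nlinarith
  have k4 : proj ψ N f x - proj cosine m f x = g x := by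
    rw [hg, ContinuousMap.sub_apply]
  rw [k4]
  exact k3.trans (mul_le_mul_of_nonneg_left k1 (by positivity))

end Orth

end Pool.Agent.Lib.MP_ae49d3_an.H39Win
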