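import Mathlib
import Pool.Agent.Lib.MP_ae49d3_an.H39WinA

namespace Pool.Agent.Lib.MP_ae49d3_an.H39Win

open MeasureTheory Set Topology Pool.Agent.Results.MP_ae49d3_an.OneStepShift
open Filter hiding ker

lemma fejer_sq (θ : ℝ) (n : ℕ) :
    ∑ N ∈ Finset.range n, (1 + 2 * ∑ j ∈ Finset.range N, Real.cos (((j : ℝ) + 1) * θ)) =
      (∑ j ∈ Finset.range n, Real.cos (j * θ)) ^ 2 +
        (∑ j ∈ Finset.range n, Real.sin (j * θ)) ^ 2 := by
  induction n with
  | zero => simp
  | succ n ih =>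
    rw [Finset.sum_range_succ, ih, Finset.sum_range_succ (fun j : ℕ => Real.cos (j * θ)),
      Finset.sum_range_succ (fun j : ℕ => Real.sin (j * θ))]
    have h : ∑ j ∈ Finset.range n, Real.cos (((j : ℝ) + 1) * θ) =
        (∑ j ∈ Finset.range n, Real.cos (j * θ)) * Real.cos (n * θ) +
          (∑ j ∈ Finset.range n, Real.sin (j * θ)) * Real.sin (n * θ) := by
      rw [← Finset.sum_range_reflect (fun j : ℕ => Real.cos (((j : ℝ) + 1) * θ)) n,
        Finset.sum_mul, Finset.sum_mul, ← Finset.sum_add_distrib]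
      refine Finset.sum_congr rfl fun j hj => ?_
      have hj' := Finset.mem_range.1 hj
      have h1 : ((n - 1 - j : ℕ) : ℝ) + 1 = n - j := by
        have h2 : n - 1 - j + 1 + j = n := by omega
        have h3 : ((n - 1 - j + 1 + j : ℕ) : ℝ) = n := by rw [h2]
        push_cast at h3
        linarith
      rw [h1, sub_mul, Real.cos_sub]
      ring
    rw [h]
    nlinarith [Real.sin_sq_add_cos_sq (n * θ)]

lemma ker_apply (x y : unitInterval) (N : ℕ) :
    ker cosine x (Finset.range (N + 1)) y =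
      ((1 + 2 * ∑ j ∈ Finset.range N, Real.cos (((j : ℝ) + 1) * (Real.pi * (x - y)))) +
        (1 + 2 * ∑ j ∈ Finset.range N, Real.cos (((j : ℝ) + 1) * (Real.pi * (x + y))))) / 2 := by
  unfold ker
  rw [ContinuousMap.sum_apply, Finset.sum_range_succ']
  have h : ∑ j ∈ Finset.range N,
      ((cosine (j + 1) x / B (cosine (j + 1)) (cosine (j + 1))) • cosine (j + 1)) y =
      ∑ j ∈ Finset.range N, Real.cos (((j : ℝ) + 1) * (Real.pi * (x - y))) +
        ∑ j ∈ Finset.range N, Real.cos (((j : ℝ) + 1) * (Real.pi * (x + y))) := by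
    rw [← Finset.sum_add_distrib]
    refine Finset.sum_congr rfl fun j _ => ?_
    rw [ContinuousMap.smul_apply, smul_eq_mul, cos_self, if_neg (Nat.succ_ne_zero j),
      cosine_apply, cosine_apply]
    push_cast
    have e1 : ((j : ℝ) + 1) * (Real.pi * (x - y)) =
        ((j : ℝ) + 1) * Real.pi * x - ((j : ℝ) + 1) * Real.pi * y := by ring
    have e2 : ((j : ℝ) + 1) * (Real.pi * (x + y)) =
        ((j : ℝ) + 1) * Real.pi * x + ((j : ℝ) + 1) * Real.pi * y := by ring
    rw [e1, e2, Real.cos_sub, Real.cos_add]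
    ring
  rw [h, ContinuousMap.smul_apply, smul_eq_mul, cos_self, if_pos rfl, cosine_zero]
  simp only [ContinuousMap.one_apply]
  ring

lemma fejer_nonneg (x y : unitInterval) (n : ℕ) :
    0 ≤ (∑ N ∈ Finset.range n, ker cosine x (Finset.range (N + 1))) y := by
  rw [ContinuousMap.sum_apply]
  simp only [ker_apply]
  rw [← Finset.sum_div, Finset.sum_add_distrib, fejer_sq, fejer_sq]
  positivity

lemma B_abs_le (f G : C(unitInterval, ℝ)) (hG : ∀ y, 0 ≤ G y) : |B f G| ≤ ‖f‖ * B 1 G := by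
  have h1 : B 1 G = ∫ y, G y := by simp [B_apply, ip]
  have hi : Integrable (fun y => G y) :=
    G.continuous.integrable_of_hasCompactSupport (HasCompactSupport.of_compactSpace _)
  rw [h1, ← integral_const_mul, B_apply, ip, ← Real.norm_eq_abs]
  refine norm_integral_le_of_norm_le (hi.const_mul _) (Eventually.of_forall fun y => ?_)
  rw [norm_mul, Real.norm_of_nonneg (hG y)]
  exact mul_le_mul_of_nonneg_right (f.norm_coe_le_norm y) (hG y)

lemma fejer_bound (f : C(unitInterval, ℝ)) (x : unitInterval) (n : ℕ) :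
    |∑ N ∈ Finset.range n, proj cosine (N + 1) f x| ≤ n * ‖f‖ := by
  have h1 : ∀ N, proj cosine (N + 1) f x = B f (ker cosine x (Finset.range (N + 1))) := by
    intro N
    unfold proj ker
    rw [ContinuousMap.sum_apply, map_sum]
    refine Finset.sum_congr rfl fun j _ => ?_
    rw [ContinuousMap.smul_apply, map_smul, smul_eq_mul, smul_eq_mul]
    ring
  have h2 : B 1 (∑ N ∈ Finset.range n, ker cosine x (Finset.range (N + 1))) = n := by
    rw [map_sum]
    have h3 : ∀ N ∈ Finset.range n, B 1 (ker cosine x (Finset.range (N + 1))) = 1 := by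
      intro N _
      rw [← cosine_zero, B_ker cos_orth cos_ne, if_pos (Finset.mem_range.2 (Nat.succ_pos N)),
        cosine_zero]
      rfl
    rw [Finset.sum_congr rfl h3]
    simp
  simp only [h1]
  rw [← map_sum]
  have h4 := B_abs_le f _ (fun y => fejer_nonneg x y n)
  rw [h2, mul_comm] at h4
  exact h4

lemma count_bands (y : ℕ → ℝ) (hy : ∀ j, 0 ≤ y j) (n c : ℕ) :
    ∑ N ∈ Finset.range n, ∑ j ∈ Finset.Ico (N + 1 - c) (N + 1 + c), y j ≤
      2 * c * ∑ j ∈ Finset.range (n + c), y j := by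
  have h1 : ∀ N ∈ Finset.range n, ∑ j ∈ Finset.Ico (N + 1 - c) (N + 1 + c), y j =
      ∑ j ∈ Finset.range (n + c), if N + 1 - c ≤ j ∧ j < N + 1 + c then y j else 0 := by
    intro N hN
    have hN' := Finset.mem_range.1 hN
    rw [← Finset.sum_filter]
    refine Finset.sum_congr ?_ fun _ _ => rfl
    ext j
    simp only [Finset.mem_Ico, Finset.mem_filter, Finset.mem_range]
    omega
  rw [Finset.sum_congr rfl h1, Finset.sum_comm, Finset.mul_sum]
  refine Finset.sum_le_sum fun j _ => ?_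
  rw [← Finset.sum_filter, Finset.sum_const, nsmul_eq_mul]
  refine mul_le_mul_of_nonneg_right ?_ (hy j)
  have h2 : (Finset.range n).filter (fun N => N + 1 - c ≤ j ∧ j < N + 1 + c) ⊆
      Finset.Ico (j - c) (j + c) := by
    intro N hN
    simp only [Finset.mem_Ico, Finset.mem_filter, Finset.mem_range] at hN ⊢
    omega
  have h3 := Finset.card_le_card h2
  rw [Nat.card_Ico] at h3
  have h4 : ((Finset.range n).filter (fun N => N + 1 - c ≤ j ∧ j < N + 1 + c)).card ≤ 2 * c := by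
    omega
  exact_mod_cast h4

lemma mean_bound {φ : ℕ → C(unitInterval, ℝ)} (ho : ∀ m n, m ≠ n → B (φ m) (φ n) = 0)
    (hn : ∀ n, φ n ≠ 0) (n c : ℕ)
    (h1 : ∀ j, j < n → φ j ∈ Submodule.span ℝ (cosine '' Iio (j + c + 1)))
    (h2 : ∀ j, j < n → cosine j ∈ Submodule.span ℝ (φ '' Iio (j + c + 1)))
    (f : C(unitInterval, ℝ)) (x : unitInterval) :
    (∑ N ∈ Finset.range n, (proj φ (N + 1) f x - proj cosine (N + 1) f x)) ^ 2 ≤
      n * (32 * c ^ 2 * ‖f‖ ^ 2) := by
  refine (sq_sum_le_card_mul_sum_sq).trans ?_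
  rw [Finset.card_range]
  refine mul_le_mul_of_nonneg_left ?_ (Nat.cast_nonneg _)
  have hy : ∀ j, 0 ≤ B f (cosine j) ^ 2 / B (cosine j) (cosine j) := fun j =>
    div_nonneg (sq_nonneg _) (B_nonneg _)
  have h3 : ∀ N ∈ Finset.range n, (proj φ (N + 1) f x - proj cosine (N + 1) f x) ^ 2 ≤
      16 * c * ∑ j ∈ Finset.Ico (N + 1 - c) (N + 1 + c),
        B f (cosine j) ^ 2 / B (cosine j) (cosine j) := by
    intro N hN
    have hN' := Finset.mem_range.1 hN
    have k1 := band_diff ho hn (m := N + 1 - c) (N := N + 1) (M := N + 1 + c) (by omega)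
      (by
        rw [Submodule.span_le]
        rintro _ ⟨j, hj, rfl⟩
        have hj' : j < N + 1 - c := hj
        exact span_mono φ (by omega) (h2 j (by omega)))
      (by
        rw [Submodule.span_le]
        rintro _ ⟨j, hj, rfl⟩
        have hj' : j < N + 1 := hj
        exact span_mono cosine (by omega) (h1 j (by omega))) f x
    have k2 := band_diff cos_orth cos_ne (m := N + 1 - c) (N := N + 1) (M := N + 1 + c) (by omega)
      (span_mono cosine (by omega)) (span_mono cosine (by omega)) f x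
    have k3 : ((N + 1 + c - (N + 1 - c) : ℕ) : ℝ) ≤ 2 * c := by
      have : N + 1 + c - (N + 1 - c) ≤ 2 * c := by omega
      exact_mod_cast this
    have k4 : 0 ≤ ∑ j ∈ Finset.Ico (N + 1 - c) (N + 1 + c),
        B f (cosine j) ^ 2 / B (cosine j) (cosine j) := Finset.sum_nonneg fun j _ => hy j
    have k5 := mul_le_mul_of_nonneg_right k3 k4
    nlinarith [sq_nonneg ((proj φ (N + 1) f x - proj cosine (N + 1 - c) f x) +
      (proj cosine (N + 1) f x - proj cosine (N + 1 - c) f x))]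
  refine (Finset.sum_le_sum h3).trans ?_
  rw [← Finset.mul_sum]
  have h4 := count_bands _ hy n c
  have h5 := bessel cos_orth cos_ne (n + c) f
  have h6 : (0 : ℝ) ≤ c := Nat.cast_nonneg _
  have h7 := mul_le_mul_of_nonneg_left h5 (mul_nonneg (by norm_num : (0 : ℝ) ≤ 2) h6)
  have h8 := mul_le_mul_of_nonneg_left (h4.trans h7) (mul_nonneg (by norm_num : (0 : ℝ) ≤ 16) h6)
  refine h8.trans (le_of_eq ?_)
  ring

lemma cesaro_bound {φ : ℕ → C(unitInterval, ℝ)} (ho : ∀ m n, m ≠ n → B (φ m) (φ n) = 0)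
    (hn : ∀ n, φ n ≠ 0) {C a : ℝ} (hw : Window φ C a) (ha : a ≤ 1 / 2) (m : ℕ)
    (f : C(unitInterval, ℝ)) :
    ‖(((m + 1 : ℕ) : ℝ)⁻¹) • ∑ N ∈ Finset.range (m + 1), proj φ (N + 1) f‖ ≤
      (1 + 6 * |C|) * ‖f‖ := by
  obtain ⟨n, hnm⟩ : ∃ n, n = m + 1 := ⟨_, rfl⟩
  rw [← hnm]
  have hn0 : (0 : ℝ) < n := by
    rw [hnm]
    positivity
  obtain ⟨c, hc⟩ : ∃ c : ℕ, c = ⌊|C| * Real.sqrt n⌋₊ := ⟨_, rfl⟩
  have hc1 : (c : ℝ) ≤ |C| * Real.sqrt n := by
    rw [hc]
    exact Nat.floor_le (by positivity)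
  have hsub : ∀ j, j < n →
      {i : ℕ | (i : ℝ) ≤ j + C * ((j : ℝ) + 1) ^ a} ⊆ Iio (j + c + 1) := by
    intro j hj i hi
    have h1 : (i : ℝ) ≤ j + C * ((j : ℝ) + 1) ^ a := hi
    have h2 : ((j : ℝ) + 1) ^ a ≤ Real.sqrt n := by
      have h3 : (j : ℝ) + 1 ≤ n := by exact_mod_cast hj
      have h4 : (0 : ℝ) ≤ j := Nat.cast_nonneg _
      calc ((j : ℝ) + 1) ^ a ≤ ((j : ℝ) + 1) ^ (1 / 2 : ℝ) :=
            Real.rpow_le_rpow_of_exponent_le (by linarith) ha
        _ = Real.sqrt ((j : ℝ) + 1) := (Real.sqrt_eq_rpow _).symm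
        _ ≤ Real.sqrt n := Real.sqrt_le_sqrt h3
    have h5 : C * ((j : ℝ) + 1) ^ a ≤ |C| * Real.sqrt n :=
      mul_le_mul (le_abs_self C) h2 (by positivity) (abs_nonneg C)
    have h6 : |C| * Real.sqrt n < c + 1 := by
      rw [hc]
      exact Nat.lt_floor_add_one _
    have h7 : (i : ℝ) < ((j + c + 1 : ℕ) : ℝ) := by
      push_cast
      linarith
    exact_mod_cast h7
  refine (ContinuousMap.norm_le _ (by positivity)).2 fun x => ?_
  have k1 := mean_bound ho hn n c
    (fun j hj => Submodule.span_mono (image_mono (hsub j hj)) (hw j).1)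
    (fun j hj => Submodule.span_mono (image_mono (hsub j hj)) (hw j).2) f x
  have k2 := fejer_bound f x n
  have k3 : (c : ℝ) ^ 2 ≤ |C| ^ 2 * n := by
    have h1 := pow_le_pow_left₀ (Nat.cast_nonneg c) hc1 2
    rw [mul_pow, Real.sq_sqrt hn0.le] at h1
    exact h1
  have k4 : |∑ N ∈ Finset.range n, (proj φ (N + 1) f x - proj cosine (N + 1) f x)| ≤
      n * (6 * |C| * ‖f‖) := by
    refine abs_le_of_sq_le_sq' ?_ (by positivity) |> abs_le.2
    refine k1.trans ?_
    have h1 : 32 * (c : ℝ) ^ 2 * ‖f‖ ^ 2 ≤ 36 * (|C| ^ 2 * n) * ‖f‖ ^ 2 := by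
      refine mul_le_mul_of_nonneg_right ?_ (sq_nonneg _)
      nlinarith [sq_nonneg (c : ℝ)]
    refine (mul_le_mul_of_nonneg_left h1 hn0.le).trans (le_of_eq ?_)
    ring
  rw [Finset.sum_sub_distrib] at k4
  rw [ContinuousMap.smul_apply, ContinuousMap.sum_apply, smul_eq_mul, Real.norm_eq_abs, abs_mul,
    abs_of_pos (inv_pos.2 hn0), inv_mul_le_iff₀ hn0]
  rw [abs_le] at k2 k4 ⊢
  constructor <;> nlinarith [k2.1, k2.2, k4.1, k4.2]

theorem positive {φ : ℕ → C(unitInterval, ℝ)} (hφ : ClosedOrthogonal φ) {C a : ℝ}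
    (hw : Window φ C a) (ha : a ≤ 1 / 2) (f : C(unitInterval, ℝ)) :
    UniformlySummable φ (fun m N => if N ≤ m then ((m + 1 : ℕ) : ℝ)⁻¹ else 0) f := by
  obtain ⟨ho, hn, hd⟩ := hφ
  let T : ℕ → C(unitInterval, ℝ) → C(unitInterval, ℝ) := fun m g =>
    (((m + 1 : ℕ) : ℝ)⁻¹) • ∑ N ∈ Finset.range (m + 1), proj φ (N + 1) g
  have hT : Tendsto (fun m => T m f) atTop (𝓝 f) := by
    rw [Metric.tendsto_nhds]
    intro ε hε
    have hK : 0 < 2 + 6 * |C| := by positivity
    obtain ⟨g, hg, hfg⟩ := hd.exists_dist_lt f (ε := ε / 2 / (2 + 6 * |C|)) (by positivity)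
    obtain ⟨n, hgn⟩ := exists_level φ hg
    have h1 : Tendsto (fun N => proj φ (N + 1) g) atTop (𝓝 g) := by
      refine tendsto_const_nhds.congr' ?_
      filter_upwards [eventually_ge_atTop n] with N hN
      exact (proj_eq ho hn (N + 1) (span_mono φ (by omega) hgn)).symm
    have h2 : Tendsto (fun m => T m g) atTop (𝓝 g) :=
      h1.cesaro_smul.comp (tendsto_add_atTop_nat 1)
    filter_upwards [(Metric.tendsto_nhds.1 h2) (ε / 2) (by positivity)] with m hm
    have h3 : T m f - f = T m (f - g) + (T m g - g) - (f - g) := by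
      simp only [T, proj_sub, Finset.sum_sub_distrib, smul_sub]
      abel
    have h4 : ‖T m (f - g)‖ ≤ (1 + 6 * |C|) * ‖f - g‖ := cesaro_bound ho hn hw ha m (f - g)
    rw [dist_eq_norm] at hm hfg ⊢
    rw [h3]
    have h5 := norm_sub_le (T m (f - g) + (T m g - g)) (f - g)
    have h6 := norm_add_le (T m (f - g)) (T m g - g)
    rw [lt_div_iff₀ hK] at hfg
    nlinarith
  refine ⟨fun m x => T m f x, fun m => ?_, ContinuousMap.tendsto_iff_tendstoUniformly.1 hT⟩
  rw [Metric.tendstoUniformly_iff]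
  intro ε hε
  filter_upwards [eventually_ge_atTop (m + 1)] with K hK x
  have h1 : ∑ N ∈ Finset.range K,
      (if N ≤ m then ((m + 1 : ℕ) : ℝ)⁻¹ else 0) * partialSum φ f N x = T m f x := by
    simp only [T, ContinuousMap.smul_apply, ContinuousMap.sum_apply, smul_eq_mul, Finset.mul_sum]
    rw [← Finset.sum_range_add_sum_Ico _ hK, Finset.sum_eq_zero (s := Finset.Ico (m + 1) K),
      add_zero]
    · refine Finset.sum_congr rfl fun N hN => ?_
      rw [if_pos (Nat.lt_succ_iff.1 (Finset.mem_range.1 hN)), partialSum_eq]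
    · intro N hN
      have := (Finset.mem_Ico.1 hN).1
      rw [if_neg (by omega), zero_mul]
  rw [h1, dist_self]
  exact hε

end Pool.Agent.Lib.MP_ae49d3_an.H39Win
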