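import Mathlib
import Pool.Agent.Lib.MP_ae49d3_an.H39WinA

namespace Pool.Agent.Lib.MP_ae49d3_an.H39Win

open MeasureTheory Set Topology Pool.Agent.Results.MP_ae49d3_an.OneStepShift
open Filter hiding ker

section Classes

variable {e : ℕ → C(unitInterval, ℝ)} (ho : ∀ m n, m ≠ n → B (e m) (e n) = 0) (hn : ∀ n, e n ≠ 0)
  (t : unitInterval)

include ho hn

omit ho in
lemma ker_pos' (ht : ∀ j, e j t ≠ 0) {T : Finset ℕ} (h0 : T.Nonempty) : 0 < ker e t T t := by
  unfold ker
  rw [ContinuousMap.sum_apply]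
  refine Finset.sum_pos (fun j _ => ?_) h0
  rw [ContinuousMap.smul_apply, smul_eq_mul, div_mul_eq_mul_div]
  exact div_pos (mul_self_pos.2 (ht j)) (B_pos (hn j))

omit hn in
lemma B_disjoint {S T : Set ℕ} (h : Disjoint S T) {f g : C(unitInterval, ℝ)}
    (hf : f ∈ Submodule.span ℝ (e '' S)) (hg : g ∈ Submodule.span ℝ (e '' T)) : B f g = 0 := by
  induction hf using Submodule.span_induction with
  | mem x hx =>
    obtain ⟨i, hi, rfl⟩ := hx
    induction hg using Submodule.span_induction with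
    | mem y hy =>
      obtain ⟨j, hj, rfl⟩ := hy
      exact ho i j (fun hij => Set.disjoint_left.1 h hi (hij ▸ hj))
    | zero => simp
    | add y z _ _ hy hz => rw [map_add, hy, hz, add_zero]
    | smul a y _ hy => rw [map_smul, hy, smul_zero]
  | zero => simp
  | add x y _ _ hx hy => rw [map_add, LinearMap.add_apply, hx, hy, add_zero]
  | smul a x _ hx => rw [map_smul, LinearMap.smul_apply, hx, smul_zero]

lemma classes (ht : ∀ j, e j t ≠ 0) (l R : ℕ → ℕ) (hR : ∀ i, i < R (l i)) :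
    ∃ φ : ℕ → C(unitInterval, ℝ), (∀ m n, m ≠ n → B (φ m) (φ n) = 0) ∧ (∀ n, φ n ≠ 0) ∧
      (∀ j, φ j ∈ Submodule.span ℝ (e '' {i | l i = l j})) ∧
      (∀ j, e j ∈ Submodule.span ℝ (φ '' {i | l i = l j})) ∧
      ∀ j, φ j t = 0 ∨ φ j = ker e t ((Finset.range (R (l j))).filter (fun i => l i = l j)) := by
  classical
  let U : ℕ → Finset ℕ := fun j => (Finset.range (R (l j))).filter (fun i => l i = l j)
  let P : ℕ → Finset ℕ := fun j => (Finset.range j).filter (fun i => l i = l j)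
  have hU : ∀ i j, i ∈ U j ↔ l i = l j := by
    intro i j
    simp only [U, Finset.mem_filter, Finset.mem_range]
    exact ⟨fun h => h.2, fun h => ⟨h ▸ hR i, h⟩⟩
  have hP : ∀ i j, i ∈ P j ↔ i < j ∧ l i = l j := by
    intro i j
    simp only [P, Finset.mem_filter, Finset.mem_range]
  let φ : ℕ → C(unitInterval, ℝ) := fun j =>
    if (P j).Nonempty then e j - (e j t / ker e t (P j) t) • ker e t (P j) else ker e t (U j)
  have hφ1 : ∀ j, (P j).Nonempty →
      φ j = e j - (e j t / ker e t (P j) t) • ker e t (P j) := fun j h => if_pos h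
  have hφ2 : ∀ j, ¬ (P j).Nonempty → φ j = ker e t (U j) := fun j h => if_neg h
  have hker : ∀ (T : Finset ℕ) (S : Set ℕ), (∀ i ∈ T, i ∈ S) →
      ker e t T ∈ Submodule.span ℝ (e '' S) := fun T S h =>
    Submodule.sum_mem _ fun i hi => Submodule.smul_mem _ _ (Submodule.subset_span ⟨i, h i hi, rfl⟩)
  have hmem : ∀ j, φ j ∈ Submodule.span ℝ (e '' {i | l i = l j}) := by
    intro j
    by_cases h : (P j).Nonempty
    · rw [hφ1 j h]
      exact sub_mem (Submodule.subset_span ⟨j, rfl, rfl⟩)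
        (Submodule.smul_mem _ _ (hker _ _ fun i hi => ((hP i j).1 hi).2))
    · rw [hφ2 j h]
      exact hker _ _ fun i hi => (hU i j).1 hi
  have hB : ∀ j, (P j).Nonempty → ∀ T : Finset ℕ, P j ⊆ T → j ∈ T →
      B (φ j) (ker e t T) = 0 := by
    intro j h T h1 h2
    rw [hφ1 j h, map_sub, map_smul, LinearMap.sub_apply, LinearMap.smul_apply,
      B_ker ho hn, if_pos h2, B_ker_ker ho hn t h1, smul_eq_mul,
      div_mul_cancel₀ _ (ker_pos' hn t ht h).ne', sub_self]
  have horth : ∀ m n, m < n → B (φ m) (φ n) = 0 := by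
    intro m n h
    by_cases hl : l m = l n
    · have hPn : (P n).Nonempty := ⟨m, (hP m n).2 ⟨h, hl⟩⟩
      by_cases hm : (P m).Nonempty
      · have h1 : B (φ m) (e n) = 0 := by
          rw [hφ1 m hm, map_sub, map_smul, LinearMap.sub_apply, LinearMap.smul_apply,
            ho m n h.ne, B_comm (ker e t (P m)), B_ker ho hn,
            if_neg (fun h' => absurd ((hP n m).1 h').1 (by omega))]
          simp
        have h2 : B (φ m) (ker e t (P n)) = 0 :=
          hB m hm (P n) (fun i hi => (hP i n).2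
            ⟨((hP i m).1 hi).1.trans h, ((hP i m).1 hi).2.trans hl⟩) ((hP m n).2 ⟨h, hl⟩)
        rw [hφ1 n hPn, map_sub, map_smul, h1, h2]
        simp
      · rw [hφ2 m hm, B_comm]
        exact hB n hPn (U m) (fun i hi => (hU i m).2 (((hP i n).1 hi).2.trans hl.symm))
          ((hU n m).2 hl.symm)
    · refine B_disjoint ho ?_ (hmem m) (hmem n)
      rw [Set.disjoint_left]
      intro i h1 h2
      exact hl (Eq.trans (Eq.symm h1) h2)
  have hne : ∀ n, φ n ≠ 0 := by
    intro n h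
    by_cases hPn : (P n).Nonempty
    · have h1 : B (e n) (φ n) = B (e n) (e n) := by
        rw [hφ1 n hPn, map_sub, map_smul, B_ker ho hn,
          if_neg (fun h' => absurd ((hP n n).1 h').1 (lt_irrefl n))]
        simp
      rw [h, map_zero] at h1
      exact (B_pos (hn n)).ne h1
    · have h1 := ker_pos' hn t ht (T := U n) ⟨n, (hU n n).2 rfl⟩
      rw [← hφ2 n hPn, h] at h1
      simp at h1
  refine ⟨φ, fun m n h => ?_, hne, hmem, fun j => ?_, fun j => ?_⟩
  · rcases lt_or_gt_of_ne h with h | h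
    · exact horth m n h
    · rw [B_comm]
      exact horth n m h
  · have hex : ∃ i, l i = l j := ⟨j, rfl⟩
    obtain ⟨j0, hj0, hmin⟩ : ∃ j0, l j0 = l j ∧ ∀ i, l i = l j → j0 ≤ i :=
      ⟨Nat.find hex, Nat.find_spec hex, fun i hi => Nat.find_min' hex hi⟩
    have hsum : ∀ T : Finset ℕ,
        (∀ i ∈ T, e i - (e i t / e j0 t) • e j0 ∈ Submodule.span ℝ (φ '' {i | l i = l j})) →
        ker e t T - (ker e t T t / e j0 t) • e j0 ∈ Submodule.span ℝ (φ '' {i | l i = l j}) := by
      intro T hT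
      have h2 : ker e t T - (ker e t T t / e j0 t) • e j0 =
          ∑ i ∈ T, (e i t / B (e i) (e i)) • (e i - (e i t / e j0 t) • e j0) := by
        simp only [ker, ContinuousMap.sum_apply, Finset.sum_div, Finset.sum_smul,
          ← Finset.sum_sub_distrib]
        refine Finset.sum_congr rfl fun i _ => ?_
        rw [smul_sub, smul_smul, ContinuousMap.smul_apply, smul_eq_mul, mul_div_assoc]
      rw [h2]
      exact Submodule.sum_mem _ fun i hi => Submodule.smul_mem _ _ (hT i hi)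
    have hW : ∀ k, l k = l j →
        e k - (e k t / e j0 t) • e j0 ∈ Submodule.span ℝ (φ '' {i | l i = l j}) := by
      intro k
      induction k using Nat.strong_induction_on with
      | _ k ih =>
        intro hk
        by_cases hPk : (P k).Nonempty
        · have h1 := hsum (P k) fun i hi =>
            ih i ((hP i k).1 hi).1 (((hP i k).1 hi).2.trans hk)
          have h3 : e k - (e k t / e j0 t) • e j0 = φ k + (e k t / ker e t (P k) t) •
              (ker e t (P k) - (ker e t (P k) t / e j0 t) • e j0) := by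
            have h4 : e k t / ker e t (P k) t * (ker e t (P k) t / e j0 t) = e k t / e j0 t := by
              have := (ker_pos' hn t ht hPk).ne'
              field_simp
            rw [hφ1 k hPk, smul_sub, smul_smul, h4]
            abel
          rw [h3]
          exact add_mem (Submodule.subset_span ⟨k, hk, rfl⟩) (Submodule.smul_mem _ _ h1)
        · have h1 : k = j0 := by
            have h2 := hmin k hk
            by_contra h3
            exact hPk ⟨j0, (hP j0 k).2 ⟨by omega, hj0.trans hk.symm⟩⟩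
          rw [h1, div_self (ht j0), one_smul, sub_self]
          exact zero_mem _
    have hP0 : ¬ (P j0).Nonempty := by
      rintro ⟨i, hi⟩
      have h1 := (hP i j0).1 hi
      have h2 := hmin i (h1.2.trans hj0)
      omega
    have h5 := hsum (U j0) fun i hi => hW i (((hU i j0).1 hi).trans hj0)
    have h6 : ker e t (U j0) ∈ Submodule.span ℝ (φ '' {i | l i = l j}) := by
      rw [← hφ2 j0 hP0]
      exact Submodule.subset_span ⟨j0, hj0, rfl⟩
    have h7 := sub_mem h6 h5
    rw [sub_sub_cancel] at h7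
    have h8 : ker e t (U j0) t / e j0 t ≠ 0 :=
      div_ne_zero (ker_pos' hn t ht ⟨j0, (hU j0 j0).2 rfl⟩).ne' (ht j0)
    have h9 := (Submodule.smul_mem_iff _ h8).1 h7
    have h10 := add_mem (hW j rfl) (Submodule.smul_mem _ (e j t / e j0 t) h9)
    rw [sub_add_cancel] at h10
    exact h10
  · by_cases h : (P j).Nonempty
    · left
      rw [hφ1 j h, ContinuousMap.sub_apply, ContinuousMap.smul_apply, smul_eq_mul,
        div_mul_cancel₀ _ (ker_pos' hn t ht h).ne', sub_self]
    · right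
      exact hφ2 j h

end Classes

/-- The Rudin-Shapiro signs. -/
noncomputable def rs (n : ℕ) : ℝ :=
  if h : n = 0 then 1 else if n % 2 = 0 then rs (n / 2) else (-1) ^ (n / 2) * rs (n / 2)
termination_by n
decreasing_by all_goals omega

lemma rs_even (j : ℕ) : rs (2 * j) = rs j := by
  by_cases h : j = 0
  · simp [h]
  · rw [rs, dif_neg (by omega), if_pos (by omega), Nat.mul_div_cancel_left _ (by norm_num)]

lemma rs_odd (j : ℕ) : rs (2 * j + 1) = (-1) ^ j * rs j := by
  have h : (2 * j + 1) / 2 = j := by omega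
  rw [rs, dif_neg (by omega), if_neg (by omega), h]

lemma rs_sign (n : ℕ) : rs n = 1 ∨ rs n = -1 := by
  induction n using Nat.strong_induction_on with
  | _ n ih =>
    by_cases h : n = 0
    · left
      rw [rs, dif_pos h]
    · have h1 := ih (n / 2) (by omega)
      rw [rs, dif_neg h]
      split_ifs
      · exact h1
      · rcases neg_one_pow_eq_or ℝ (n / 2) with h2 | h2 <;> rcases h1 with h1 | h1 <;>
          simp [h1, h2]

lemma sum_pairs {M : Type*} [AddCommMonoid M] (f : ℕ → M) (n : ℕ) :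
    ∑ j ∈ Finset.range (2 * n), f j = ∑ j ∈ Finset.range n, (f (2 * j) + f (2 * j + 1)) := by
  induction n with
  | zero => simp
  | succ n ih =>
    rw [Nat.mul_succ, Finset.sum_range_succ, Finset.sum_range_succ, ih, Finset.sum_range_succ,
      add_assoc]

lemma sum_pairs_Ico {M : Type*} [AddCommGroup M] (f : ℕ → M) {m n : ℕ} (h : m ≤ n) :
    ∑ j ∈ Finset.Ico (2 * m) (2 * n), f j =
      ∑ j ∈ Finset.Ico m n, (f (2 * j) + f (2 * j + 1)) := by
  rw [Finset.sum_Ico_eq_sub _ (by omega), Finset.sum_Ico_eq_sub _ h, sum_pairs, sum_pairs]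

/-- The Rudin-Shapiro polynomial. -/
noncomputable def rsP (k : ℕ) (z : ℂ) : ℂ := ∑ j ∈ Finset.range (2 ^ k), (rs j : ℂ) * z ^ j

lemma rsP_succ (k : ℕ) (z : ℂ) : rsP (k + 1) z = rsP k (z ^ 2) + z * rsP k (-z ^ 2) := by
  unfold rsP
  rw [pow_succ', sum_pairs, Finset.mul_sum, ← Finset.sum_add_distrib]
  refine Finset.sum_congr rfl fun j _ => ?_
  rw [rs_even, rs_odd, neg_pow (z ^ 2), ← pow_mul]
  push_cast
  ring

lemma rsP_normSq (k : ℕ) : ∀ z : ℂ, Complex.normSq z = 1 →
    Complex.normSq (rsP k z) + Complex.normSq (rsP k (-z)) = 2 ^ (k + 1) := by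
  induction k with
  | zero =>
    intro z _
    have h : rs 0 = 1 := by rw [rs, dif_pos rfl]
    simp [rsP, h]
    norm_num
  | succ k ih =>
    intro z hz
    have h1 := ih (z ^ 2) (by rw [map_pow, hz, one_pow])
    rw [rsP_succ, rsP_succ, neg_sq, neg_mul, ← sub_eq_add_neg, Complex.normSq_add,
      Complex.normSq_sub, map_mul, hz, pow_succ (2 : ℝ) (k + 1)]
    linarith

lemma rsP_norm (k : ℕ) (z : ℂ) (hz : ‖z‖ = 1) : ‖rsP k z‖ ≤ 2 * Real.sqrt 2 ^ k := by
  have h1 := rsP_normSq k z (by rw [Complex.normSq_eq_norm_sq, hz, one_pow])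
  have h2 := Complex.normSq_nonneg (rsP k (-z))
  rw [Complex.normSq_eq_norm_sq] at h1
  refine abs_le_of_sq_le_sq' ?_ (by positivity) |>.2
  have h3 : (Real.sqrt 2 ^ k) ^ 2 = 2 ^ k := by
    rw [← pow_mul, mul_comm, pow_mul, Real.sq_sqrt (by norm_num)]
  have h4 : (0 : ℝ) < 2 ^ k := by positivity
  rw [mul_pow, h3]
  rw [pow_succ (2 : ℝ) k] at h1
  linarith

lemma block_bound (k : ℕ) (θ : ℝ) :
    |∑ i ∈ Finset.Ico (2 ^ k) (2 ^ (k + 1)),
      rs i * (Real.cos ((2 * i : ℕ) * θ) - Real.cos ((2 * i + 1 : ℕ) * θ))| ≤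
      12 * Real.sqrt 2 ^ k := by
  obtain ⟨z, hz⟩ : ∃ z : ℂ, z = Complex.exp (θ * Complex.I) := ⟨_, rfl⟩
  have hz1 : ‖z‖ = 1 := by rw [hz, Complex.norm_exp_ofReal_mul_I]
  have hre : ∀ n : ℕ, (z ^ n).re = Real.cos (n * θ) := by
    intro n
    rw [hz, ← Complex.exp_nat_mul, ← mul_assoc, ← Complex.exp_ofReal_mul_I_re]
    push_cast
    rfl
  have h1 : ∑ i ∈ Finset.Ico (2 ^ k) (2 ^ (k + 1)),
      rs i * (Real.cos ((2 * i : ℕ) * θ) - Real.cos ((2 * i + 1 : ℕ) * θ)) =
      ((1 - z) * (rsP (k + 1) (z ^ 2) - rsP k (z ^ 2))).re := by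
    unfold rsP
    rw [← Finset.sum_Ico_eq_sub _ (Nat.pow_le_pow_right (by norm_num) (Nat.le_succ k)),
      Finset.mul_sum, Complex.re_sum]
    refine Finset.sum_congr rfl fun i _ => ?_
    have h2 : (1 - z) * ((rs i : ℂ) * (z ^ 2) ^ i) = (rs i : ℂ) * (z ^ (2 * i) - z ^ (2 * i + 1)) := by
      rw [← pow_mul]
      ring
    rw [h2, Complex.re_ofReal_mul, Complex.sub_re, hre, hre]
  rw [h1]
  refine (Complex.abs_re_le_norm _).trans ?_
  have hz2 : ‖z ^ 2‖ = 1 := by rw [norm_pow, hz1, one_pow]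
  have h3 := rsP_norm (k + 1) _ hz2
  have h4 := rsP_norm k _ hz2
  have h5 : ‖1 - z‖ ≤ 2 := by
    have := norm_sub_le (1 : ℂ) z
    rw [norm_one, hz1] at this
    linarith
  have h6 := norm_sub_le (rsP (k + 1) (z ^ 2)) (rsP k (z ^ 2))
  have h7 : Real.sqrt 2 ≤ 2 := Real.sqrt_le_iff.2 ⟨by norm_num, by norm_num⟩
  have h8 : (0 : ℝ) < Real.sqrt 2 ^ k := by positivity
  have h9 : ‖rsP (k + 1) (z ^ 2) - rsP k (z ^ 2)‖ ≤ 6 * Real.sqrt 2 ^ k := by
    rw [pow_succ (Real.sqrt 2) k] at h3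
    nlinarith
  rw [norm_mul]
  calc ‖1 - z‖ * ‖rsP (k + 1) (z ^ 2) - rsP k (z ^ 2)‖ ≤ 2 * (6 * Real.sqrt 2 ^ k) :=
        mul_le_mul h5 h9 (norm_nonneg _) (by norm_num)
    _ = 12 * Real.sqrt 2 ^ k := by ring

end Pool.Agent.Lib.MP_ae49d3_an.H39Win
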