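import Mathlib
import Pool.Agent.Lib.MP_ae49d3_an.H39WinC

namespace Pool.Agent.Lib.MP_ae49d3_an.H39Win

open MeasureTheory Set Topology Pool.Agent.Results.MP_ae49d3_an.OneStepShift
open Filter hiding ker

section Tiling

variable {p q : ℕ → ℕ} (T1 : ∀ j, p j ≤ j ∧ j < q j)
  (T2 : ∀ i j, p j ≤ i → i < q j → p i = p j ∧ q i = q j)

include T1 T2

lemma p_q (j : ℕ) : p (q j) = q j := by
  have h1 := T1 j
  have h2 := T1 (q j)
  by_contra h
  have h3 := T2 (q j - 1) (q j) (by omega) (by omega)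
  have h4 := T2 (q j - 1) j (by omega) (by omega)
  omega

lemma p_p (j : ℕ) : p (p j) = p j ∧ q (p j) = q j := by
  have h1 := T1 j
  exact T2 (p j) j le_rfl (by omega)

lemma class_sum (a : ℕ → ℝ)
    (hpos : ∀ j, ∑ i ∈ Finset.Ico (p j) (q j), (if 0 < a i then a i else 0) = 1)
    (hneg : ∀ j, ∑ i ∈ Finset.Ico (p j) (q j), (if 0 < a i then 0 else a i) =
      if p j = 0 then 0 else -1) (L : ℕ) (hL : p L = L) :
    ∑ i ∈ (Finset.range (q L)).filter (fun i => (if 0 < a i then q i else p i) = L), a i = 0 := by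
  have h1 : ∑ i ∈ (Finset.range (q L)).filter (fun i => (if 0 < a i then q i else p i) = L), a i =
      ∑ i ∈ (Finset.range (q L)).filter (fun i => q i = L), (if 0 < a i then a i else 0) +
      ∑ i ∈ (Finset.range (q L)).filter (fun i => p i = L), (if 0 < a i then 0 else a i) := by
    rw [Finset.sum_filter, Finset.sum_filter, Finset.sum_filter, ← Finset.sum_add_distrib]
    refine Finset.sum_congr rfl fun i _ => ?_
    by_cases h : 0 < a i <;> simp [h]
  have h2 : (Finset.range (q L)).filter (fun i => p i = L) = Finset.Ico (p L) (q L) := by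
    ext i
    simp only [Finset.mem_filter, Finset.mem_range, Finset.mem_Ico]
    have k1 := T1 i
    constructor
    · intro h
      omega
    · intro h
      have k2 := T2 i L h.1 h.2
      omega
  rw [h1, h2, hneg L]
  by_cases h0 : L = 0
  · rw [if_pos (by omega), add_zero]
    refine Finset.sum_eq_zero fun i hi => ?_
    have k1 := T1 i
    have k2 := (Finset.mem_filter.1 hi).2
    omega
  · have k0 := T1 (L - 1)
    have k3 := T1 L
    have h3 : q (L - 1) = L := by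
      by_contra h
      have k2 := T2 L (L - 1) (by omega) (by omega)
      omega
    have h4 : (Finset.range (q L)).filter (fun i => q i = L) =
        Finset.Ico (p (L - 1)) (q (L - 1)) := by
      ext i
      simp only [Finset.mem_filter, Finset.mem_range, Finset.mem_Ico]
      have k1 := T1 i
      constructor
      · intro h
        have k2 := T2 (L - 1) i (by omega) (by omega)
        omega
      · intro h
        have k2 := T2 i (L - 1) h.1 h.2
        omega
    rw [h4, hpos, if_neg (by omega)]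
    norm_num

end Tiling

/-- Dyadic level of a frequency. -/
def lev (j : ℕ) : ℕ := Nat.log 2 j - 1

/-- Band length. -/
def sz (τ : ℕ → ℕ) (j : ℕ) : ℕ := 2 ^ (τ (lev j) + 1)

/-- Band start. -/
def bp (τ : ℕ → ℕ) (j : ℕ) : ℕ := j / sz τ j * sz τ j

/-- Band end. -/
def bq (τ : ℕ → ℕ) (j : ℕ) : ℕ := bp τ j + sz τ j

/-- Coefficients of the bad function. -/
noncomputable def co (τ : ℕ → ℕ) (j : ℕ) : ℝ :=
  if j < 2 then (if j = 0 then 1 else 0) else (-1) ^ j * rs (j / 2) / 2 ^ τ (lev j)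

lemma lev_eq {k i : ℕ} (h1 : 2 ^ (k + 1) ≤ i) (h2 : i < 2 ^ (k + 2)) : lev i = k := by
  unfold lev
  rw [Nat.log_eq_of_pow_le_of_lt_pow h1 h2]
  rfl

lemma lev_small {i : ℕ} (h : i < 2) : lev i = 0 := by
  unfold lev
  rw [Nat.log_of_lt h]

lemma lev_spec {j : ℕ} (h : 2 ≤ j) : 2 ^ (lev j + 1) ≤ j ∧ j < 2 ^ (lev j + 2) := by
  have h1 : 1 ≤ Nat.log 2 j := Nat.log_pos (by norm_num) h
  have h2 : lev j + 1 = Nat.log 2 j := by
    unfold lev
    omega
  refine ⟨?_, ?_⟩
  · rw [h2]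
    exact Nat.pow_log_le_self 2 (by omega)
  · rw [show lev j + 2 = Nat.log 2 j + 1 by omega]
    exact Nat.lt_pow_succ_log_self (by norm_num) j

lemma sz_pos (τ : ℕ → ℕ) (j : ℕ) : 0 < sz τ j := by
  unfold sz
  positivity

lemma band_T1 (τ : ℕ → ℕ) (j : ℕ) : bp τ j ≤ j ∧ j < bq τ j :=
  ⟨Nat.div_mul_le_self _ _, Nat.lt_div_mul_add (sz_pos τ j)⟩

section Tau

variable {τ : ℕ → ℕ} (hτ : ∀ k, τ k ≤ k)

include hτ

lemma band_small {j : ℕ} (h : j < 2) : bp τ j = 0 ∧ bq τ j = 2 := by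
  have h0 : τ 0 = 0 := Nat.le_zero.1 (hτ 0)
  have h1 : sz τ j = 2 := by
    unfold sz
    rw [lev_small h, h0]
    rfl
  have h2 : bp τ j = 0 := by
    unfold bp
    rw [h1, Nat.div_eq_of_lt h]
  refine ⟨h2, ?_⟩
  unfold bq
  rw [h1, h2]

lemma band_big {j : ℕ} (h : 2 ≤ j) : 2 ^ (lev j + 1) ≤ bp τ j ∧ bq τ j ≤ 2 ^ (lev j + 2) := by
  obtain ⟨h1, h2⟩ := lev_spec h
  have h3 : 2 ^ (lev j + 1) = 2 ^ (lev j - τ (lev j)) * sz τ j := by
    unfold sz
    rw [← pow_add]
    congr 1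
    have := hτ (lev j)
    omega
  have h4 : 2 ^ (lev j + 2) = (2 * 2 ^ (lev j - τ (lev j))) * sz τ j := by
    rw [pow_succ', h3, mul_assoc]
  have h5 : 2 ^ (lev j - τ (lev j)) ≤ j / sz τ j := by
    rw [Nat.le_div_iff_mul_le (sz_pos τ j), ← h3]
    exact h1
  have h6 : j / sz τ j < 2 * 2 ^ (lev j - τ (lev j)) := by
    rw [Nat.div_lt_iff_lt_mul (sz_pos τ j), ← h4]
    exact h2
  refine ⟨?_, ?_⟩
  · rw [h3]
    exact Nat.mul_le_mul_right _ h5
  · rw [h4]
    unfold bq bp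
    rw [← Nat.succ_mul]
    exact Nat.mul_le_mul_right _ h6

lemma band_lev {i j : ℕ} (h1 : bp τ j ≤ i) (h2 : i < bq τ j) : lev i = lev j := by
  by_cases h : j < 2
  · have h3 := band_small hτ h
    rw [lev_small h, lev_small (by omega)]
  · have h3 := band_big hτ (not_lt.1 h)
    exact lev_eq (h3.1.trans h1) (lt_of_lt_of_le h2 h3.2)

lemma band_T2 (i j : ℕ) (h1 : bp τ j ≤ i) (h2 : i < bq τ j) :
    bp τ i = bp τ j ∧ bq τ i = bq τ j := by
  have h3 : sz τ i = sz τ j := by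
    unfold sz
    rw [band_lev hτ h1 h2]
  have h4 : i / sz τ j = j / sz τ j := by
    refine Nat.div_eq_of_lt_le h1 ?_
    rw [Nat.succ_mul]
    exact h2
  have h5 : bp τ i = bp τ j := by
    unfold bp
    rw [h3, h4]
  refine ⟨h5, ?_⟩
  unfold bq
  rw [h3, h5]

omit hτ in
lemma co_pair {v k : ℕ} (h1 : 2 ^ (k + 1) ≤ 2 * v) (h2 : 2 * v + 1 < 2 ^ (k + 2)) :
    co τ (2 * v) = rs v / 2 ^ τ k ∧ co τ (2 * v + 1) = -(rs v / 2 ^ τ k) := by
  have h0 : 2 ≤ 2 ^ (k + 1) := by
    rw [pow_succ']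
    have := Nat.two_pow_pos k
    omega
  have e1 : 2 * v / 2 = v := by omega
  have e2 : (2 * v + 1) / 2 = v := by omega
  unfold co
  rw [if_neg (by omega), if_neg (by omega), lev_eq h1 (by omega), lev_eq (by omega) h2, e1, e2,
    pow_succ, pow_mul]
  constructor
  · norm_num
  · norm_num
    ring

lemma band_sums (j : ℕ) :
    ∑ i ∈ Finset.Ico (bp τ j) (bq τ j), (if 0 < co τ i then co τ i else 0) = 1 ∧
    ∑ i ∈ Finset.Ico (bp τ j) (bq τ j), (if 0 < co τ i then 0 else co τ i) =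
      if bp τ j = 0 then 0 else -1 := by
  by_cases h : j < 2
  · obtain ⟨h1, h2⟩ := band_small hτ h
    rw [h1, h2]
    simp [Finset.sum_range_succ, co]
  · obtain ⟨h1, h2⟩ := band_big hτ (not_lt.1 h)
    obtain ⟨u, hu⟩ : ∃ u, u = j / sz τ j * 2 ^ τ (lev j) := ⟨_, rfl⟩
    have h3 : bp τ j = 2 * u := by
      rw [hu]
      unfold bp
      conv_lhs => rw [show j / sz τ j * sz τ j = j / sz τ j * 2 ^ (τ (lev j) + 1) from rfl]
      ring
    have h4 : bq τ j = 2 * (u + 2 ^ τ (lev j)) := by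
      unfold bq
      rw [h3]
      unfold sz
      ring
    have h5 : bp τ j ≠ 0 := by
      have := Nat.two_pow_pos (lev j + 1)
      omega
    have hc : (0 : ℝ) < 2 ^ τ (lev j) := by positivity
    have h6 : ∀ v ∈ Finset.Ico u (u + 2 ^ τ (lev j)),
        co τ (2 * v) = rs v / 2 ^ τ (lev j) ∧ co τ (2 * v + 1) = -(rs v / 2 ^ τ (lev j)) := by
      intro v hv
      have := Finset.mem_Ico.1 hv
      exact co_pair (by omega) (by omega)
    have hi : (0 : ℝ) < 1 / 2 ^ τ (lev j) := by positivity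
    rw [if_neg h5, h3, h4, sum_pairs_Ico _ (Nat.le_add_right _ _),
      sum_pairs_Ico _ (Nat.le_add_right _ _)]
    constructor
    · rw [Finset.sum_congr rfl (g := fun _ => 1 / (2 : ℝ) ^ τ (lev j))]
      · rw [Finset.sum_const, Nat.card_Ico, Nat.add_sub_cancel_left, nsmul_eq_mul]
        push_cast
        field_simp
      · intro v hv
        rw [(h6 v hv).1, (h6 v hv).2]
        rcases rs_sign v with h7 | h7
        · rw [h7, if_pos hi, if_neg (by linarith), add_zero]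
        · rw [h7, neg_div, neg_neg, if_pos hi, if_neg (by linarith), zero_add]
    · rw [Finset.sum_congr rfl (g := fun _ => -(1 / (2 : ℝ) ^ τ (lev j)))]
      · rw [Finset.sum_const, Nat.card_Ico, Nat.add_sub_cancel_left, nsmul_eq_mul]
        push_cast
        field_simp
      · intro v hv
        rw [(h6 v hv).1, (h6 v hv).2]
        rcases rs_sign v with h7 | h7
        · rw [h7, if_pos hi, if_neg (by linarith), zero_add]
        · rw [h7, neg_div, neg_neg, if_pos hi, if_neg (by linarith), add_zero]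

end Tau

/-- Partial sums of the bad function. -/
noncomputable def fn (τ : ℕ → ℕ) (n : ℕ) : C(unitInterval, ℝ) :=
  ∑ j ∈ Finset.range (2 ^ (n + 1)), co τ j • cosine j

lemma fn_diff (τ : ℕ → ℕ) (n : ℕ) (x : unitInterval) :
    fn τ (n + 1) x - fn τ n x = (∑ i ∈ Finset.Ico (2 ^ n) (2 ^ (n + 1)),
      rs i * (Real.cos ((2 * i : ℕ) * (Real.pi * x)) -
        Real.cos ((2 * i + 1 : ℕ) * (Real.pi * x)))) / 2 ^ τ n := by
  unfold fn
  rw [ContinuousMap.sum_apply, ContinuousMap.sum_apply,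
    ← Finset.sum_Ico_eq_sub _ (Nat.pow_le_pow_right (by norm_num) (Nat.le_succ (n + 1))),
    pow_succ' 2 n, pow_succ' 2 (n + 1),
    sum_pairs_Ico _ (Nat.pow_le_pow_right (by norm_num) (Nat.le_succ n)), ← pow_succ' 2 n,
    Finset.sum_div]
  refine Finset.sum_congr rfl fun v hv => ?_
  have h1 := Finset.mem_Ico.1 hv
  have e1 : 2 ^ (n + 1) = 2 * 2 ^ n := pow_succ' 2 n
  have e2 : 2 ^ (n + 2) = 2 * 2 ^ (n + 1) := pow_succ' 2 (n + 1)
  have h2 := co_pair (τ := τ) (v := v) (k := n) (by omega) (by omega)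
  rw [ContinuousMap.smul_apply, ContinuousMap.smul_apply, h2.1, h2.2, cosine_apply, cosine_apply,
    smul_eq_mul, smul_eq_mul, mul_assoc, mul_assoc]
  ring

lemma fn_zero (τ : ℕ → ℕ) (n : ℕ) : fn τ n 0 = 1 := by
  induction n with
  | zero => simp [fn, Finset.sum_range_succ, co, cosine_at_zero]
  | succ n ih =>
    have h := fn_diff τ n 0
    simp at h
    linarith

lemma fn_dist (τ : ℕ → ℕ) (n : ℕ) :
    dist (fn τ n) (fn τ (n + 1)) ≤ 12 * Real.sqrt 2 ^ n / 2 ^ τ n := by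
  rw [dist_comm, dist_eq_norm]
  refine (ContinuousMap.norm_le _ (by positivity)).2 fun x => ?_
  rw [ContinuousMap.sub_apply, fn_diff, Real.norm_eq_abs, abs_div,
    abs_of_pos (by positivity : (0 : ℝ) < 2 ^ τ n)]
  exact div_le_div_of_nonneg_right (block_bound n _) (by positivity)

lemma fn_ker (τ : ℕ → ℕ) (U : Finset ℕ) (n : ℕ) (h : ∀ i ∈ U, i < 2 ^ (n + 1)) :
    B (fn τ n) (ker cosine 0 U) = ∑ i ∈ U, co τ i := by
  unfold fn
  rw [map_sum, LinearMap.sum_apply]
  have h1 : ∀ j ∈ Finset.range (2 ^ (n + 1)),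
      B (co τ j • cosine j) (ker cosine 0 U) = if j ∈ U then co τ j else 0 := by
    intro j _
    rw [map_smul, LinearMap.smul_apply, B_ker cos_orth cos_ne, cosine_at_zero, smul_eq_mul]
    split_ifs <;> simp
  rw [Finset.sum_congr rfl h1, ← Finset.sum_filter]
  refine Finset.sum_congr ?_ fun _ _ => rfl
  ext i
  simp only [Finset.mem_filter, Finset.mem_range]
  exact ⟨fun h' => h'.2, fun h' => ⟨h i h', h'⟩⟩

theorem negative {a : ℝ} (ha : 1 / 2 < a) :
    ∃ φ : ℕ → C(unitInterval, ℝ), ClosedOrthogonal φ ∧ Window φ 8 a ∧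
      ∃ f : C(unitInterval, ℝ), f 0 = 1 ∧ ∀ N, partialSum φ f N 0 = 0 := by
  obtain ⟨γ, hγ1, hγ2, hγ3⟩ : ∃ γ : ℝ, 1 / 2 < γ ∧ γ ≤ 1 ∧ γ ≤ a :=
    ⟨min a 1, lt_min ha (by norm_num), min_le_right _ _, min_le_left _ _⟩
  have hγ0 : 0 ≤ γ := by linarith
  let τ : ℕ → ℕ := fun k => ⌊γ * k⌋₊
  have hτ1 : ∀ k : ℕ, (τ k : ℝ) ≤ γ * k := fun k => Nat.floor_le (by positivity)
  have hτ2 : ∀ k : ℕ, γ * k < τ k + 1 := fun k => Nat.lt_floor_add_one _
  have hτ : ∀ k, τ k ≤ k := by
    intro k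
    have h1 : (τ k : ℝ) ≤ k :=
      (hτ1 k).trans (mul_le_of_le_one_left (Nat.cast_nonneg k) hγ2)
    exact_mod_cast h1
  have hsz : ∀ j : ℕ, (sz τ j : ℝ) ≤ 2 * ((j : ℝ) + 1) ^ γ := by
    intro j
    have h1 : 2 ^ lev j ≤ j + 1 := by
      by_cases h : j < 2
      · rw [lev_small h]
        omega
      · have h2 := (lev_spec (not_lt.1 h)).1
        rw [pow_succ] at h2
        omega
    have h2 : (2 : ℝ) ^ lev j ≤ j + 1 := by exact_mod_cast h1
    have h3 : (2 : ℝ) ^ τ (lev j) ≤ ((j : ℝ) + 1) ^ γ := by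
      calc (2 : ℝ) ^ τ (lev j) = (2 : ℝ) ^ (τ (lev j) : ℝ) := (Real.rpow_natCast _ _).symm
        _ ≤ (2 : ℝ) ^ ((lev j : ℝ) * γ) :=
            Real.rpow_le_rpow_of_exponent_le (by norm_num) (by rw [mul_comm]; exact hτ1 _)
        _ = ((2 : ℝ) ^ lev j) ^ γ := by
            rw [Real.rpow_mul (by norm_num), Real.rpow_natCast]
        _ ≤ ((j : ℝ) + 1) ^ γ := Real.rpow_le_rpow (by positivity) h2 hγ0
    unfold sz
    push_cast
    rw [pow_succ]
    linarith
  let l : ℕ → ℕ := fun i => if 0 < co τ i then bq τ i else bp τ i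
  have T1 := band_T1 τ
  have T2 := band_T2 hτ
  have hl1 : ∀ i, bp τ (l i) = l i := by
    intro i
    simp only [l]
    split_ifs
    · exact p_q T1 T2 i
    · exact (p_p T1 T2 i).1
  have hl2 : ∀ i, i < bq τ (l i) := by
    intro i
    simp only [l]
    split_ifs
    · exact (T1 i).2.trans (T1 _).2
    · rw [(p_p T1 T2 i).2]
      exact (T1 i).2
  have hl3 : ∀ i, l i ≤ i + sz τ i := by
    intro i
    have h1 := (T1 i).1
    simp only [l, bq]
    split_ifs <;> omega
  have hcl : ∀ n : ℕ, {i | l i = l n} ⊆ {j : ℕ | (j : ℝ) ≤ n + 8 * ((n : ℝ) + 1) ^ a} := by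
    intro n i hi
    have h1 : l i = l n := hi
    have h2 := hl2 i
    rw [h1] at h2
    unfold bq at h2
    rw [hl1] at h2
    have h3 : (i : ℝ) ≤ l n + sz τ (l n) := by exact_mod_cast h2.le
    have h4 : (l n : ℝ) ≤ n + sz τ n := by exact_mod_cast hl3 n
    have h5 := hsz n
    have h6 := hsz (l n)
    have n0 : (0 : ℝ) ≤ n := Nat.cast_nonneg n
    have h7 : ((n : ℝ) + 1) ^ γ ≤ n + 1 := by
      have := Real.rpow_le_rpow_of_exponent_le (by linarith : (1 : ℝ) ≤ n + 1) hγ2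
      rwa [Real.rpow_one] at this
    have h8 : ((l n : ℝ) + 1) ^ γ ≤ 3 * ((n : ℝ) + 1) ^ γ := by
      calc ((l n : ℝ) + 1) ^ γ ≤ (3 * ((n : ℝ) + 1)) ^ γ :=
            Real.rpow_le_rpow (by positivity) (by linarith) hγ0
        _ = 3 ^ γ * ((n : ℝ) + 1) ^ γ := Real.mul_rpow (by norm_num) (by linarith)
        _ ≤ 3 * ((n : ℝ) + 1) ^ γ := by
            refine mul_le_mul_of_nonneg_right ?_ (by positivity)
            have := Real.rpow_le_rpow_of_exponent_le (by norm_num : (1 : ℝ) ≤ 3) hγ2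
            rwa [Real.rpow_one] at this
    have h9 : ((n : ℝ) + 1) ^ γ ≤ ((n : ℝ) + 1) ^ a :=
      Real.rpow_le_rpow_of_exponent_le (by linarith) hγ3
    change (i : ℝ) ≤ n + 8 * ((n : ℝ) + 1) ^ a
    linarith
  obtain ⟨φ, k1, k2, k3, k4, k5⟩ := classes cos_orth cos_ne 0
    (fun j => by rw [cosine_at_zero]; exact one_ne_zero) l (bq τ) hl2
  have hρ : Real.sqrt 2 / 2 ^ γ < 1 := by
    rw [div_lt_one (by positivity), Real.sqrt_eq_rpow]
    exact Real.rpow_lt_rpow_of_exponent_lt (by norm_num) hγ1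
  have hgeo : ∀ n, dist (fn τ n) (fn τ (n + 1)) ≤ 24 * (Real.sqrt 2 / 2 ^ γ) ^ n := by
    intro n
    refine (fn_dist τ n).trans ?_
    have h1 : ((2 : ℝ) ^ γ) ^ n ≤ 2 * 2 ^ τ n := by
      calc ((2 : ℝ) ^ γ) ^ n = (2 : ℝ) ^ (γ * n) := by
            rw [Real.rpow_mul (by norm_num), Real.rpow_natCast]
        _ ≤ (2 : ℝ) ^ ((τ n + 1 : ℕ) : ℝ) :=
            Real.rpow_le_rpow_of_exponent_le (by norm_num) (by push_cast; exact (hτ2 n).le)
        _ = 2 * 2 ^ τ n := by rw [Real.rpow_natCast, pow_succ']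
    rw [div_pow, ← mul_div_assoc, div_le_div_iff₀ (by positivity) (by positivity)]
    have h2 : (0 : ℝ) < Real.sqrt 2 ^ n := by positivity
    nlinarith
  obtain ⟨f, hf⟩ := cauchySeq_tendsto_of_complete (cauchySeq_of_le_geometric _ _ hρ hgeo)
  have hf0 : f 0 = 1 := by
    have h1 := ((continuous_eval_const (0 : unitInterval)).tendsto f).comp hf
    have h2 : ((fun g : C(unitInterval, ℝ) => g 0) ∘ fn τ) = fun _ => (1 : ℝ) := by
      funext n
      exact fn_zero τ n
    rw [h2] at h1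
    exact tendsto_nhds_unique h1 tendsto_const_nhds
  have hfk : ∀ j, B f (ker cosine 0
      ((Finset.range (bq τ (l j))).filter (fun i => l i = l j))) = 0 := by
    intro j
    have h1 := ((B_cont (ker cosine 0
      ((Finset.range (bq τ (l j))).filter (fun i => l i = l j)))).tendsto f).comp hf
    refine tendsto_nhds_unique h1 (tendsto_const_nhds.congr' ?_)
    filter_upwards [eventually_ge_atTop (bq τ (l j))] with n hn
    rw [Function.comp_apply, fn_ker]
    · exact (class_sum T1 T2 (co τ) (fun j => (band_sums hτ j).1) (fun j => (band_sums hτ j).2)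
        (l j) (hl1 j)).symm
    · intro i hi
      have h2 := Finset.mem_range.1 (Finset.mem_filter.1 hi).1
      have h3 : n + 1 < 2 ^ (n + 1) := Nat.lt_two_pow_self
      omega
  refine ⟨φ, ⟨k1, k2, ?_⟩, fun n => ⟨Submodule.span_mono (image_mono (hcl n)) (k3 n),
    Submodule.span_mono (image_mono (hcl n)) (k4 n)⟩, f, hf0, fun N => ?_⟩
  · refine cos_dense.mono ?_
    have h : Submodule.span ℝ (range cosine) ≤ Submodule.span ℝ (range φ) := by
      rw [Submodule.span_le]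
      rintro _ ⟨j, rfl⟩
      exact Submodule.span_mono (image_subset_range _ _) (k4 j)
    exact h
  · unfold partialSum
    rw [ContinuousMap.sum_apply]
    refine Finset.sum_eq_zero fun n _ => ?_
    rw [ContinuousMap.smul_apply, smul_eq_mul]
    rcases k5 n with h | h
    · rw [h, mul_zero]
    · have h1 : ip f (φ n) = 0 := by
        rw [h]
        exact hfk n
      rw [h1, zero_div, zero_mul]

end Pool.Agent.Lib.MP_ae49d3_an.H39Win
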