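import Mathlib
import Pool.Agent.Lib.MP_ae49d3_an.H39WinDefs

namespace Pool.Agent.Lib.MP_ae49d3_an.H39Win

/-- The system `φ` stays in a window of width `w n` around the cosine system. -/
def InWindow (φ : ℕ → C(unitInterval, ℝ)) (w : ℕ → ℝ) : Prop :=
  ∀ n : ℕ,
    φ n ∈ Submodule.span ℝ (cosine '' {j : ℕ | (j : ℝ) ≤ n + w n}) ∧
    cosine n ∈ Submodule.span ℝ (φ '' {j : ℕ | (j : ℝ) ≤ n + w n})

end Pool.Agent.Lib.MP_ae49d3_an.H39Win
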