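import Mathlib
import Pool.Agent.Lib.MP_ae49d3_an.H39WinC

namespace Pool.Agent.Lib.MP_ae49d3_an.H39Win

open MeasureTheory Set Topology Pool.Agent.Results.MP_ae49d3_an.OneStepShift
open Filter hiding ker

/-- Weighted kernel. -/
noncomputable def kw (e : ℕ → C(unitInterval, ℝ)) (w : ℕ → ℝ) (T : Finset ℕ) :
    C(unitInterval, ℝ) :=
  ∑ j ∈ T, (w j / B (e j) (e j)) • e j

/-- Squared norm of the weighted kernel. -/
noncomputable def kap (e : ℕ → C(unitInterval, ℝ)) (w : ℕ → ℝ) (T : Finset ℕ) : ℝ :=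
  ∑ j ∈ T, w j / B (e j) (e j) * w j

section Embed

variable {e : ℕ → C(unitInterval, ℝ)} (ho : ∀ m n, m ≠ n → B (e m) (e n) = 0) (hn : ∀ n, e n ≠ 0)

include ho hn

lemma B_kw (w : ℕ → ℝ) (T : Finset ℕ) (i : ℕ) :
    B (e i) (kw e w T) = if i ∈ T then w i else 0 := by
  unfold kw
  rw [map_sum]
  split_ifs with h
  · rw [Finset.sum_eq_single i]
    · rw [map_smul, smul_eq_mul, div_mul_cancel₀ _ (B_pos (hn i)).ne']
    · intro j _ hji
      rw [map_smul, ho i j hji.symm, smul_zero]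
    · intro h'
      exact absurd h h'
  · refine Finset.sum_eq_zero fun j hj => ?_
    rw [map_smul, ho i j (fun h' => h (h' ▸ hj)), smul_zero]

lemma B_kw_kw (w : ℕ → ℝ) {T U : Finset ℕ} (h : T ⊆ U) :
    B (kw e w T) (kw e w U) = kap e w T := by
  conv_lhs => rw [kw]
  rw [map_sum, LinearMap.sum_apply, kap]
  refine Finset.sum_congr rfl fun j hj => ?_
  rw [map_smul, LinearMap.smul_apply, B_kw ho hn, if_pos (h hj), smul_eq_mul]

omit ho in
lemma kap_pos (w : ℕ → ℝ) {T : Finset ℕ} (hw : ∀ j ∈ T, w j ≠ 0) (h0 : T.Nonempty) :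
    0 < kap e w T := by
  unfold kap
  refine Finset.sum_pos (fun j hj => ?_) h0
  rw [div_mul_eq_mul_div]
  exact div_pos (mul_self_pos.2 (hw j hj)) (B_pos (hn j))

omit ho hn in
lemma kw_mem (w : ℕ → ℝ) (T : Finset ℕ) (S : Set ℕ) (h : ∀ i ∈ T, i ∈ S) :
    kw e w T ∈ Submodule.span ℝ (e '' S) :=
  Submodule.sum_mem _ fun i hi => Submodule.smul_mem _ _ (Submodule.subset_span ⟨i, h i hi, rfl⟩)

omit ho hn in
lemma B_zero_of_span {S : Set ℕ} {g v : C(unitInterval, ℝ)} (hv : v ∈ Submodule.span ℝ (e '' S))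
    (h : ∀ i ∈ S, B (e i) g = 0) : B v g = 0 := by
  induction hv using Submodule.span_induction with
  | mem x hx =>
    obtain ⟨i, hi, rfl⟩ := hx
    exact h i hi
  | zero => simp
  | add x y _ _ hx hy => rw [map_add, LinearMap.add_apply, hx, hy, add_zero]
  | smul a x _ hx => rw [map_smul, LinearMap.smul_apply, hx, smul_zero]

lemma eq_kw {S : Set ℕ} {v : C(unitInterval, ℝ)} (hv : v ∈ Submodule.span ℝ (e '' S))
    (w : ℕ → ℝ) (T : Finset ℕ) (h1 : ∀ i ∈ T, i ∈ S)
    (h2 : ∀ i ∈ S, B (e i) v = if i ∈ T then w i else 0) : v = kw e w T := by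
  by_contra h
  have h3 := B_pos (sub_ne_zero.2 h)
  have h4 : B (v - kw e w T) (v - kw e w T) = 0 := by
    refine B_zero_of_span (sub_mem hv (kw_mem w T S h1)) fun i hi => ?_
    rw [map_sub, h2 i hi, B_kw ho hn, sub_self]
  exact h3.ne' h4

lemma embed (l R : ℕ → ℕ) (hR : ∀ i, i < R (l i)) (v : ℕ → C(unitInterval, ℝ))
    (hv : ∀ L, v L ∈ Submodule.span ℝ (e '' {i | l i = L})) :
    ∃ φ : ℕ → C(unitInterval, ℝ), (∀ m n, m ≠ n → B (φ m) (φ n) = 0) ∧ (∀ n, φ n ≠ 0) ∧
      (∀ j, φ j ∈ Submodule.span ℝ (e '' {i | l i = l j})) ∧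
      (∀ j, e j ∈ Submodule.span ℝ (φ '' {i | l i = l j})) ∧
      (∀ j, φ j = v (l j) ∨ B (φ j) (v (l j)) = 0) ∧
      (∀ j, B (e j) (v (l j)) = 0 → φ j = e j) ∧
      ∀ L, v L ≠ 0 → ∃ j, l j = L ∧ φ j = v L := by
  classical
  let w : ℕ → ℝ := fun j => B (e j) (v (l j))
  let U : ℕ → Finset ℕ := fun L => (Finset.range (R L)).filter (fun i => l i = L ∧ w i ≠ 0)
  let P : ℕ → Finset ℕ := fun j => (Finset.range j).filter (fun i => l i = l j ∧ w i ≠ 0)
  have hU : ∀ i L, i ∈ U L ↔ l i = L ∧ w i ≠ 0 := by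
    intro i L
    simp only [U, Finset.mem_filter, Finset.mem_range]
    exact ⟨fun h => h.2, fun h => ⟨h.1 ▸ hR i, h⟩⟩
  have hP : ∀ i j, i ∈ P j ↔ i < j ∧ l i = l j ∧ w i ≠ 0 := by
    intro i j
    simp only [P, Finset.mem_filter, Finset.mem_range]
  have hvU : ∀ L, v L = kw e w (U L) := by
    intro L
    refine eq_kw ho hn (hv L) w (U L) (fun i hi => ((hU i L).1 hi).1) fun i hi => ?_
    have hi' : l i = L := hi
    have h1 : B (e i) (v L) = w i := by simp only [w, hi']
    rw [h1]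
    split_ifs with h
    · rfl
    · by_contra h2
      exact h ((hU i L).2 ⟨hi', h2⟩)
  let φ : ℕ → C(unitInterval, ℝ) := fun j => if w j = 0 then e j else
    if (P j).Nonempty then e j - (w j / kap e w (P j)) • kw e w (P j) else kw e w (U (l j))
  have hφ0 : ∀ j, w j = 0 → φ j = e j := fun j h => if_pos h
  have hφ1 : ∀ j, w j ≠ 0 → (P j).Nonempty →
      φ j = e j - (w j / kap e w (P j)) • kw e w (P j) := fun j h h' => by
    simp only [φ, if_neg h, if_pos h']
  have hφ2 : ∀ j, w j ≠ 0 → ¬ (P j).Nonempty → φ j = kw e w (U (l j)) := fun j h h' => by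
    simp only [φ, if_neg h, if_neg h']
  have hkP : ∀ j, (P j).Nonempty → 0 < kap e w (P j) := fun j h =>
    kap_pos hn w (fun i hi => ((hP i j).1 hi).2.2) h
  have hmem' : ∀ j, w j ≠ 0 → φ j ∈ Submodule.span ℝ (e '' {i | l i = l j ∧ w i ≠ 0}) := by
    intro j hj
    by_cases h : (P j).Nonempty
    · rw [hφ1 j hj h]
      exact sub_mem (Submodule.subset_span ⟨j, ⟨rfl, hj⟩, rfl⟩)
        (Submodule.smul_mem _ _ (kw_mem _ _ _ fun i hi => ((hP i j).1 hi).2))
    · rw [hφ2 j hj h]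
      exact kw_mem _ _ _ fun i hi => (hU i _).1 hi
  have hmem : ∀ j, φ j ∈ Submodule.span ℝ (e '' {i | l i = l j}) := by
    intro j
    by_cases hj : w j = 0
    · rw [hφ0 j hj]
      exact Submodule.subset_span ⟨j, rfl, rfl⟩
    · exact Submodule.span_mono (image_mono fun i hi => hi.1) (hmem' j hj)
  have hB : ∀ j, w j ≠ 0 → (P j).Nonempty → ∀ T : Finset ℕ, P j ⊆ T → j ∈ T →
      B (φ j) (kw e w T) = 0 := by
    intro j hj h T h1 h2
    rw [hφ1 j hj h, map_sub, map_smul, LinearMap.sub_apply, LinearMap.smul_apply,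
      B_kw ho hn, if_pos h2, B_kw_kw ho hn w h1, smul_eq_mul,
      div_mul_cancel₀ _ (hkP j h).ne', sub_self]
  have hsing : ∀ m n, m ≠ n → w m = 0 → B (φ m) (φ n) = 0 := by
    intro m n h hm
    rw [hφ0 m hm]
    by_cases hn' : w n = 0
    · rw [hφ0 n hn']
      exact ho m n h
    · rw [B_comm]
      refine B_zero_of_span (hmem' n hn') fun i hi => ho i m ?_
      rintro rfl
      exact hi.2 hm
  have horth : ∀ m n, m < n → B (φ m) (φ n) = 0 := by
    intro m n h
    by_cases hm0 : w m = 0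
    · exact hsing m n h.ne hm0
    by_cases hn0 : w n = 0
    · rw [B_comm]
      exact hsing n m h.ne' hn0
    by_cases hl : l m = l n
    · have hPn : (P n).Nonempty := ⟨m, (hP m n).2 ⟨h, hl, hm0⟩⟩
      by_cases hm : (P m).Nonempty
      · have h1 : B (φ m) (e n) = 0 := by
          rw [hφ1 m hm0 hm, map_sub, map_smul, LinearMap.sub_apply, LinearMap.smul_apply,
            ho m n h.ne, B_comm (kw e w (P m)), B_kw ho hn,
            if_neg (fun h' => absurd ((hP n m).1 h').1 (by omega))]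
          simp
        have h2 : B (φ m) (kw e w (P n)) = 0 :=
          hB m hm0 hm (P n) (fun i hi => (hP i n).2
            ⟨((hP i m).1 hi).1.trans h, ((hP i m).1 hi).2.1.trans hl, ((hP i m).1 hi).2.2⟩)
            ((hP m n).2 ⟨h, hl, hm0⟩)
        rw [hφ1 n hn0 hPn, map_sub, map_smul, h1, h2]
        simp
      · rw [hφ2 m hm0 hm, B_comm]
        exact hB n hn0 hPn (U (l m))
          (fun i hi => (hU i _).2 ⟨((hP i n).1 hi).2.1.trans hl.symm, ((hP i n).1 hi).2.2⟩)
          ((hU n _).2 ⟨hl.symm, hn0⟩)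
    · refine B_disjoint ho ?_ (hmem m) (hmem n)
      rw [Set.disjoint_left]
      intro i h1 h2
      exact hl (Eq.trans (Eq.symm h1) h2)
  have hne : ∀ n, φ n ≠ 0 := by
    intro n h
    by_cases hn0 : w n = 0
    · rw [hφ0 n hn0] at h
      exact hn n h
    by_cases hPn : (P n).Nonempty
    · have h1 : B (e n) (φ n) = B (e n) (e n) := by
        rw [hφ1 n hn0 hPn, map_sub, map_smul, B_kw ho hn,
          if_neg (fun h' => absurd ((hP n n).1 h').1 (lt_irrefl n))]
        simp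
      rw [h, map_zero] at h1
      exact (B_pos (hn n)).ne h1
    · have h1 := B_kw ho hn w (U (l n)) n
      rw [← hφ2 n hn0 hPn, h, map_zero, if_pos ((hU n _).2 ⟨rfl, hn0⟩)] at h1
      exact hn0 h1.symm
  have hmin : ∀ L, (∃ i, l i = L ∧ w i ≠ 0) →
      ∃ j0, (l j0 = L ∧ w j0 ≠ 0) ∧ (∀ i, l i = L ∧ w i ≠ 0 → j0 ≤ i) ∧ ¬ (P j0).Nonempty := by
    intro L hex
    refine ⟨Nat.find hex, Nat.find_spec hex, fun i hi => Nat.find_min' hex hi, ?_⟩
    rintro ⟨i, hi⟩
    have h1 := (hP i _).1 hi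
    have h2 := Nat.find_min' hex ⟨h1.2.1.trans (Nat.find_spec hex).1, h1.2.2⟩
    omega
  refine ⟨φ, fun m n h => ?_, hne, hmem, fun j => ?_, fun j => ?_, hφ0, fun L hL => ?_⟩
  · rcases lt_or_gt_of_ne h with h | h
    · exact horth m n h
    · rw [B_comm]
      exact horth n m h
  · by_cases hj : w j = 0
    · rw [← hφ0 j hj]
      exact Submodule.subset_span ⟨j, rfl, rfl⟩
    obtain ⟨j0, hj0, hmn, hP0⟩ := hmin (l j) ⟨j, rfl, hj⟩
    have hsum : ∀ T : Finset ℕ,
        (∀ i ∈ T, e i - (w i / w j0) • e j0 ∈ Submodule.span ℝ (φ '' {i | l i = l j})) →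
        kw e w T - (kap e w T / w j0) • e j0 ∈ Submodule.span ℝ (φ '' {i | l i = l j}) := by
      intro T hT
      have h2 : kw e w T - (kap e w T / w j0) • e j0 =
          ∑ i ∈ T, (w i / B (e i) (e i)) • (e i - (w i / w j0) • e j0) := by
        simp only [kw, kap, Finset.sum_div, Finset.sum_smul, ← Finset.sum_sub_distrib]
        refine Finset.sum_congr rfl fun i _ => ?_
        rw [smul_sub, smul_smul, mul_div_assoc]
      rw [h2]
      exact Submodule.sum_mem _ fun i hi => Submodule.smul_mem _ _ (hT i hi)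
    have hW : ∀ k, l k = l j → w k ≠ 0 →
        e k - (w k / w j0) • e j0 ∈ Submodule.span ℝ (φ '' {i | l i = l j}) := by
      intro k
      induction k using Nat.strong_induction_on with
      | _ k ih =>
        intro hk hk0
        by_cases hPk : (P k).Nonempty
        · have h1 := hsum (P k) fun i hi =>
            ih i ((hP i k).1 hi).1 (((hP i k).1 hi).2.1.trans hk) ((hP i k).1 hi).2.2
          have h3 : e k - (w k / w j0) • e j0 = φ k + (w k / kap e w (P k)) •
              (kw e w (P k) - (kap e w (P k) / w j0) • e j0) := by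
            have h4 : w k / kap e w (P k) * (kap e w (P k) / w j0) = w k / w j0 := by
              have := (hkP k hPk).ne'
              field_simp
            rw [hφ1 k hk0 hPk, smul_sub, smul_smul, h4]
            abel
          rw [h3]
          exact add_mem (Submodule.subset_span ⟨k, hk, rfl⟩) (Submodule.smul_mem _ _ h1)
        · have h1 : k = j0 := by
            have h2 := hmn k ⟨hk, hk0⟩
            by_contra h3
            exact hPk ⟨j0, (hP j0 k).2 ⟨by omega, hj0.1.trans hk.symm, hj0.2⟩⟩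
          rw [h1, div_self hj0.2, one_smul, sub_self]
          exact zero_mem _
    have h5 := hsum (U (l j0)) fun i hi =>
      hW i (((hU i _).1 hi).1.trans hj0.1) ((hU i _).1 hi).2
    have h6 : kw e w (U (l j0)) ∈ Submodule.span ℝ (φ '' {i | l i = l j}) := by
      rw [← hφ2 j0 hj0.2 hP0]
      exact Submodule.subset_span ⟨j0, hj0.1, rfl⟩
    have h7 := sub_mem h6 h5
    rw [sub_sub_cancel] at h7
    have h8 : kap e w (U (l j0)) / w j0 ≠ 0 :=
      div_ne_zero (kap_pos hn w (fun i hi => ((hU i _).1 hi).2)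
        ⟨j0, (hU j0 _).2 ⟨rfl, hj0.2⟩⟩).ne' hj0.2
    have h9 := (Submodule.smul_mem_iff _ h8).1 h7
    have h10 := add_mem (hW j rfl hj) (Submodule.smul_mem _ (w j / w j0) h9)
    rw [sub_add_cancel] at h10
    exact h10
  · by_cases hj : w j = 0
    · right
      rw [hφ0 j hj]
      exact hj
    by_cases h : (P j).Nonempty
    · right
      rw [hvU]
      exact hB j hj h _ (fun i hi => (hU i _).2 ((hP i j).1 hi).2) ((hU j _).2 ⟨rfl, hj⟩)
    · left
      rw [hvU]
      exact hφ2 j hj h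
  · have hex : ∃ i, l i = L ∧ w i ≠ 0 := by
      by_contra h
      apply hL
      rw [hvU]
      refine Finset.sum_eq_zero fun i hi => absurd ⟨i, (hU i L).1 hi⟩ h
    obtain ⟨j0, hj0, -, hP0⟩ := hmin L hex
    refine ⟨j0, hj0.1, ?_⟩
    rw [hvU, hφ2 j0 hj0.2 hP0, hj0.1]

end Embed

end Pool.Agent.Lib.MP_ae49d3_an.H39Win
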