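import Mathlib
import Pool.Agent.Lib.MP_ae49d3_an.H39WinB

namespace Pool.Agent.Lib.MP_ae49d3_an.H39Win

open MeasureTheory Set Topology Pool.Agent.Results.MP_ae49d3_an.OneStepShift
open Filter hiding ker

lemma bang_pt (u h p : ℝ) (hp : p ^ 2 ≤ 1) :
    u / Real.sqrt (1 + u ^ 2) * (h * p) +
        h ^ 2 / 2 * (3 / 64 * p ^ 2 - (2 + u ^ 2 + (u + h * p) ^ 2) / 256) ≤
      Real.sqrt (1 + (u + h * p) ^ 2) - Real.sqrt (1 + u ^ 2) := by
  obtain ⟨v, hv⟩ : ∃ v, v = u + h * p := ⟨_, rfl⟩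
  have hd : h * p = v - u := by rw [hv]; ring
  rw [← hv]
  obtain ⟨A, hA⟩ : ∃ A, A = Real.sqrt (1 + u ^ 2) := ⟨_, rfl⟩
  obtain ⟨D, hD⟩ : ∃ D, D = Real.sqrt (1 + v ^ 2) := ⟨_, rfl⟩
  rw [← hA, ← hD]
  have a2 : A ^ 2 = 1 + u ^ 2 := by rw [hA, Real.sq_sqrt (by positivity)]
  have d2 : D ^ 2 = 1 + v ^ 2 := by rw [hD, Real.sq_sqrt (by positivity)]
  have a1 : 1 ≤ A := by
    rw [hA]
    exact Real.one_le_sqrt.2 (by nlinarith [sq_nonneg u])
  have d1 : 1 ≤ D := by
    rw [hD]
    exact Real.one_le_sqrt.2 (by nlinarith [sq_nonneg v])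
  obtain ⟨S, hS⟩ : ∃ S, S = 2 + u ^ 2 + v ^ 2 := ⟨_, rfl⟩
  rw [← hS]
  have s2 : 2 ≤ S := by rw [hS]; nlinarith [sq_nonneg u, sq_nonneg v]
  have x0 : 0 < A * D := by positivity
  have x2 : (A * D) ^ 2 = (1 + u * v) ^ 2 + (v - u) ^ 2 := by
    rw [mul_pow, a2, d2]
    ring
  have x3 : (v - u) ^ 2 ≤ (A * D - (1 + u * v)) * (2 * (A * D)) := by
    nlinarith [sq_nonneg (A * D - (1 + u * v))]
  have x4 : A * (A * D) ≤ S ^ 2 := by
    have e1 : A ^ 2 ≤ S := by rw [a2, hS]; nlinarith [sq_nonneg v]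
    have e2 : D ≤ S := by rw [hS]; nlinarith [sq_nonneg u]
    calc A * (A * D) = A ^ 2 * D := by ring
      _ ≤ S * S := mul_le_mul e1 e2 (by linarith) (by linarith)
      _ = S ^ 2 := by ring
  have x5 : (3 / 64 - S / 256) * S ^ 2 ≤ 1 := by
    nlinarith [mul_nonneg (sq_nonneg (S - 8)) (by linarith : 0 ≤ S + 4)]
  have x6 : 3 / 64 - S / 256 ≤ 1 / (A * (A * D)) := by
    rw [le_div_iff₀ (by positivity)]
    by_cases hc : 0 ≤ 3 / 64 - S / 256
    · exact (mul_le_mul_of_nonneg_left x4 hc).trans x5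
    · have : (3 / 64 - S / 256) * (A * (A * D)) ≤ 0 :=
        mul_nonpos_of_nonpos_of_nonneg (not_le.1 hc).le (by positivity)
      linarith
  have x7 : (v - u) ^ 2 / 2 * (1 / (A * (A * D))) ≤ D - A - u / A * (v - u) := by
    have e1 : D - A - u / A * (v - u) = (A * D - (1 + u * v)) / A := by
      field_simp
      nlinarith
    have e2 : (v - u) ^ 2 / 2 * (1 / (A * (A * D))) = ((v - u) ^ 2 / (2 * (A * D))) / A := by
      field_simp
    rw [e1, e2]
    refine div_le_div_of_nonneg_right ?_ (by linarith)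
    rw [div_le_iff₀ (by positivity)]
    exact x3
  have x8 : h ^ 2 / 2 * (3 / 64 * p ^ 2 - S / 256) ≤ (v - u) ^ 2 / 2 * (3 / 64 - S / 256) := by
    rw [← hd]
    have e1 : 0 ≤ h ^ 2 * ((1 - p ^ 2) * S) :=
      mul_nonneg (sq_nonneg h) (mul_nonneg (by linarith) (by linarith))
    nlinarith
  have x9 := mul_le_mul_of_nonneg_left x6 (by positivity : 0 ≤ (v - u) ^ 2 / 2)
  rw [hd]
  linarith

lemma B_comb (n : ℕ) (a : Fin n → ℝ) :
    B (∑ j, a j • cosine j) (∑ j, a j • cosine j) ≤ ∑ j, a j ^ 2 := by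
  rw [map_sum B, LinearMap.sum_apply]
  refine Finset.sum_le_sum fun i _ => ?_
  rw [map_smul, LinearMap.smul_apply, map_sum, Finset.sum_eq_single i]
  · rw [map_smul, cos_self, smul_eq_mul, smul_eq_mul]
    split_ifs <;> nlinarith [sq_nonneg (a i)]
  · intro j _ hji
    rw [map_smul, cos_orth i j (fun h => hji (Fin.ext h.symm)), smul_zero]
  · intro h
    exact absurd (Finset.mem_univ i) h

lemma bang (n : ℕ) (b : ℕ → ℝ) (hb : ∀ j, 0 < b j) (hs : ∑ j ∈ Finset.range n, b j ^ 2 ≤ 1) :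
    ∃ F : C(unitInterval, ℝ), ‖F‖ ≤ 1 ∧ ∀ j, j < n → b j / 128 ≤ |B F (cosine j)| := by
  classical
  let sg : Bool → ℝ := fun t => if t then 1 else -1
  have hsg : ∀ t, sg t ^ 2 = 1 := by
    intro t
    cases t <;> simp [sg]
  have hsg' : ∀ t, sg (!t) = - sg t := by
    intro t
    cases t <;> simp [sg]
  let f : (Fin n → Bool) → C(unitInterval, ℝ) := fun ε => ∑ j, (sg (ε j) * b j) • cosine j
  have hf : ∀ ε, ∫ x, f ε x * f ε x ≤ 1 := by
    intro ε
    refine (B_comb n fun j => sg (ε j) * b j).trans ?_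
    simp only [mul_pow, hsg, one_mul]
    rw [← Finset.sum_range (fun j => b j ^ 2)]
    exact hs
  obtain ⟨ε, hε⟩ := Finite.exists_max (fun ε => ∫ x, Real.sqrt (1 + f ε x ^ 2))
  have hpos : ∀ u : ℝ, 0 < Real.sqrt (1 + u ^ 2) := fun u => Real.sqrt_pos.2 (by positivity)
  let F : C(unitInterval, ℝ) := ⟨fun x => f ε x / Real.sqrt (1 + f ε x ^ 2),
    (f ε).continuous.div (by fun_prop) fun x => (hpos _).ne'⟩
  refine ⟨F, (ContinuousMap.norm_le _ zero_le_one).2 fun x => ?_, fun j hj => ?_⟩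
  · change ‖f ε x / Real.sqrt (1 + f ε x ^ 2)‖ ≤ 1
    rw [Real.norm_eq_abs, abs_div, abs_of_pos (hpos _), div_le_one (hpos _)]
    exact Real.abs_le_sqrt (by linarith)
  · obtain ⟨h, hh⟩ : ∃ h, h = -2 * (sg (ε ⟨j, hj⟩) * b j) := ⟨_, rfl⟩
    have h2 : h ^ 2 = 4 * b j ^ 2 := by
      rw [hh, mul_pow, mul_pow, hsg]
      ring
    have hflip : ∀ x, f (Function.update ε ⟨j, hj⟩ (!ε ⟨j, hj⟩)) x = f ε x + h * cosine j x := by
      intro x
      have e1 : f (Function.update ε ⟨j, hj⟩ (!ε ⟨j, hj⟩)) - f ε = h • cosine j := by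
        simp only [f]
        rw [← Finset.sum_sub_distrib, Finset.sum_eq_single ⟨j, hj⟩]
        · rw [Function.update_self, hsg', ← sub_smul, hh]
          congr 1
          ring
        · intro i _ hi
          rw [Function.update_of_ne hi, sub_self]
        · intro h'
          exact absurd (Finset.mem_univ _) h'
      have e2 := congrArg (fun g : C(unitInterval, ℝ) => g x) e1
      simp only [ContinuousMap.sub_apply, ContinuousMap.smul_apply, smul_eq_mul] at e2
      linarith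
    obtain ⟨g, hg⟩ : ∃ g, g = f (Function.update ε ⟨j, hj⟩ (!ε ⟨j, hj⟩)) := ⟨_, rfl⟩
    have k1 := hε (Function.update ε ⟨j, hj⟩ (!ε ⟨j, hj⟩))
    have k2 := hf (Function.update ε ⟨j, hj⟩ (!ε ⟨j, hj⟩))
    have k3 := hf ε
    rw [← hg] at k1 k2 hflip
    have ic : ∀ q : unitInterval → ℝ, Continuous q → Integrable q := fun q hq =>
      hq.integrable_of_hasCompactSupport (HasCompactSupport.of_compactSpace _)
    have k4 : ∫ x, (h * (F x * cosine j x) + h ^ 2 / 2 * (3 / 64 * (cosine j x * cosine j x) -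
        (2 + f ε x * f ε x + g x * g x) / 256)) ≤
        ∫ x, (Real.sqrt (1 + g x ^ 2) - Real.sqrt (1 + f ε x ^ 2)) := by
      refine integral_mono (ic _ (by fun_prop)) (ic _ (by fun_prop)) fun x => ?_
      have e1 := bang_pt (f ε x) h (cosine j x) (Real.cos_sq_le_one _)
      rw [← hflip x] at e1
      have e2 : F x = f ε x / Real.sqrt (1 + f ε x ^ 2) := rfl
      simp only [e2]
      refine le_trans (le_of_eq ?_) e1
      ring
    rw [integral_sub (ic _ (by fun_prop)) (ic _ (by fun_prop)),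
      integral_add (ic _ (by fun_prop)) (ic _ (by fun_prop)), integral_const_mul,
      integral_const_mul, integral_sub (ic _ (by fun_prop)) (ic _ (by fun_prop)),
      integral_const_mul, integral_div,
      integral_add (ic _ (by fun_prop)) (ic _ (by fun_prop)),
      integral_add (ic _ (by fun_prop)) (ic _ (by fun_prop))] at k4
    have k5 : ∫ x, cosine j x * cosine j x = if j = 0 then 1 else 1 / 2 := cos_self j
    have k6 : 1 / 2 ≤ ∫ x, cosine j x * cosine j x := by
      rw [k5]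
      split_ifs <;> norm_num
    have k7 : ∫ _x : unitInterval, (2 : ℝ) = 2 := by simp
    have k8 : ∫ x, F x * cosine j x = B F (cosine j) := rfl
    rw [k7, k8] at k4
    have k9 : h * B F (cosine j) + h ^ 2 / 2 * (1 / 128) ≤ 0 := by
      have e1 : (1 / 128 : ℝ) ≤ 3 / 64 * (∫ x, cosine j x * cosine j x) -
          (2 + (∫ x, f ε x * f ε x) + ∫ x, g x * g x) / 256 := by linarith
      have e2 := mul_le_mul_of_nonneg_left e1 (by positivity : 0 ≤ h ^ 2 / 2)
      linarith
    have k10 : |h| = 2 * b j := by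
      rw [← abs_of_pos (by linarith [hb j] : 0 < 2 * b j), ← sq_eq_sq_iff_abs_eq_abs, h2]
      ring
    have k11 : -(h * B F (cosine j)) ≤ 2 * b j * |B F (cosine j)| := by
      rw [← k10, ← abs_mul]
      exact neg_le_abs _
    have k12 := hb j
    rw [h2] at k9
    by_contra hc
    have k13 := mul_lt_mul_of_pos_left (not_le.1 hc) (by linarith : 0 < 2 * b j)
    nlinarith

/-- Sum of the first `N` partial sums of the cosine series with coefficients `y`. -/
noncomputable def fej (y : ℕ → ℝ) (N : ℕ) : C(unitInterval, ℝ) :=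
  ∑ M ∈ Finset.range N, kw' y (M + 1)
where
  /-- partial sum -/
  kw' (y : ℕ → ℝ) (n : ℕ) : C(unitInterval, ℝ) :=
    ∑ j ∈ Finset.range n, (y j / B (cosine j) (cosine j)) • cosine j

lemma B_fej (y : ℕ → ℝ) (N i : ℕ) : B (fej y N) (cosine i) = ((N - i : ℕ) : ℝ) * y i := by
  have h1 : ∀ n, B (fej.kw' y n) (cosine i) = if i < n then y i else 0 := by
    intro n
    unfold fej.kw'
    rw [map_sum, LinearMap.sum_apply]
    split_ifs with h
    · rw [Finset.sum_eq_single i]
      · rw [map_smul, LinearMap.smul_apply, smul_eq_mul, div_mul_cancel₀ _ (B_pos (cos_ne i)).ne']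
      · intro j _ hji
        rw [map_smul, LinearMap.smul_apply, cos_orth j i hji, smul_zero]
      · intro h'
        exact absurd (Finset.mem_range.2 h) h'
    · refine Finset.sum_eq_zero fun j hj => ?_
      have := Finset.mem_range.1 hj
      rw [map_smul, LinearMap.smul_apply, cos_orth j i (by omega), smul_zero]
  unfold fej
  induction N with
  | zero => simp
  | succ N ih =>
    rw [Finset.sum_range_succ, map_add, LinearMap.add_apply, ih, h1]
    split_ifs with h
    · rw [show N + 1 - i = (N - i) + 1 by omega]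
      push_cast
      ring
    · rw [show N + 1 - i = 0 by omega, show N - i = 0 by omega]
      simp

lemma exists_coeff (b : ℕ → ℝ) (hb : ∀ j, 0 < b j)
    (hs : ∀ n, ∑ j ∈ Finset.range n, b j ^ 2 ≤ 1) :
    ∃ y : ℕ → ℝ, (∀ N : ℕ, ‖fej y N‖ ≤ N) ∧ ∀ j, b j / 128 ≤ |y j| := by
  choose F hF1 hF2 using fun n => bang n b hb (hs n)
  have hc : IsCompact (Set.pi univ fun _ : ℕ => Icc (-1 : ℝ) 1) :=
    isCompact_univ_pi fun _ => isCompact_Icc
  have hm : ∀ n, (fun j => B (F n) (cosine j)) ∈ Set.pi univ fun _ : ℕ => Icc (-1 : ℝ) 1 := by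
    intro n j _
    have h1 := B_le (F n - cosine j)
    have h2 := B_nonneg (F n - cosine j)
    have h3 := B_nonneg (F n + cosine j)
    have h4 := B_le (F n)
    have h5 : B (cosine j) (cosine j) ≤ 1 := by
      rw [cos_self]
      split_ifs <;> norm_num
    have h6 : ‖F n‖ ^ 2 ≤ 1 := pow_le_one₀ (norm_nonneg _) (hF1 n)
    simp only [map_sub, map_add, LinearMap.sub_apply, LinearMap.add_apply] at h2 h3
    rw [B_comm (cosine j) (F n)] at h2 h3
    constructor <;> linarith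
  obtain ⟨y, -, s, hs1, hs2⟩ := hc.tendsto_subseq hm
  have hy : ∀ j, Tendsto (fun n => B (F (s n)) (cosine j)) atTop (𝓝 (y j)) :=
    fun j => tendsto_pi_nhds.1 hs2 j
  refine ⟨y, fun N => (ContinuousMap.norm_le _ (Nat.cast_nonneg N)).2 fun x => ?_, fun j => ?_⟩
  · have h1 : Tendsto (fun n => |∑ M ∈ Finset.range N, proj cosine (M + 1) (F (s n)) x|) atTop
        (𝓝 |fej y N x|) := by
      refine Tendsto.abs ?_
      unfold fej fej.kw' proj
      simp only [ContinuousMap.sum_apply, ContinuousMap.smul_apply, smul_eq_mul]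
      exact tendsto_finsetSum _ fun M _ => tendsto_finsetSum _ fun j _ =>
        ((hy j).div_const _).mul_const _
    refine le_of_tendsto' h1 fun n => (fejer_bound _ x N).trans ?_
    exact mul_le_of_le_one_right (Nat.cast_nonneg N) (hF1 _)
  · refine ge_of_tendsto (hy j).abs ?_
    filter_upwards [eventually_gt_atTop j] with n hn
    exact hF2 _ j (lt_of_lt_of_le hn (hs1.id_le n))

/-- The theorem of de Leeuw, Kahane and Katznelson for the cosine system. -/
lemma big_coeff (a : ℕ → ℝ) (ha : ∀ j, 0 < a j) (hs : Summable fun j => a j ^ 2) :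
    ∃ H : C(unitInterval, ℝ), ∀ j, a j ≤ |B H (cosine j)| := by
  let r : ℕ → ℝ := fun j => ∑' k, a (k + j) ^ 2
  have hr1 : ∀ j, r j = a j ^ 2 + r (j + 1) := by
    intro j
    have h1 : Summable fun k => a (k + j) ^ 2 := (summable_nat_add_iff j).2 hs
    simp only [r]
    rw [h1.tsum_eq_zero_add, zero_add]
    congr 2
    funext k
    rw [show k + 1 + j = k + (j + 1) by omega]
  have hr0 : ∀ j, 0 ≤ r j := fun j => tsum_nonneg fun k => sq_nonneg _
  have hr2 : ∀ j, 0 < r j := fun j => by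
    have := hr0 (j + 1)
    have := pow_pos (ha j) 2
    rw [hr1]
    linarith
  have hr3 : Tendsto r atTop (𝓝 0) := tendsto_sum_nat_add fun j => a j ^ 2
  let t : ℕ → ℝ := fun j => Real.sqrt (Real.sqrt (r j))
  have ht0 : ∀ j, 0 < t j := fun j => Real.sqrt_pos.2 (Real.sqrt_pos.2 (hr2 j))
  have ht4 : ∀ j, (t j ^ 2) ^ 2 = r j := fun j => by
    simp only [t]
    rw [Real.sq_sqrt (Real.sqrt_nonneg _), Real.sq_sqrt (hr0 j)]
  have htm : ∀ j, t (j + 1) ≤ t j := fun j => by
    refine Real.sqrt_le_sqrt (Real.sqrt_le_sqrt ?_)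
    have := sq_nonneg (a j)
    rw [hr1 j]
    linarith
  have ht3 : Tendsto t atTop (𝓝 0) := by
    have h := hr3.sqrt.sqrt
    simpa using h
  let b : ℕ → ℝ := fun j => a j / (t j * (2 * t 0))
  have hb0 : ∀ j, 0 < b j := fun j => div_pos (ha j) (mul_pos (ht0 j) (by linarith [ht0 0]))
  have hb1 : ∀ j, b j ^ 2 ≤ (t j ^ 2 - t (j + 1) ^ 2) / t 0 ^ 2 := by
    intro j
    have h1 := ht0 j
    have h2 := ht0 0
    have h3 := ht0 (j + 1)
    have h4 : t (j + 1) ^ 2 ≤ t j ^ 2 := pow_le_pow_left₀ h3.le (htm j) 2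
    have h5 : a j ^ 2 = (t j ^ 2) ^ 2 - (t (j + 1) ^ 2) ^ 2 := by
      rw [ht4, ht4, hr1 j]
      ring
    simp only [b]
    rw [div_pow, div_le_div_iff₀ (by positivity) (by positivity), h5]
    have h6 : 0 ≤ (t j ^ 2 - t (j + 1) ^ 2) * (3 * t j ^ 2 - t (j + 1) ^ 2) * t 0 ^ 2 :=
      mul_nonneg (mul_nonneg (by linarith) (by nlinarith)) (sq_nonneg _)
    nlinarith
  have hb2 : ∀ n, ∑ j ∈ Finset.range n, b j ^ 2 ≤ 1 := by
    intro n
    refine (Finset.sum_le_sum fun j _ => hb1 j).trans ?_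
    rw [← Finset.sum_div, Finset.sum_range_sub' (fun j => t j ^ 2),
      div_le_one (pow_pos (ht0 0) 2)]
    nlinarith [sq_nonneg (t n)]
  obtain ⟨y, hy1, hy2⟩ := exists_coeff b hb0 hb2
  let u : ℕ → C(unitInterval, ℝ) := fun k =>
    ((t k - t (k + 1)) / ((2 * k + 2 : ℕ) : ℝ)) • fej y (2 * k + 2)
  have hsum : Summable fun k => t k - t (k + 1) := by
    refine summable_of_sum_range_le (c := t 0) (fun k => sub_nonneg.2 (htm k)) fun n => ?_
    rw [Finset.sum_range_sub' t]
    linarith [ht0 n]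
  have hu : Summable u := by
    refine Summable.of_norm_bounded hsum fun k => ?_
    have h1 : (0 : ℝ) < ((2 * k + 2 : ℕ) : ℝ) := by positivity
    have h2 := sub_nonneg.2 (htm k)
    simp only [u]
    rw [norm_smul, Real.norm_of_nonneg (div_nonneg h2 h1.le)]
    calc _ ≤ (t k - t (k + 1)) / ((2 * k + 2 : ℕ) : ℝ) * ((2 * k + 2 : ℕ) : ℝ) :=
          mul_le_mul_of_nonneg_left (hy1 _) (div_nonneg h2 h1.le)
      _ = t k - t (k + 1) := div_mul_cancel₀ _ h1.ne'
  refine ⟨(512 * t 0) • ∑' k, u k, fun j => ?_⟩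
  have h1 := (((B_cont (cosine j)).tendsto _).comp hu.hasSum.tendsto_sum_nat).abs
  have h2 : Tendsto (fun n => (t j - t n) / 2 * |y j|) atTop (𝓝 ((t j - 0) / 2 * |y j|)) :=
    ((tendsto_const_nhds.sub ht3).div_const _).mul_const _
  have h3 : (t j - 0) / 2 * |y j| ≤ |B (∑' k, u k) (cosine j)| := by
    refine le_of_tendsto_of_tendsto h2 h1 ?_
    filter_upwards [eventually_ge_atTop j] with n hn
    have e1 : B (∑ k ∈ Finset.range n, u k) (cosine j) = (∑ k ∈ Finset.range n,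
        (t k - t (k + 1)) / ((2 * k + 2 : ℕ) : ℝ) * ((2 * k + 2 - j : ℕ) : ℝ)) * y j := by
      rw [map_sum, LinearMap.sum_apply, Finset.sum_mul]
      refine Finset.sum_congr rfl fun k _ => ?_
      simp only [u]
      rw [map_smul, LinearMap.smul_apply, B_fej, smul_eq_mul, mul_assoc]
    have e2 : (t j - t n) / 2 ≤ ∑ k ∈ Finset.range n,
        (t k - t (k + 1)) / ((2 * k + 2 : ℕ) : ℝ) * ((2 * k + 2 - j : ℕ) : ℝ) := by
      have e3 : t j - t n = ∑ k ∈ Finset.Ico j n, (t k - t (k + 1)) := by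
        rw [Finset.sum_Ico_eq_sub _ hn, Finset.sum_range_sub' t, Finset.sum_range_sub' t]
        ring
      rw [e3, Finset.sum_div, ← Finset.sum_range_add_sum_Ico _ hn]
      refine le_add_of_nonneg_of_le (Finset.sum_nonneg fun k _ => ?_)
        (Finset.sum_le_sum fun k hk => ?_)
      · have := sub_nonneg.2 (htm k)
        positivity
      · have e4 := (Finset.mem_Ico.1 hk).1
        have e5 := sub_nonneg.2 (htm k)
        have e6 : ((2 * k + 2 : ℕ) : ℝ) ≤ 2 * ((2 * k + 2 - j : ℕ) : ℝ) := by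
          have : 2 * k + 2 ≤ 2 * (2 * k + 2 - j) := by omega
          exact_mod_cast this
        rw [div_mul_eq_mul_div, div_le_div_iff₀ (by norm_num) (by positivity)]
        nlinarith
    rw [Function.comp_apply, e1, abs_mul]
    exact mul_le_mul_of_nonneg_right (e2.trans (le_abs_self _)) (abs_nonneg _)
  rw [map_smul, LinearMap.smul_apply, smul_eq_mul, abs_mul, abs_of_pos (by linarith [ht0 0])]
  have h4 := hy2 j
  have h5 : a j = 512 * t 0 * (t j / 2 * (b j / 128)) := by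
    have := (ht0 j).ne'
    have := (ht0 0).ne'
    simp only [b]
    field_simp
    ring
  rw [h5]
  refine mul_le_mul_of_nonneg_left ?_ (by linarith [ht0 0])
  rw [sub_zero] at h3
  exact (mul_le_mul_of_nonneg_left h4 (by linarith [ht0 j])).trans h3

end Pool.Agent.Lib.MP_ae49d3_an.H39Win
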