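import Mathlib
import Pool.Agent.Lib.MP_ae49d3_an.H39WinB
import Pool.Agent.Lib.MP_ae49d3_an.H39WinDefs2

namespace Pool.Agent.Lib.MP_ae49d3_an.H39Win

open MeasureTheory Set Topology Pool.Agent.Results.MP_ae49d3_an.OneStepShift
open Filter hiding ker

lemma abel_bound (α u : ℕ → ℝ) (hα : Antitone α) (D : ℝ)
    (hu : ∀ n : ℕ, |∑ N ∈ Finset.range n, u N| ≤ n * D) (M : ℕ) :
    ∀ t, t ≤ α M → |∑ N ∈ Finset.range (M + 1), (α N - t) * u N| ≤
      (∑ N ∈ Finset.range (M + 1), (α N - t)) * D := by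
  have key : ∀ (M : ℕ) (t : ℝ), t ≤ α M →
      |∑ N ∈ Finset.range M, (α N - α M) * u N| ≤ (∑ N ∈ Finset.range M, (α N - α M)) * D →
      |∑ N ∈ Finset.range (M + 1), (α N - t) * u N| ≤
        (∑ N ∈ Finset.range (M + 1), (α N - t)) * D := by
    intro M t ht h
    have e1 : ∑ N ∈ Finset.range (M + 1), (α N - t) * u N =
        ∑ N ∈ Finset.range M, (α N - α M) * u N +
          (α M - t) * ∑ N ∈ Finset.range (M + 1), u N := by
      have e : ∑ N ∈ Finset.range M, (α N - α M) * u N =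
          ∑ N ∈ Finset.range (M + 1), (α N - α M) * u N := by
        rw [Finset.sum_range_succ, sub_self, zero_mul, add_zero]
      rw [e, Finset.mul_sum, ← Finset.sum_add_distrib]
      exact Finset.sum_congr rfl fun N _ => by ring
    have e2 : ∑ N ∈ Finset.range (M + 1), (α N - t) =
        ∑ N ∈ Finset.range M, (α N - α M) + (α M - t) * ((M + 1 : ℕ) : ℝ) := by
      rw [Finset.sum_range_succ, Finset.sum_sub_distrib, Finset.sum_sub_distrib]
      simp only [Finset.sum_const, Finset.card_range, nsmul_eq_mul]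
      push_cast
      ring
    rw [e1, e2, add_mul]
    refine (abs_add_le _ _).trans (add_le_add h ?_)
    rw [abs_mul, abs_of_nonneg (sub_nonneg.2 ht), mul_assoc]
    exact mul_le_mul_of_nonneg_left (hu _) (sub_nonneg.2 ht)
  induction M with
  | zero => exact fun t ht => key 0 t ht (by simp)
  | succ M ih => exact fun t ht => key (M + 1) t ht (ih _ (hα (Nat.le_succ M)))

lemma band_count {c : ℕ → ℝ} (hc : Monotone c) (h0 : 0 < c 0) {γ : ℕ → ℕ}
    {K : ℝ} (hK : ∀ n, (γ n : ℝ) ≤ K * c n) (n j : ℕ) :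
    ∑ N ∈ (Finset.range n).filter (fun N => N < j + γ j ∧ j ≤ N + γ N), 1 / c N ≤ 2 * K := by
  have hp : ∀ n, 0 < c n := fun n => lt_of_lt_of_le h0 (hc (Nat.zero_le n))
  have hK0 : 0 ≤ K := by
    by_contra h
    have h1 := mul_neg_of_neg_of_pos (not_le.1 h) h0
    have h2 := hK 0
    have h3 : (0 : ℝ) ≤ γ 0 := Nat.cast_nonneg _
    linarith
  have key : ∀ (T : Finset ℕ) (a : ℕ), (∀ N ∈ T, a ≤ N ∧ N < a + γ a) →
      ∑ N ∈ T, 1 / c N ≤ K := by
    intro T a hT
    have h1 : ∑ N ∈ T, 1 / c N ≤ ∑ _N ∈ T, 1 / c a :=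
      Finset.sum_le_sum fun N hN => one_div_le_one_div_of_le (hp a) (hc (hT N hN).1)
    have h2 : T.card ≤ γ a := by
      have h3 : T ⊆ Finset.Ico a (a + γ a) := fun N hN => Finset.mem_Ico.2 (hT N hN)
      have h4 := Finset.card_le_card h3
      rwa [Nat.card_Ico, Nat.add_sub_cancel_left] at h4
    have h5 : (T.card : ℝ) ≤ K * c a := le_trans (by exact_mod_cast h2) (hK a)
    rw [Finset.sum_const, nsmul_eq_mul] at h1
    refine h1.trans ?_
    rw [mul_one_div, div_le_iff₀ (hp a)]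
    exact h5
  rw [← Finset.sum_filter_add_sum_filter_not _ (fun N => j ≤ N), two_mul]
  refine add_le_add (key _ j fun N hN => ?_) ?_
  · simp only [Finset.mem_filter] at hN
    exact ⟨hN.2, hN.1.2.1⟩
  · by_cases hex : ∃ N, j ≤ N + γ N
    · refine key _ (Nat.find hex) fun N hN => ?_
      simp only [Finset.mem_filter] at hN
      have h1 := Nat.find_min' hex hN.1.2.2
      have h2 := Nat.find_spec hex
      have h3 := hN.2
      omega
    · rw [Finset.sum_eq_zero]
      · exact hK0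
      · intro N hN
        simp only [Finset.mem_filter] at hN
        exact absurd ⟨N, hN.1.2.2⟩ hex

lemma riesz_err {φ : ℕ → C(unitInterval, ℝ)} (ho : ∀ m n, m ≠ n → B (φ m) (φ n) = 0)
    (hn : ∀ n, φ n ≠ 0) {c : ℕ → ℝ} (hc : Monotone c) (h0 : 0 < c 0) {γ : ℕ → ℕ}
    (hγ : Monotone γ) {K : ℝ} (hK : ∀ n, (γ n : ℝ) ≤ K * c n)
    (h1 : ∀ j, φ j ∈ Submodule.span ℝ (cosine '' Iio (j + γ j + 1)))
    (h2 : ∀ j, cosine j ∈ Submodule.span ℝ (φ '' Iio (j + γ j + 1)))
    (f : C(unitInterval, ℝ)) (x : unitInterval) (n : ℕ) :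
    ∑ N ∈ Finset.range n, 1 / c N ^ 2 * (proj φ (N + 1) f x - proj cosine (N + 1) f x) ^ 2 ≤
      32 * K ^ 2 * ‖f‖ ^ 2 := by
  have hp : ∀ n, 0 < c n := fun n => lt_of_lt_of_le h0 (hc (Nat.zero_le n))
  have hK0 : 0 ≤ K := by
    by_contra h
    have h1 := mul_neg_of_neg_of_pos (not_le.1 h) h0
    have h2 := hK 0
    have h3 : (0 : ℝ) ≤ γ 0 := Nat.cast_nonneg _
    linarith
  obtain ⟨y, hyd⟩ : ∃ y : ℕ → ℝ, y = fun j => B f (cosine j) ^ 2 / B (cosine j) (cosine j) :=
    ⟨_, rfl⟩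
  have hy : ∀ j, 0 ≤ y j := fun j => by
    rw [hyd]
    exact div_nonneg (sq_nonneg _) (B_nonneg _)
  have h3 : ∀ N ∈ Finset.range n,
      1 / c N ^ 2 * (proj φ (N + 1) f x - proj cosine (N + 1) f x) ^ 2 ≤
      16 * K * ∑ j ∈ Finset.range (n + γ n),
        if N < j + γ j ∧ j ≤ N + γ N then 1 / c N * y j else 0 := by
    intro N hN
    have hN' := Finset.mem_range.1 hN
    have hex : ∃ j, N < j + γ j := ⟨N + 1, by omega⟩
    obtain ⟨m, m1, m2⟩ : ∃ m, N < m + γ m ∧ ∀ j, j < m → j + γ j ≤ N :=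
      ⟨Nat.find hex, Nat.find_spec hex, fun j hj => not_lt.1 (Nat.find_min hex hj)⟩
    have m3 : m ≤ N + 1 := by
      by_contra h
      have := m2 (N + 1) (by omega)
      omega
    have m4 : N + 1 + γ N - m ≤ 2 * γ N := by
      by_cases h : m ≤ N
      · have := hγ h
        omega
      · omega
    have k1 := band_diff ho hn (m := m) (N := N + 1) (M := N + 1 + γ N) (by omega)
      (by
        rw [Submodule.span_le]
        rintro _ ⟨j, hj, rfl⟩
        have := m2 j hj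
        exact span_mono φ (by omega) (h2 j))
      (by
        rw [Submodule.span_le]
        rintro _ ⟨j, hj, rfl⟩
        have hj' : j < N + 1 := hj
        have := hγ (Nat.lt_succ_iff.1 hj')
        exact span_mono cosine (by omega) (h1 j)) f x
    have k2 := band_diff cos_orth cos_ne (m := m) (N := N + 1) (M := N + 1 + γ N) (by omega)
      (span_mono cosine (by omega)) (span_mono cosine (by omega)) f x
    have k0 : ∑ j ∈ Finset.Ico m (N + 1 + γ N), B f (cosine j) ^ 2 / B (cosine j) (cosine j) =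
        ∑ j ∈ Finset.Ico m (N + 1 + γ N), y j := by rw [hyd]
    rw [k0] at k1 k2
    have k3 : ((N + 1 + γ N - m : ℕ) : ℝ) ≤ 2 * (K * c N) := by
      have e1 : ((N + 1 + γ N - m : ℕ) : ℝ) ≤ 2 * γ N := by exact_mod_cast m4
      linarith [hK N]
    have k4 : 0 ≤ ∑ j ∈ Finset.Ico m (N + 1 + γ N), y j := Finset.sum_nonneg fun j _ => hy j
    have k5 := mul_le_mul_of_nonneg_right k3 k4
    have k6 : (proj φ (N + 1) f x - proj cosine (N + 1) f x) ^ 2 ≤
        16 * (K * c N) * ∑ j ∈ Finset.Ico m (N + 1 + γ N), y j := by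
      nlinarith [sq_nonneg ((proj φ (N + 1) f x - proj cosine m f x) +
        (proj cosine (N + 1) f x - proj cosine m f x))]
    have k7 : 1 / c N * ∑ j ∈ Finset.Ico m (N + 1 + γ N), y j ≤ ∑ j ∈ Finset.range (n + γ n),
        if N < j + γ j ∧ j ≤ N + γ N then 1 / c N * y j else 0 := by
      rw [← Finset.sum_filter, Finset.mul_sum]
      refine Finset.sum_le_sum_of_subset_of_nonneg (fun j hj => ?_)
        fun j _ _ => mul_nonneg (one_div_pos.2 (hp N)).le (hy j)
      have e1 := Finset.mem_Ico.1 hj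
      have e2 := hγ e1.1
      have e3 := hγ hN'.le
      simp only [Finset.mem_filter, Finset.mem_range]
      omega
    have k8 := hp N
    calc 1 / c N ^ 2 * (proj φ (N + 1) f x - proj cosine (N + 1) f x) ^ 2
        ≤ 1 / c N ^ 2 * (16 * (K * c N) * ∑ j ∈ Finset.Ico m (N + 1 + γ N), y j) :=
          mul_le_mul_of_nonneg_left k6 (by positivity)
      _ = 16 * K * (1 / c N * ∑ j ∈ Finset.Ico m (N + 1 + γ N), y j) := by
          field_simp
      _ ≤ _ := mul_le_mul_of_nonneg_left k7 (by positivity)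
  refine (Finset.sum_le_sum h3).trans ?_
  rw [← Finset.mul_sum, Finset.sum_comm]
  have h4 : ∑ j ∈ Finset.range (n + γ n), ∑ N ∈ Finset.range n,
      (if N < j + γ j ∧ j ≤ N + γ N then 1 / c N * y j else 0) ≤
      ∑ j ∈ Finset.range (n + γ n), 2 * K * y j := by
    refine Finset.sum_le_sum fun j _ => ?_
    rw [← Finset.sum_filter, ← Finset.sum_mul]
    exact mul_le_mul_of_nonneg_right (band_count hc h0 hK n j) (hy j)
  have h5 : ∑ j ∈ Finset.range (n + γ n), y j ≤ ‖f‖ ^ 2 := by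
    rw [hyd]
    exact bessel cos_orth cos_ne (n + γ n) f
  rw [← Finset.mul_sum] at h4
  have h6 := h4.trans (mul_le_mul_of_nonneg_left h5 (by positivity))
  refine (mul_le_mul_of_nonneg_left h6 (by positivity)).trans (le_of_eq ?_)
  ring

lemma riesz_bound {φ : ℕ → C(unitInterval, ℝ)} (ho : ∀ m n, m ≠ n → B (φ m) (φ n) = 0)
    (hn : ∀ n, φ n ≠ 0) {c : ℕ → ℝ} (hc : Monotone c) (h0 : 0 < c 0) {K : ℝ}
    (hw : InWindow φ fun n => K * c n) (m : ℕ) (f : C(unitInterval, ℝ)) :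
    ‖(∑ N ∈ Finset.range (m + 1), 1 / c N ^ 2)⁻¹ •
      ∑ N ∈ Finset.range (m + 1), (1 / c N ^ 2) • proj φ (N + 1) f‖ ≤
      (1 + 6 * |K| * c 0) * ‖f‖ := by
  have hp : ∀ n, 0 < c n := fun n => lt_of_lt_of_le h0 (hc (Nat.zero_le n))
  let γ : ℕ → ℕ := fun n => ⌊|K| * c n⌋₊
  have hγ : Monotone γ := fun a b h =>
    Nat.floor_mono (mul_le_mul_of_nonneg_left (hc h) (abs_nonneg K))
  have hK : ∀ n, (γ n : ℝ) ≤ |K| * c n := fun n =>
    Nat.floor_le (mul_nonneg (abs_nonneg K) (hp n).le)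
  have hsub : ∀ j : ℕ, {i : ℕ | (i : ℝ) ≤ j + K * c j} ⊆ Iio (j + γ j + 1) := by
    intro j i hi
    have h1 : (i : ℝ) ≤ j + K * c j := hi
    have h5 : K * c j ≤ |K| * c j := mul_le_mul_of_nonneg_right (le_abs_self K) (hp j).le
    have h6 : |K| * c j < γ j + 1 := Nat.lt_floor_add_one _
    have h7 : (i : ℝ) < ((j + γ j + 1 : ℕ) : ℝ) := by
      push_cast
      linarith
    exact_mod_cast h7
  obtain ⟨A, hA⟩ : ∃ A, A = ∑ N ∈ Finset.range (m + 1), 1 / c N ^ 2 := ⟨_, rfl⟩
  have hA1 : 1 / c 0 ^ 2 ≤ A := by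
    rw [hA]
    exact Finset.single_le_sum (f := fun N => 1 / c N ^ 2) (fun N _ => by positivity)
      (Finset.mem_range.2 (Nat.succ_pos m))
  have hA0 : 0 < A := lt_of_lt_of_le (by positivity) hA1
  have hA2 : 1 ≤ A * c 0 ^ 2 := by
    rwa [div_le_iff₀ (by positivity)] at hA1
  rw [← hA]
  refine (ContinuousMap.norm_le _ (by positivity)).2 fun x => ?_
  have k1 := riesz_err ho hn hc h0 hγ hK
    (fun j => Submodule.span_mono (image_mono (hsub j)) (hw j).1)
    (fun j => Submodule.span_mono (image_mono (hsub j)) (hw j).2) f x (m + 1)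
  have k2 := abel_bound (fun N => 1 / c N ^ 2) (fun N => proj cosine (N + 1) f x)
    (fun a b h => one_div_le_one_div_of_le (pow_pos (hp a) 2)
      (pow_le_pow_left₀ (hp a).le (hc h) 2)) ‖f‖ (fejer_bound f x) m 0 (by positivity)
  simp only [sub_zero] at k2
  rw [← hA] at k2
  have k3 : (∑ N ∈ Finset.range (m + 1),
      1 / c N ^ 2 * (proj φ (N + 1) f x - proj cosine (N + 1) f x)) ^ 2 ≤
      A * (32 * |K| ^ 2 * ‖f‖ ^ 2) := by
    have e1 := Finset.sum_mul_sq_le_sq_mul_sq (Finset.range (m + 1)) (fun N => 1 / c N)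
      (fun N => 1 / c N * (proj φ (N + 1) f x - proj cosine (N + 1) f x))
    have e2 : ∑ N ∈ Finset.range (m + 1), (1 / c N) ^ 2 = A := by
      rw [hA]
      exact Finset.sum_congr rfl fun N _ => by ring
    have e3 : ∑ N ∈ Finset.range (m + 1),
        (1 / c N * (proj φ (N + 1) f x - proj cosine (N + 1) f x)) ^ 2 =
        ∑ N ∈ Finset.range (m + 1),
          1 / c N ^ 2 * (proj φ (N + 1) f x - proj cosine (N + 1) f x) ^ 2 :=
      Finset.sum_congr rfl fun N _ => by ring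
    have e4 : ∑ N ∈ Finset.range (m + 1),
        1 / c N * (1 / c N * (proj φ (N + 1) f x - proj cosine (N + 1) f x)) =
        ∑ N ∈ Finset.range (m + 1),
          1 / c N ^ 2 * (proj φ (N + 1) f x - proj cosine (N + 1) f x) :=
      Finset.sum_congr rfl fun N _ => by ring
    rw [e2, e3, e4] at e1
    exact e1.trans (mul_le_mul_of_nonneg_left k1 hA0.le)
  have k4 : |∑ N ∈ Finset.range (m + 1),
      1 / c N ^ 2 * (proj φ (N + 1) f x - proj cosine (N + 1) f x)| ≤
      A * (6 * |K| * c 0 * ‖f‖) := by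
    refine abs_le_of_sq_le_sq' ?_ (by positivity) |> abs_le.2
    refine k3.trans ?_
    have e1 : 0 ≤ |K| ^ 2 * ‖f‖ ^ 2 := by positivity
    have e2 : 32 * |K| ^ 2 * ‖f‖ ^ 2 ≤ (A * c 0 ^ 2) * (36 * (|K| ^ 2 * ‖f‖ ^ 2)) := by
      nlinarith
    refine (mul_le_mul_of_nonneg_left e2 hA0.le).trans (le_of_eq ?_)
    ring
  simp only [mul_sub] at k4
  rw [Finset.sum_sub_distrib] at k4
  rw [ContinuousMap.smul_apply, ContinuousMap.sum_apply, smul_eq_mul, Real.norm_eq_abs, abs_mul,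
    abs_of_pos (inv_pos.2 hA0), inv_mul_le_iff₀ hA0]
  simp only [ContinuousMap.smul_apply, smul_eq_mul]
  rw [abs_le] at k2 k4 ⊢
  constructor <;> nlinarith [k2.1, k2.2, k4.1, k4.2]

theorem positive' {φ : ℕ → C(unitInterval, ℝ)} (hφ : ClosedOrthogonal φ) {c : ℕ → ℝ}
    (hc : Monotone c) (h0 : 0 < c 0) {K : ℝ} (hw : InWindow φ fun n => K * c n)
    (hs : ¬ Summable fun n => 1 / c n ^ 2) (f : C(unitInterval, ℝ)) :
    UniformlySummable φ (fun m N => if N ≤ m then
      (∑ N ∈ Finset.range (m + 1), 1 / c N ^ 2)⁻¹ * (1 / c N ^ 2) else 0) f := by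
  obtain ⟨ho, hn, hd⟩ := hφ
  have hp : ∀ n, 0 < c n := fun n => lt_of_lt_of_le h0 (hc (Nat.zero_le n))
  let A : ℕ → ℝ := fun m => ∑ N ∈ Finset.range (m + 1), 1 / c N ^ 2
  have hA : Tendsto A atTop atTop :=
    ((not_summable_iff_tendsto_nat_atTop_of_nonneg fun n => by positivity).1 hs).comp
      (tendsto_add_atTop_nat 1)
  have hA0 : ∀ m, 0 < A m := fun m =>
    Finset.sum_pos (fun N _ => one_div_pos.2 (pow_pos (hp N) 2)) ⟨0, by simp⟩
  let T : ℕ → C(unitInterval, ℝ) → C(unitInterval, ℝ) := fun m g =>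
    (A m)⁻¹ • ∑ N ∈ Finset.range (m + 1), (1 / c N ^ 2) • proj φ (N + 1) g
  have hT : Tendsto (fun m => T m f) atTop (𝓝 f) := by
    rw [Metric.tendsto_nhds]
    intro ε hε
    have hK : 0 < 2 + 6 * |K| * c 0 := by positivity
    obtain ⟨g, hg, hfg⟩ := hd.exists_dist_lt f (ε := ε / 2 / (2 + 6 * |K| * c 0)) (by positivity)
    obtain ⟨n, hgn⟩ := exists_level φ hg
    have h2 : Tendsto (fun m => T m g - g) atTop (𝓝 0) := by
      have e1 := hA.inv_tendsto_atTop.smul_const
        (∑ N ∈ Finset.range n, (1 / c N ^ 2) • (proj φ (N + 1) g - g))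
      rw [zero_smul] at e1
      refine e1.congr' ?_
      filter_upwards [eventually_ge_atTop n] with m hm
      have e2 : ∑ N ∈ Finset.range n, (1 / c N ^ 2) • (proj φ (N + 1) g - g) =
          ∑ N ∈ Finset.range (m + 1), (1 / c N ^ 2) • (proj φ (N + 1) g - g) := by
        refine Finset.sum_subset (Finset.range_mono (by omega)) fun N _ hN => ?_
        rw [proj_eq ho hn (N + 1) (span_mono φ (by simp at hN; omega) hgn), sub_self, smul_zero]
      rw [e2]
      simp only [T, smul_sub, Finset.sum_sub_distrib, Pi.inv_apply]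
      rw [← Finset.sum_smul, smul_smul, inv_mul_cancel₀ (hA0 m).ne', one_smul]
    filter_upwards [(Metric.tendsto_nhds.1 h2) (ε / 2) (by positivity)] with m hm
    have h3 : T m f - f = T m (f - g) + (T m g - g) - (f - g) := by
      simp only [T, proj_sub, Finset.sum_sub_distrib, smul_sub]
      abel
    have h4 : ‖T m (f - g)‖ ≤ (1 + 6 * |K| * c 0) * ‖f - g‖ :=
      riesz_bound ho hn hc h0 hw m (f - g)
    rw [dist_zero_right] at hm
    rw [dist_eq_norm] at hfg ⊢
    rw [h3]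
    have h5 := norm_sub_le (T m (f - g) + (T m g - g)) (f - g)
    have h6 := norm_add_le (T m (f - g)) (T m g - g)
    rw [lt_div_iff₀ hK] at hfg
    nlinarith
  refine ⟨fun m x => T m f x, fun m => ?_, ContinuousMap.tendsto_iff_tendstoUniformly.1 hT⟩
  rw [Metric.tendstoUniformly_iff]
  intro ε hε
  filter_upwards [eventually_ge_atTop (m + 1)] with K hK x
  have h1 : ∑ N ∈ Finset.range K, (if N ≤ m then
      (∑ N ∈ Finset.range (m + 1), 1 / c N ^ 2)⁻¹ * (1 / c N ^ 2) else 0) *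
        partialSum φ f N x = T m f x := by
    simp only [T, ContinuousMap.smul_apply, ContinuousMap.sum_apply, smul_eq_mul, Finset.mul_sum]
    rw [← Finset.sum_range_add_sum_Ico _ hK, Finset.sum_eq_zero (s := Finset.Ico (m + 1) K),
      add_zero]
    · refine Finset.sum_congr rfl fun N hN => ?_
      rw [if_pos (Nat.lt_succ_iff.1 (Finset.mem_range.1 hN)), partialSum_eq, mul_assoc]
    · intro N hN
      have := (Finset.mem_Ico.1 hN).1
      rw [if_neg (by omega), zero_mul]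
  rw [h1, dist_self]
  exact hε

end Pool.Agent.Lib.MP_ae49d3_an.H39Win
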