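import Mathlib
import Pool.Agent.Lib.MP_ae49d3_an.H39WinE
import Pool.Agent.Lib.MP_ae49d3_an.H39WinF
import Pool.Agent.Lib.MP_ae49d3_an.H39WinDefs2

namespace Pool.Agent.Lib.MP_ae49d3_an.H39Win

open MeasureTheory Set Topology Pool.Agent.Results.MP_ae49d3_an.OneStepShift
open Filter hiding ker

lemma tent_mem (x : unitInterval) : 1 - |1 - 2 * (x : ℝ)| ∈ unitInterval := by
  have h1 := x.2.1
  have h2 := x.2.2
  have h3 : |1 - 2 * (x : ℝ)| ≤ 1 := abs_le.2 ⟨by linarith, by linarith⟩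
  have h4 := abs_nonneg (1 - 2 * (x : ℝ))
  exact ⟨by linarith, by linarith⟩

/-- The tent map of the unit interval. -/
noncomputable def tent : C(unitInterval, unitInterval) :=
  ⟨fun x => ⟨1 - |1 - 2 * (x : ℝ)|, tent_mem x⟩, Continuous.subtype_mk (by fun_prop) tent_mem⟩

lemma cos_tent (j : ℕ) : (cosine j).comp tent = cosine (2 * j) := by
  ext x
  rw [ContinuousMap.comp_apply, cosine_apply, cosine_apply]
  have h : ((tent x : unitInterval) : ℝ) = 1 - |1 - 2 * (x : ℝ)| := rfl
  rw [h]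
  push_cast
  rcases abs_cases (1 - 2 * (x : ℝ)) with h1 | h1
  · rw [h1.1]
    congr 1
    ring
  · rw [h1.1, ← Real.cos_nat_mul_two_pi_sub _ j]
    congr 1
    ring

lemma B_tent (k : ℕ) (H : C(unitInterval, ℝ)) :
    B (H.comp tent) (cosine k) = if k % 2 = 0 then B H (cosine (k / 2)) else 0 := by
  have h1 : Continuous fun H : C(unitInterval, ℝ) => B (H.comp tent) (cosine k) :=
    (B_cont _).comp (ContinuousMap.continuous_precomp tent)
  have h2 : Continuous fun H : C(unitInterval, ℝ) =>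
      if k % 2 = 0 then B H (cosine (k / 2)) else 0 := by
    split_ifs
    · exact B_cont _
    · exact continuous_const
  refine congrFun (Continuous.ext_on cos_dense h1 h2 fun q hq => ?_) H
  induction hq using Submodule.span_induction with
  | mem x hx =>
    obtain ⟨j, rfl⟩ := hx
    simp only [cos_tent]
    by_cases h : k = 2 * j
    · have e1 : k / 2 = j := by omega
      rw [if_pos (by omega), e1, h, cos_self, cos_self]
      by_cases h' : j = 0
      · rw [if_pos h', if_pos (by omega)]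
      · rw [if_neg h', if_neg (by omega)]
    · rw [cos_orth _ _ (Ne.symm h)]
      split_ifs with h'
      · rw [cos_orth _ _ (by omega)]
      · rfl
  | zero => simp
  | add x y _ _ hx hy =>
    simp only [ContinuousMap.add_comp, map_add, LinearMap.add_apply] at hx hy ⊢
    rw [hx, hy]
    split_ifs <;> simp
  | smul a x _ hx =>
    simp only [ContinuousMap.smul_comp, map_smul, LinearMap.smul_apply] at hx ⊢
    rw [hx]
    split_ifs <;> simp

lemma B_mul (p G q : C(unitInterval, ℝ)) : B (p * G) q = B G (p * q) := by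
  simp only [B_apply, ip, ContinuousMap.mul_apply]
  congr 1
  funext x
  ring

lemma dirichlet (n : ℕ) :
    (1 - cosine 1) * ker cosine 0 (Finset.range (n + 1)) = cosine n - cosine (n + 1) := by
  induction n with
  | zero =>
    unfold ker
    rw [Finset.sum_range_one, cos_self, if_pos rfl, cosine_zero]
    simp
  | succ n ih =>
    have h : ker cosine 0 (Finset.range (n + 1 + 1)) =
        ker cosine 0 (Finset.range (n + 1)) + (2 : ℝ) • cosine (n + 1) := by
      unfold ker
      rw [Finset.sum_range_succ _ (n + 1), cos_self, if_neg (Nat.succ_ne_zero n), cosine_at_zero]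
      norm_num
    have h2 := cos_mul (n + 1) 1 (by omega)
    rw [Nat.add_sub_cancel] at h2
    rw [h, mul_add, ih, mul_smul_comm, sub_mul, one_mul, mul_comm (cosine 1), h2]
    module

lemma exists_f (a : ℕ → ℝ) (ha : ∀ j, 0 < a j) (hs : Summable fun j => a j ^ 2) :
    ∃ f : C(unitInterval, ℝ), f 0 = 1 ∧ (∀ j, 1 ≤ j → a j ≤ |B f (cosine (4 * j))|) ∧
      ∀ M, B f (ker cosine 0 (Finset.range (4 * M + 2))) = 1 := by
  obtain ⟨H, hH⟩ := big_coeff a ha hs
  obtain ⟨G, hG⟩ : ∃ G, G = (H.comp tent).comp tent := ⟨_, rfl⟩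
  have g1 : ∀ k, k % 4 ≠ 0 → B G (cosine k) = 0 := by
    intro k hk
    rw [hG, B_tent]
    split_ifs with h
    · rw [B_tent, if_neg (by omega)]
    · rfl
  have g2 : ∀ j, B G (cosine (4 * j)) = B H (cosine j) := by
    intro j
    rw [hG, B_tent, if_pos (by omega), B_tent, if_pos (by omega),
      show 4 * j / 2 / 2 = j by omega]
  refine ⟨1 + (1 - cosine 1) * G, by simp [cosine_at_zero], fun j hj => ?_, fun M => ?_⟩
  · have h1 : B 1 (cosine (4 * j)) = 0 := by
      rw [← cosine_zero]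
      exact cos_orth _ _ (by omega)
    rw [map_add, LinearMap.add_apply, h1, B_mul, sub_mul, one_mul, mul_comm (cosine 1),
      cos_mul (4 * j) 1 (by omega), map_sub, map_smul, map_add, g1 (4 * j - 1) (by omega),
      g1 (4 * j + 1) (by omega), g2]
    simpa using hH j
  · have h1 : B 1 (ker cosine 0 (Finset.range (4 * M + 2))) = 1 := by
      rw [← cosine_zero, B_ker cos_orth cos_ne, if_pos (Finset.mem_range.2 (by omega)),
        cosine_at_zero]
    rw [map_add, LinearMap.add_apply, h1, B_mul, dirichlet (4 * M + 1), map_sub,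
      g1 (4 * M + 1) (by omega), g1 (4 * M + 1 + 1) (by omega)]
    simp

lemma span_le_of {e : ℕ → C(unitInterval, ℝ)} {S : Set ℕ} {W : Submodule ℝ C(unitInterval, ℝ)}
    (h : ∀ k ∈ S, e k ∈ W) : Submodule.span ℝ (e '' S) ≤ W := by
  rw [Submodule.span_le]
  rintro _ ⟨k, hk, rfl⟩
  exact h k hk

lemma ev_span {e : ℕ → C(unitInterval, ℝ)} {S : Set ℕ} {g v : C(unitInterval, ℝ)}
    (hv : v ∈ Submodule.span ℝ (e '' S)) (h : ∀ i ∈ S, e i 0 = B (e i) g) : v 0 = B v g := by
  induction hv using Submodule.span_induction with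
  | mem x hx =>
    obtain ⟨i, hi, rfl⟩ := hx
    exact h i hi
  | zero => simp
  | add x y _ _ hx hy => rw [map_add, LinearMap.add_apply, ContinuousMap.add_apply, hx, hy]
  | smul a x _ hx => rw [map_smul, LinearMap.smul_apply, ContinuousMap.smul_apply, hx]

lemma ev_band {T : Finset ℕ} {v : C(unitInterval, ℝ)}
    (hv : v ∈ Submodule.span ℝ (cosine '' (T : Set ℕ))) : v 0 = B v (ker cosine 0 T) :=
  ev_span hv fun i hi => by rw [B_ker cos_orth cos_ne, if_pos (Finset.mem_coe.1 hi)]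

lemma ker_mem (T : Finset ℕ) : ker cosine 0 T ∈ Submodule.span ℝ (cosine '' (T : Set ℕ)) :=
  kw_mem (fun j => cosine j 0) T _ fun _ hi => Finset.mem_coe.2 hi

lemma two_plane (f : C(unitInterval, ℝ)) (T : Finset ℕ) (h0 : B f (ker cosine 0 T) = 0)
    (hm : 4 ≤ ker cosine 0 T 0 * kap cosine (fun j => B f (cosine j)) T) :
    ∃ x y : C(unitInterval, ℝ), x ∈ Submodule.span ℝ (cosine '' (T : Set ℕ)) ∧
      y ∈ Submodule.span ℝ (cosine '' (T : Set ℕ)) ∧ x ≠ 0 ∧ y ≠ 0 ∧ B x y = 0 ∧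
      (∀ v, B v x = 0 → B v y = 0 → B v (ker cosine 0 T) = 0) ∧
      B f x * x 0 = B x x ∧ B f y * y 0 = - B y y := by
  obtain ⟨K, hK⟩ : ∃ K, K = ker cosine 0 T := ⟨_, rfl⟩
  obtain ⟨g, hg⟩ : ∃ g, g = kw cosine (fun j => B f (cosine j)) T := ⟨_, rfl⟩
  obtain ⟨ρ, hρ⟩ : ∃ ρ, ρ = kap cosine (fun j => B f (cosine j)) T := ⟨_, rfl⟩
  have mK : K ∈ Submodule.span ℝ (cosine '' (T : Set ℕ)) := hK ▸ ker_mem T
  have mg : g ∈ Submodule.span ℝ (cosine '' (T : Set ℕ)) :=
    hg ▸ kw_mem _ T _ fun _ hi => Finset.mem_coe.2 hi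
  have hfg : ∀ v ∈ Submodule.span ℝ (cosine '' (T : Set ℕ)), B v f = B v g := by
    intro v hv
    have h1 : B v (f - g) = 0 := B_zero_of_span hv fun i hi => by
      rw [map_sub, hg, B_kw cos_orth cos_ne, if_pos (Finset.mem_coe.1 hi), B_comm, sub_self]
    rw [map_sub] at h1
    linarith
  have e1 : B K K = K 0 := by
    rw [ev_band mK, ← hK]
  have e2 : B g g = ρ := by
    rw [hg, hρ]
    exact B_kw_kw cos_orth cos_ne _ (Finset.Subset.refl T)
  rw [← hK] at h0
  rw [← hK, ← hρ] at hm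
  have e3 : B K g = 0 := by rw [← hfg K mK, B_comm, h0]
  have e4 : B g K = 0 := by rw [B_comm, e3]
  have e5 : g 0 = 0 := by rw [ev_band mg, ← hK, e4]
  have e6 : B f g = ρ := by rw [B_comm, hfg g mg, e2]
  obtain ⟨κ, hκ⟩ : ∃ κ, κ = K 0 := ⟨_, rfl⟩
  rw [← hκ] at e1 hm
  have p1 : 0 ≤ κ := e1 ▸ B_nonneg K
  have p2 : 0 ≤ ρ := e2 ▸ B_nonneg g
  have p3 : 0 < κ := by
    refine lt_of_le_of_ne p1 fun h => ?_
    rw [← h] at hm
    linarith
  have p4 : 0 < ρ := by
    refine lt_of_le_of_ne p2 fun h => ?_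
    rw [← h] at hm
    linarith
  obtain ⟨s, s', q1, q2⟩ : ∃ s s' : ℝ, s + s' = κ ∧ s * s' * ρ = κ := by
    have hd : 0 ≤ κ ^ 2 - 4 * κ / ρ := by
      rw [sub_nonneg, div_le_iff₀ p4]
      nlinarith
    refine ⟨(κ + Real.sqrt (κ ^ 2 - 4 * κ / ρ)) / 2, (κ - Real.sqrt (κ ^ 2 - 4 * κ / ρ)) / 2,
      by ring, ?_⟩
    have h1 : (κ + Real.sqrt (κ ^ 2 - 4 * κ / ρ)) / 2 * ((κ - Real.sqrt (κ ^ 2 - 4 * κ / ρ)) / 2) =
        (κ ^ 2 - Real.sqrt (κ ^ 2 - 4 * κ / ρ) ^ 2) / 4 := by ring
    rw [h1, Real.sq_sqrt hd]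
    field_simp
    ring
  have vx : (K + s • g) 0 = κ := by
    rw [ContinuousMap.add_apply, ContinuousMap.smul_apply, e5, smul_zero, add_zero, hκ]
  have vy : (K - s' • g) 0 = κ := by
    rw [ContinuousMap.sub_apply, ContinuousMap.smul_apply, e5, smul_zero, sub_zero, hκ]
  refine ⟨K + s • g, K - s' • g, add_mem mK (Submodule.smul_mem _ _ mg),
    sub_mem mK (Submodule.smul_mem _ _ mg), fun h => ?_, fun h => ?_, ?_, fun v h1 h2 => ?_,
    ?_, ?_⟩
  · rw [h] at vx
    exact p3.ne vx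
  · rw [h] at vy
    exact p3.ne vy
  · simp only [map_add, map_sub, map_smul, LinearMap.add_apply, LinearMap.smul_apply,
      smul_eq_mul, e1, e2, e3, e4]
    linarith
  · simp only [map_add, map_sub, map_smul, smul_eq_mul] at h1 h2
    rw [← hK]
    have h3 : κ * B v K = s' * (B v K + s * B v g) + s * (B v K - s' * B v g) := by
      rw [← q1]
      ring
    rw [h1, h2, mul_zero, mul_zero, add_zero] at h3
    exact (mul_eq_zero.1 h3).resolve_left p3.ne'
  · rw [vx]
    simp only [map_add, map_smul, LinearMap.add_apply, LinearMap.smul_apply,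
      smul_eq_mul, e1, e2, e3, e4, e6, h0]
    have h3 : s * ρ * κ = s * s * ρ + s * s' * ρ := by
      rw [← q1]
      ring
    linarith
  · rw [vy]
    simp only [map_sub, map_smul, LinearMap.sub_apply, LinearMap.smul_apply,
      smul_eq_mul, e1, e2, e3, e4, e6, h0]
    have h3 : s' * ρ * κ = s' * s' * ρ + s * s' * ρ := by
      rw [← q1]
      ring
    linarith

lemma assemble (N : ℕ → ℕ) (hN : StrictMono N) (h0 : N 0 = 0) (f : C(unitInterval, ℝ))
    (hsum : ∀ i, B f (ker cosine 0 (Finset.range (N (i + 1)))) = 1)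
    (hmass : ∀ i, 4 ≤ ker cosine 0 (Finset.Ico (N (i + 1)) (N (i + 2))) 0 *
      kap cosine (fun j => B f (cosine j)) (Finset.Ico (N (i + 1)) (N (i + 2)))) :
    ∃ φ : ℕ → C(unitInterval, ℝ), (∀ m n, m ≠ n → B (φ m) (φ n) = 0) ∧ (∀ n, φ n ≠ 0) ∧
      (∀ i j, j < N (i + 1) → φ j ∈ Submodule.span ℝ (cosine '' Iio (N (i + 2))) ∧
        cosine j ∈ Submodule.span ℝ (φ '' Iio (N (i + 2)))) ∧
      ∀ j, B f (φ j) = 0 ∨ φ j 0 = 0 := by
  classical
  have hb : ∀ j, ∃ i, N i ≤ j ∧ j < N (i + 1) := by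
    intro j
    have hex : ∃ i, j < N (i + 1) := ⟨j, hN.id_le (j + 1)⟩
    refine ⟨Nat.find hex, ?_, Nat.find_spec hex⟩
    rcases h : Nat.find hex with _ | i
    · rw [h0]
      exact Nat.zero_le j
    · exact not_lt.1 (Nat.find_min hex (by omega))
  choose b hb1 hb2 using hb
  have hb3 : ∀ i j, j < N (i + 1) → b j ≤ i := by
    intro i j h
    have := hN.lt_iff_lt.1 (lt_of_le_of_lt (hb1 j) h)
    omega
  have hb4 : ∀ L, {i | b i = L} = (Finset.Ico (N L) (N (L + 1)) : Set ℕ) := by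
    intro L
    ext i
    simp only [mem_ofPred_eq, Finset.coe_Ico, mem_Ico]
    constructor
    · rintro rfl
      exact ⟨hb1 i, hb2 i⟩
    · intro h
      have h1 := hb3 L i h.2
      have h2 := hN.lt_iff_lt.1 (lt_of_le_of_lt h.1 (hb2 i))
      omega
  have hxy : ∀ L, ∃ x y : C(unitInterval, ℝ), x ∈ Submodule.span ℝ (cosine '' {i | b i = L}) ∧
      y ∈ Submodule.span ℝ (cosine '' {i | b i = L}) ∧ x ≠ 0 ∧ (L ≠ 0 → y ≠ 0) ∧ (L = 0 → y = 0) ∧
      B x y = 0 ∧
      (∀ v, B v x = 0 → B v y = 0 → B v (ker cosine 0 (Finset.Ico (N L) (N (L + 1)))) = 0) ∧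
      B f x * x 0 = B x x ∧ B f y * y 0 = - B y y := by
    intro L
    rw [hb4]
    cases L with
    | zero =>
      have h1 := hsum 0
      have h2 : 0 < N (0 + 1) := lt_of_le_of_lt h0.ge (hN (Nat.succ_pos 0))
      have h3 := ker_pos' cos_ne 0 (fun j => by rw [cosine_at_zero]; exact one_ne_zero)
        (T := Finset.Ico (N 0) (N (0 + 1))) ⟨0, Finset.mem_Ico.2 ⟨h0.le, h2⟩⟩
      refine ⟨_, 0, ker_mem _, zero_mem _, fun h => ?_, fun h => absurd rfl h, fun _ => rfl,
        by simp, fun v h _ => h, ?_, by simp⟩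
      · rw [h] at h3
        simp at h3
      · rw [← ev_band (ker_mem _), h0, ← Finset.range_eq_Ico, h1, one_mul]
    | succ i =>
      have h1 : B f (ker cosine 0 (Finset.Ico (N (i + 1)) (N (i + 1 + 1)))) = 0 := by
        have h2 := hsum i
        have h3 := hsum (i + 1)
        unfold ker at h2 h3 ⊢
        rw [Finset.sum_Ico_eq_sub _ (hN.monotone (Nat.le_succ _)), map_sub, h2, h3, sub_self]
      obtain ⟨x, y, k1, k2, k3, k4, k5, k6, k7, k8⟩ := two_plane f _ h1 (hmass i)
      exact ⟨x, y, k1, k2, k3, fun _ => k4, fun h => absurd h (Nat.succ_ne_zero i), k5, k6, k7, k8⟩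
  choose x y x1 y1 x2 y2 y3 xy xk fx fy using hxy
  obtain ⟨e1, a1, a2, a3, a4, -, -, a7⟩ :=
    embed cos_orth cos_ne b (fun L => N (L + 1)) hb2 x x1
  have up1 : ∀ L, Submodule.span ℝ (cosine '' {i | b i = L}) ≤
      Submodule.span ℝ (e1 '' {i | b i = L}) := fun L =>
    span_le_of fun k hk => by
      have hk' : b k = L := hk
      rw [← hk']
      exact a4 k
  have dn1 : ∀ L, Submodule.span ℝ (e1 '' {i | b i = L}) ≤
      Submodule.span ℝ (cosine '' {i | b i = L}) := fun L =>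
    span_le_of fun k hk => by
      have hk' : b k = L := hk
      rw [← hk']
      exact a3 k
  obtain ⟨e2, c1, c2, c3, c4, -, c6, c7⟩ :=
    embed a1 a2 b (fun L => N (L + 1)) hb2 y (fun L => up1 L (y1 L))
  have up2 : ∀ L, Submodule.span ℝ (e1 '' {i | b i = L}) ≤
      Submodule.span ℝ (e2 '' {i | b i = L}) := fun L =>
    span_le_of fun k hk => by
      have hk' : b k = L := hk
      rw [← hk']
      exact c4 k
  choose px px1 px2 using fun L => a7 L (x2 L)
  choose py py1 py2 using fun L => c7 (L + 1) (y2 (L + 1) (Nat.succ_ne_zero L))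
  have px3 : ∀ L, e2 (px L) = x L := by
    intro L
    rw [c6 (px L) (by rw [px1, px2, xy]), px2]
  have pxy : ∀ L L', px L ≠ py L' := by
    intro L L' h
    have h1 : L = L' + 1 := by rw [← px1 L, h, py1]
    have h2 : x L = y L := by rw [← px3, h, py2, h1]
    have h3 := xy L
    rw [← h2] at h3
    exact (B_pos (x2 L)).ne' h3
  have hz : ∀ j, j ≠ px (b j) → (∀ L, j ≠ py L) → e2 j 0 = 0 := by
    intro j h1 h2
    have h3 : e2 j ∈ Submodule.span ℝ
        (cosine '' (Finset.Ico (N (b j)) (N (b j + 1)) : Set ℕ)) := by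
      rw [← hb4]
      exact dn1 _ (c3 j)
    rw [ev_band h3]
    refine xk (b j) _ ?_ ?_
    · rw [← px3]
      exact c1 _ _ h1
    · rcases h : b j with _ | L
      · rw [y3 0 rfl, map_zero]
      · rw [← py2]
        exact c1 _ _ (h2 L)
  let l : ℕ → ℕ := fun j => if ∃ L, j = py L then b j - 1 else b j
  have l1 : ∀ L, l (py L) = L := fun L => by
    simp only [l]
    rw [if_pos ⟨L, rfl⟩, py1]
    rfl
  have l2 : ∀ j, (∀ L, j ≠ py L) → l j = b j := fun j h => by
    simp only [l]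
    rw [if_neg (fun ⟨L, hL⟩ => h L hL)]
  have l3 : ∀ L, l (px L) = L := fun L => by rw [l2 _ (pxy L), px1]
  have l4 : ∀ j, l j ≤ b j ∧ b j ≤ l j + 1 := fun j => by
    simp only [l]
    split_ifs <;> omega
  have l5 : ∀ j, j < N (l j + 2) := fun j =>
    lt_of_lt_of_le (hb2 j) (hN.monotone (by have := (l4 j).2; omega))
  let a : ℕ → C(unitInterval, ℝ) := fun L => (x L 0 / B (x L) (x L)) • x L +
    (y (L + 1) 0 / B (y (L + 1)) (y (L + 1))) • y (L + 1)
  have ha1 : ∀ L, a L ∈ Submodule.span ℝ (e2 '' {i | l i = L}) := fun L =>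
    add_mem (Submodule.smul_mem _ _ (Submodule.subset_span ⟨px L, l3 L, px3 L⟩))
      (Submodule.smul_mem _ _ (Submodule.subset_span ⟨py L, l1 L, py2 L⟩))
  have bx : ∀ L, B (x L) (x L) ≠ 0 := fun L => (B_pos (x2 L)).ne'
  have bY : ∀ L, B (y (L + 1)) (y (L + 1)) ≠ 0 := fun L =>
    (B_pos (y2 (L + 1) (Nat.succ_ne_zero L))).ne'
  have ha2 : ∀ L, B f (a L) = 0 := by
    intro L
    simp only [a, map_add, map_smul, smul_eq_mul]
    rw [div_mul_eq_mul_div, div_mul_eq_mul_div, mul_comm (x L 0), mul_comm (y (L + 1) 0), fx, fy,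
      neg_div, div_self (bx L), div_self (bY L)]
    norm_num
  have ha3 : ∀ L, ∀ i ∈ {i | l i = L}, e2 i 0 = B (e2 i) (a L) := by
    intro L i hi
    have hi' : l i = L := hi
    have o1 : B (x L) (y (L + 1)) = 0 := by
      rw [← px3, ← py2]
      exact c1 _ _ (pxy L L)
    simp only [a, map_add, map_smul, smul_eq_mul]
    by_cases h1 : i = px L
    · rw [h1, px3, o1, div_mul_cancel₀ _ (bx L), mul_zero, add_zero]
    by_cases h2 : i = py L
    · rw [h2, py2, B_comm (y (L + 1)) (x L), o1, div_mul_cancel₀ _ (bY L), mul_zero, zero_add]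
    have h3 : ∀ L', i ≠ py L' := by
      intro L' h
      apply h2
      rw [← hi', h, l1]
    have h4 : b i = L := by rw [← l2 i h3, hi']
    have h5 : B (e2 i) (x L) = 0 := by
      rw [← px3]
      exact c1 _ _ h1
    have h6 : B (e2 i) (y (L + 1)) = 0 := by
      rw [← py2]
      exact c1 _ _ h2
    rw [hz i (by rw [h4]; exact h1) h3, h5, h6]
    simp
  obtain ⟨φ, d1, d2, d3, d4, d5, -, -⟩ := embed c1 c2 l (fun L => N (L + 2)) l5 a ha1
  refine ⟨φ, d1, d2, fun i j hj => ⟨?_, ?_⟩, fun j => ?_⟩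
  · have h1 := hb3 i j hj
    refine span_le_of (fun k hk => ?_) (d3 j)
    have hk' : l k = l j := hk
    refine Submodule.span_mono (image_mono fun k' hk'' => ?_) (dn1 _ (c3 k))
    have h2 : b k' = b k := hk''
    have h3 := l4 k
    have h4 := l4 j
    exact lt_of_lt_of_le (hb2 k') (hN.monotone (by omega))
  · have h1 := hb3 i j hj
    refine span_le_of (fun k hk => ?_) (up2 _ (a4 j))
    have hk' : b k = b j := hk
    refine Submodule.span_mono (image_mono fun k' hk'' => ?_) (d4 k)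
    have h2 : l k' = l k := hk''
    have h3 := l4 k
    exact lt_of_lt_of_le (l5 k') (hN.monotone (by omega))
  · rcases d5 j with h | h
    · left
      rw [h, ha2]
    · right
      rw [ev_span (d3 j) (ha3 (l j)), h]

/-- A slowly varying integer minorant. -/
noncomputable def dd (c : ℕ → ℝ) : ℕ → ℕ
  | 0 => 1
  | n + 1 => min (dd c n + 1) ⌈c (n + 1)⌉₊

/-- Band ends. -/
noncomputable def mm (c : ℕ → ℝ) : ℕ → ℕ
  | 0 => 0
  | i + 1 => mm c i + dd c (mm c i)

section Reg

variable {c : ℕ → ℝ} (hc : Monotone c) (h0 : 0 < c 0)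

include hc h0

lemma dd_pos (n : ℕ) : 1 ≤ dd c n := by
  cases n with
  | zero => exact le_rfl
  | succ n =>
    have h : 0 < ⌈c (n + 1)⌉₊ := Nat.ceil_pos.2 (lt_of_lt_of_le h0 (hc (Nat.zero_le _)))
    simp only [dd]
    omega

omit hc in
lemma dd_le (n : ℕ) : dd c n ≤ ⌈c n⌉₊ := by
  cases n with
  | zero => exact Nat.ceil_pos.2 h0
  | succ n => exact min_le_right _ _

omit hc h0 in
lemma dd_lip (n k : ℕ) : dd c (n + k) ≤ dd c n + k := by
  induction k with
  | zero => exact le_rfl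
  | succ k ih =>
    have h : dd c (n + k + 1) ≤ dd c (n + k) + 1 := min_le_left _ _
    rw [← add_assoc]
    omega

lemma dd_low (k j : ℕ) : min ⌈c k⌉₊ (j + 1) ≤ dd c (k + j) := by
  induction j with
  | zero => exact (min_le_right _ _).trans (dd_pos hc h0 _)
  | succ j ih =>
    have h : ⌈c k⌉₊ ≤ ⌈c (k + j + 1)⌉₊ := Nat.ceil_mono (hc (by omega))
    rw [← add_assoc k j 1]
    simp only [dd]
    omega

lemma dd_summable (hs : Summable fun n => 1 / c n ^ 2) :
    Summable fun n => (2 / (dd c n : ℝ)) ^ 2 := by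
  have hp : ∀ n, 0 < c n := fun n => lt_of_lt_of_le h0 (hc (Nat.zero_le n))
  have h1 : Summable fun n : ℕ => 1 / ((n : ℝ) + 1) ^ 2 := by
    have h := (summable_nat_add_iff 1).2 (Real.summable_one_div_nat_pow.2 (by norm_num : 1 < 2))
    simpa using h
  have h2 : Summable fun n : ℕ => 4 * (1 / c n ^ 2 + 1 / ((n : ℝ) + 1) ^ 2) :=
    (hs.add h1).mul_left 4
  have key : ∀ k j : ℕ, k ≤ j →
      (2 / (dd c (k + j) : ℝ)) ^ 2 ≤ 4 * (1 / c k ^ 2 + 1 / ((k : ℝ) + 1) ^ 2) := by
    intro k j hkj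
    have e1 := dd_low hc h0 k j
    have e0 : (0 : ℝ) < (k : ℝ) + 1 := by positivity
    have e2 : (2 / (dd c (k + j) : ℝ)) ^ 2 = 4 * (1 / (dd c (k + j) : ℝ) ^ 2) := by ring
    rw [e2]
    refine mul_le_mul_of_nonneg_left ?_ (by norm_num)
    rcases min_le_iff.1 e1 with h | h
    · have e3 : c k ≤ dd c (k + j) := (Nat.le_ceil _).trans (by exact_mod_cast h)
      exact le_add_of_le_of_nonneg (one_div_le_one_div_of_le (pow_pos (hp k) 2)
        (pow_le_pow_left₀ (hp k).le e3 2)) (by positivity)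
    · have e3 : (k : ℝ) + 1 ≤ dd c (k + j) := by exact_mod_cast (by omega : k + 1 ≤ dd c (k + j))
      exact le_add_of_nonneg_of_le (by positivity) (one_div_le_one_div_of_le (pow_pos e0 2)
        (pow_le_pow_left₀ e0.le e3 2))
  refine Summable.even_add_odd (Summable.of_nonneg_of_le (fun _ => sq_nonneg _) (fun k => ?_) h2)
    (Summable.of_nonneg_of_le (fun _ => sq_nonneg _) (fun k => ?_) h2)
  · rw [two_mul]
    exact key k k le_rfl
  · rw [two_mul, add_assoc]
    exact key k (k + 1) (Nat.le_succ k)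

theorem negative' (hs : Summable fun n => 1 / c n ^ 2) :
    ∃ (φ : ℕ → C(unitInterval, ℝ)) (K : ℝ), ClosedOrthogonal φ ∧ (InWindow φ fun n => K * c n) ∧
      ∃ f : C(unitInterval, ℝ), f 0 = 1 ∧ ∀ N, partialSum φ f N 0 = 0 := by
  have hd := dd_pos hc h0
  obtain ⟨f, f1, f2, f3⟩ := exists_f (fun n => 2 / (dd c n : ℝ))
    (fun n => div_pos two_pos (by exact_mod_cast hd n)) (dd_summable hc h0 hs)
  have m1 : ∀ i, mm c (i + 1) = mm c i + dd c (mm c i) := fun _ => rfl
  have m0 : mm c 0 = 0 := rfl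
  have m2 : ∀ i, 1 ≤ mm c (i + 1) := fun i => by
    have := hd (mm c i)
    rw [m1]
    omega
  let N : ℕ → ℕ := fun i => 4 * mm c i - 2
  have hN : StrictMono N := by
    refine strictMono_nat_of_lt_succ fun i => ?_
    have h1 := hd (mm c i)
    simp only [N, m1]
    omega
  have hmass : ∀ i, 4 ≤ ker cosine 0 (Finset.Ico (N (i + 1)) (N (i + 2))) 0 *
      kap cosine (fun j => B f (cosine j)) (Finset.Ico (N (i + 1)) (N (i + 2))) := by
    intro i
    obtain ⟨M, hM⟩ : ∃ M, M = mm c (i + 1) := ⟨_, rfl⟩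
    obtain ⟨d, hd'⟩ : ∃ d, d = dd c M := ⟨_, rfl⟩
    have e1 : 1 ≤ M := hM ▸ m2 i
    have e2 : 1 ≤ d := hd' ▸ hd M
    have e3 : N (i + 1) = 4 * M - 2 := by simp only [N, hM]
    have e4 : N (i + 2) = 4 * (M + d) - 2 := by simp only [N, m1 (i + 1), ← hM, ← hd']
    have d0 : (0 : ℝ) < d := by exact_mod_cast e2
    rw [e3, e4]
    have k1 : ker cosine 0 (Finset.Ico (4 * M - 2) (4 * (M + d) - 2)) 0 = 8 * d := by
      unfold ker
      rw [ContinuousMap.sum_apply, Finset.sum_congr rfl (g := fun _ => (2 : ℝ))]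
      · rw [Finset.sum_const, Nat.card_Ico, show 4 * (M + d) - 2 - (4 * M - 2) = 4 * d by omega,
          nsmul_eq_mul]
        push_cast
        ring
      · intro j hj
        have := (Finset.mem_Ico.1 hj).1
        rw [ContinuousMap.smul_apply, cos_self, if_neg (by omega), cosine_at_zero]
        norm_num
    have k2 : 2 / (d : ℝ) ≤
        kap cosine (fun j => B f (cosine j)) (Finset.Ico (4 * M - 2) (4 * (M + d) - 2)) := by
      unfold kap
      have s1 : (Finset.Ico M (M + d)).image (fun j => 4 * j) ⊆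
          Finset.Ico (4 * M - 2) (4 * (M + d) - 2) := by
        intro k hk
        obtain ⟨j, hj, rfl⟩ := Finset.mem_image.1 hk
        have := Finset.mem_Ico.1 hj
        rw [Finset.mem_Ico]
        omega
      refine le_trans ?_ (Finset.sum_le_sum_of_subset_of_nonneg s1 fun k _ _ => ?_)
      · rw [Finset.sum_image (fun a _ b _ h => by omega)]
        have s2 : ∑ _j ∈ Finset.Ico M (M + d), 2 / (d : ℝ) ^ 2 = 2 / (d : ℝ) := by
          rw [Finset.sum_const, Nat.card_Ico, Nat.add_sub_cancel_left, nsmul_eq_mul]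
          field_simp
        rw [← s2]
        refine Finset.sum_le_sum fun j hj => ?_
        have t1 := Finset.mem_Ico.1 hj
        have t2 := f2 j (by omega)
        have t3 : dd c j ≤ 2 * d := by
          have := dd_lip (c := c) M (j - M)
          rw [show M + (j - M) = j by omega] at this
          omega
        have t4 : (dd c j : ℝ) ≤ 2 * d := by exact_mod_cast t3
        have t5 : (0 : ℝ) < dd c j := by exact_mod_cast hd j
        have t6 : 1 / (d : ℝ) ≤ |B f (cosine (4 * j))| := by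
          refine le_trans ?_ t2
          rw [div_le_div_iff₀ d0 t5]
          linarith
        have t7 := pow_le_pow_left₀ (by positivity) t6 2
        rw [sq_abs] at t7
        rw [cos_self, if_neg (by omega)]
        have t8 : 2 / (d : ℝ) ^ 2 = 2 * (1 / (d : ℝ)) ^ 2 := by ring
        rw [t8]
        nlinarith
      · rw [div_mul_eq_mul_div]
        exact div_nonneg (mul_self_nonneg _) (B_nonneg _)
    rw [k1]
    have k3 := mul_le_mul_of_nonneg_left k2 (by positivity : (0 : ℝ) ≤ 8 * d)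
    have k4 : 8 * (d : ℝ) * (2 / d) = 16 := by
      field_simp
      norm_num
    linarith
  obtain ⟨φ, k1, k2, k3, k4⟩ := assemble N hN (by simp only [N, m0]) f (fun i => by
    have h := f3 (mm c (i + 1) - 1)
    have h1 := m2 i
    rwa [show 4 * (mm c (i + 1) - 1) + 2 = N (i + 1) by simp only [N]; omega] at h) hmass
  have hwin : ∀ n : ℕ, ∃ i, n < N (i + 1) ∧
      Iio (N (i + 2)) ⊆ {j : ℕ | (j : ℝ) ≤ n + 12 * (1 + 1 / c 0) * c n} := by
    intro n
    have hex : ∃ i, n < N (i + 1) := ⟨n, hN.id_le (n + 1)⟩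
    obtain ⟨i, i1, i2⟩ : ∃ i, n < N (i + 1) ∧ N i ≤ n := by
      refine ⟨Nat.find hex, Nat.find_spec hex, ?_⟩
      rcases h : Nat.find hex with _ | i
      · simp only [N, m0]
        omega
      · exact not_lt.1 (Nat.find_min hex (by omega))
    refine ⟨i, i1, fun j hj => ?_⟩
    have j1 : j < N (i + 2) := hj
    have j2 := dd_lip (c := c) (mm c i) (dd c (mm c i))
    have j3 : j ≤ n + 12 * dd c (mm c i) := by
      simp only [N, m1] at j1 i2
      omega
    have j4 : mm c i ≤ n := by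
      simp only [N] at i2
      omega
    have j5 : (dd c (mm c i) : ℝ) ≤ c n + 1 := by
      have e1 : (dd c (mm c i) : ℝ) ≤ ⌈c (mm c i)⌉₊ := by exact_mod_cast dd_le h0 (mm c i)
      have e2 := Nat.ceil_lt_add_one (lt_of_lt_of_le h0 (hc (Nat.zero_le (mm c i)))).le
      have e3 := hc j4
      linarith
    have j6 : 1 ≤ 1 / c 0 * c n := by
      rw [one_div, inv_mul_eq_div, one_le_div h0]
      exact hc (Nat.zero_le n)
    have j7 : (j : ℝ) ≤ n + 12 * dd c (mm c i) := by exact_mod_cast j3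
    change (j : ℝ) ≤ n + 12 * (1 + 1 / c 0) * c n
    nlinarith
  refine ⟨φ, 12 * (1 + 1 / c 0), ⟨k1, k2, ?_⟩, fun n => ?_, f, f1, fun M => ?_⟩
  · refine cos_dense.mono ?_
    have h : Submodule.span ℝ (range cosine) ≤ Submodule.span ℝ (range φ) := by
      rw [Submodule.span_le]
      rintro _ ⟨j, rfl⟩
      exact Submodule.span_mono (image_subset_range _ _) (k3 j j (hN.id_le (j + 1))).2
    exact h
  · obtain ⟨i, i1, i2⟩ := hwin n
    exact ⟨Submodule.span_mono (image_mono i2) (k3 i n i1).1,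
      Submodule.span_mono (image_mono i2) (k3 i n i1).2⟩
  · unfold partialSum
    rw [ContinuousMap.sum_apply]
    refine Finset.sum_eq_zero fun n _ => ?_
    rw [ContinuousMap.smul_apply, smul_eq_mul]
    rcases k4 n with h | h
    · rw [B_apply] at h
      rw [h, zero_div, zero_mul]
    · rw [h, mul_zero]

end Reg

end Pool.Agent.Lib.MP_ae49d3_an.H39Win
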