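import Mathlib

set_option autoImplicit false

open Set Filter Topology Submodule
open scoped RealInnerProductSpace

namespace Pool.Agent.Lib.MP_ae49d3_an.NullA

variable {X H : Type} [NormedAddCommGroup X] [NormedSpace ℝ X] [NormedAddCommGroup H]
  [InnerProductSpace ℝ H] (T : X →L[ℝ] H) (Z : Submodule ℝ X)

lemma orth_span {A : Set X} {v : X} (h : ∀ a ∈ A, ⟪T a, T v⟫ = 0) {y : X} (hy : y ∈ span ℝ A) :
    ⟪T y, T v⟫ = 0 := by
  induction hy using span_induction with
  | mem a ha => exact h a ha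
  | zero => simp
  | add a b _ _ p q => rw [map_add, inner_add_left, p, q, add_zero]
  | smul c a _ p => rw [map_smul, real_inner_smul_left, p, mul_zero]

lemma proj (A : Finset X) (p : X) : ∃ y ∈ span ℝ (A : Set X), ∀ a ∈ A, ⟪T a, T (p - y)⟫ = 0 := by
  have : FiniteDimensional ℝ (span ℝ (A : Set X)) := FiniteDimensional.span_finset ℝ A
  obtain ⟨_, ⟨y, hy, rfl⟩, n, hn, e⟩ :=
    ((span ℝ (A : Set X)).map (T : X →ₗ[ℝ] H)).exists_add_mem_mem_orthogonal (T p)
  refine ⟨y, hy, fun a ha => ?_⟩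
  have : T (p - y) = n := by rw [map_sub, e]; simp
  rw [this]
  exact hn _ ⟨a, subset_span ha, rfl⟩

lemma slice (hZ : ∀ w : X, ∀ ε > 0, ∃ z ∈ Z, ‖T z - T w‖ < ε) (A : Finset X) :
    ∀ w : X, ∀ ε > 0, ∃ z ∈ Z, ‖T z - T w‖ < ε ∧ ∀ a ∈ A, ⟪T a, T z⟫ = ⟪T a, T w⟫ := by
  classical
  induction A using Finset.induction_on with
  | empty => intro w ε hε; simpa using hZ w ε hε
  | insert b A _ ih =>
    intro w ε hε
    by_cases k : ∃ u ∈ Z, (∀ a ∈ A, ⟪T a, T u⟫ = 0) ∧ ⟪T b, T u⟫ ≠ 0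
    · obtain ⟨u, u1, u2, u3⟩ := k
      set M := ‖T b‖ * ‖T u‖ / |⟪T b, T u⟫| with hM
      have M0 : 0 ≤ M := by positivity
      obtain ⟨z, z1, z2, z3⟩ := ih w (ε / (1 + M)) (by positivity)
      refine ⟨z + (⟪T b, T w - T z⟫ / ⟪T b, T u⟫) • u, Z.add_mem z1 (Z.smul_mem _ u1), ?_,
        fun a ha => ?_⟩
      · rw [map_add, map_smul, add_sub_right_comm]
        refine (norm_add_le _ _).trans_lt ?_
        have h1 : ‖(⟪T b, T w - T z⟫ / ⟪T b, T u⟫) • T u‖ ≤ M * ‖T z - T w‖ := by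
          rw [norm_smul, Real.norm_eq_abs, abs_div, hM, norm_sub_rev (T z), div_mul_eq_mul_div,
            div_mul_eq_mul_div]
          refine div_le_div_of_nonneg_right ?_ (abs_nonneg _)
          nlinarith [abs_real_inner_le_norm (T b) (T w - T z), norm_nonneg (T u)]
        rw [lt_div_iff₀ (by positivity)] at z2
        linarith
      · rw [map_add, map_smul, inner_add_right, real_inner_smul_right]
        rcases Finset.mem_insert.1 ha with rfl | ha
        · rw [div_mul_cancel₀ _ u3, inner_sub_right]; ring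
        · rw [u2 a ha, z3 a ha]; ring
    · obtain ⟨z, z1, z2, z3⟩ := ih w ε hε
      refine ⟨z, z1, z2, fun a ha => ?_⟩
      rcases Finset.mem_insert.1 ha with rfl | ha
      · rw [← sub_eq_zero, ← inner_sub_right, ← map_sub]
        by_contra q
        obtain ⟨u, u1, u2, u3⟩ := ih (z - w) (|⟪T a, T (z - w)⟫| / (‖T a‖ + 1)) (by positivity)
        have u4 : ⟪T a, T u⟫ = 0 := by
          by_contra r
          refine k ⟨u, u1, fun c hc => ?_, r⟩
          rw [u3 c hc, map_sub, inner_sub_right, z3 c hc, sub_self]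
        have := abs_real_inner_le_norm (T a) (T u - T (z - w))
        rw [inner_sub_right, u4, zero_sub, abs_neg] at this
        rw [lt_div_iff₀ (by positivity)] at u2
        nlinarith [norm_nonneg (T u - T (z - w))]
      · exact z3 a ha

def Good (f : X) (A : Set X) : Prop :=
  (∀ a ∈ A, a ≠ 0 ∧ (a ∈ Z ∨ ⟪T f, T a⟫ = 0)) ∧ ∀ a ∈ A, ∀ b ∈ A, a ≠ b → ⟪T a, T b⟫ = 0

variable (hT : Function.Injective T) (hZ : ∀ w : X, ∀ ε > 0, ∃ z ∈ Z, ‖T z - T w‖ < ε)
include hT hZ

lemma proper {w : X} (hw : w ∉ Z) (A : Finset X) : ∃ r, r ∉ span ℝ (A : Set X) := by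
  by_contra k
  push Not at k
  obtain ⟨z, z1, -, z3⟩ := slice T Z hZ A w 1 one_pos
  have := orth_span T (v := z - w) (fun a ha => by
    rw [map_sub, inner_sub_right, z3 a ha, sub_self]) (k (z - w))
  rw [inner_self_eq_zero, map_sub, sub_eq_zero] at this
  exact hw (hT this ▸ z1)

open Classical in
lemma step (f : X) (A : Finset X) (hA : Good T Z f A) {p : X}
    (hp : p ∉ span ℝ ((insert f A : Finset X) : Set X)) :
    ∃ B : Finset X, A ⊆ B ∧ Good T Z f B ∧ p ∈ span ℝ (B : Set X) := by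
  obtain ⟨y0, a1, a2⟩ := proj T A p
  obtain ⟨y, b1, b2⟩ := proj T (insert f A) p
  set q := p - y with hq
  set p' := p - y0 with hp'
  have q0 : T q ≠ 0 := fun e => hp (by
    rw [hq, map_sub, sub_eq_zero] at e
    exact hT e ▸ b1)
  have c1 : ⟪T p', T q⟫ = ‖T q‖ ^ 2 := by
    have e : p' = q + (y - y0) := by rw [hq, hp']; abel
    rw [e, map_add, inner_add_left, real_inner_self_eq_norm_sq, orth_span T b2
      (sub_mem b1 (span_mono (by simp) a1)), add_zero]
  have ball : ∀ h : H, ‖h - (1 / 2 : ℝ) • T p'‖ ^ 2 = ‖(1 / 2 : ℝ) • T p'‖ ^ 2 - ⟪T p' - h, h⟫ :=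
    fun h => by
      rw [norm_sub_sq_real, real_inner_smul_right, inner_sub_left, real_inner_self_eq_norm_sq,
        real_inner_comm]
      ring
  set r := ‖(1 / 2 : ℝ) • T p'‖ with hr
  have c2 : ‖T (p' - (1 / 2 : ℝ) • q) - (1 / 2 : ℝ) • T p'‖ < r := by
    refine lt_of_pow_lt_pow_left₀ 2 (norm_nonneg _) ?_
    rw [ball, map_sub T p', map_smul, sub_sub_cancel, real_inner_smul_left, inner_sub_right,
      real_inner_smul_right, real_inner_comm, c1, real_inner_self_eq_norm_sq]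
    have := pow_pos (norm_pos_iff.2 q0) 2
    linarith
  obtain ⟨h1, d1, d2, d3⟩ := slice T Z hZ (insert f A) (p' - (1 / 2 : ℝ) • q) _ (sub_pos.2 c2)
  have d4 : ‖T h1 - (1 / 2 : ℝ) • T p'‖ < r := by
    linarith [norm_sub_le_norm_sub_add_norm_sub (T h1) (T (p' - (1 / 2 : ℝ) • q))
      ((1 / 2 : ℝ) • T p')]
  obtain ⟨u, u1, u2, u3⟩ := slice T Z hZ (insert f A) q _ (norm_pos_iff.2 q0)
  have u0 : 0 < ‖T u‖ := norm_pos_iff.2 fun e => by simp [e] at u2
  obtain ⟨t, -, ht⟩ : r ∈ (fun t : ℝ => ‖T h1 + t • T u - (1 / 2 : ℝ) • T p'‖) ''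
      Icc 0 (2 * r / ‖T u‖) := by
    have r0 : 0 ≤ r := norm_nonneg _
    refine intermediate_value_Icc (by positivity) (by fun_prop) ⟨by simpa using d4.le, ?_⟩
    have := norm_sub_le (T h1 + (2 * r / ‖T u‖) • T u - (1 / 2 : ℝ) • T p')
      (T h1 - (1 / 2 : ℝ) • T p')
    rw [show T h1 + (2 * r / ‖T u‖) • T u - (1 / 2 : ℝ) • T p' - (T h1 - (1 / 2 : ℝ) • T p') =
      (2 * r / ‖T u‖) • T u by abel, norm_smul, Real.norm_of_nonneg (by positivity),
      div_mul_cancel₀ _ u0.ne'] at this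
    linarith
  set h := h1 + t • u with hh
  have e0 : T h = T h1 + t • T u := by rw [hh, map_add, map_smul]
  have e1 : ⟪T (p' - h), T h⟫ = 0 := by
    have := ball (T h)
    rw [e0, show ‖T h1 + t • T u - (1 / 2 : ℝ) • T p'‖ = r from ht, ← e0, ← map_sub] at this
    linarith
  have e2 : ∀ a ∈ insert f A, ⟪T a, T (p' - h)⟫ = 0 := fun a ha => by
    rw [map_sub, e0, inner_sub_right, inner_add_right, real_inner_smul_right, d3 a ha, u3 a ha,
      map_sub T p', map_smul, inner_sub_right, real_inner_smul_right, b2 a ha]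
    ring
  have e3 : ∀ a ∈ A, ⟪T a, T h⟫ = 0 := fun a ha => by
    have := e2 a (Finset.mem_insert_of_mem ha)
    rw [map_sub, inner_sub_right, a2 a ha] at this
    linarith
  refine ⟨(insert (p' - h) (insert h A)).filter (· ≠ 0), fun a ha => Finset.mem_filter.2
    ⟨by simp [ha], (hA.1 a ha).1⟩, ⟨fun a ha => ?_, fun a ha b hb ne => ?_⟩, ?_⟩
  · simp only [Finset.coe_filter, Finset.mem_insert, mem_ofPred_eq] at ha
    refine ⟨ha.2, ?_⟩
    rcases ha.1 with rfl | rfl | k
    · exact Or.inr (e2 f (by simp))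
    · exact Or.inl (Z.add_mem d1 (Z.smul_mem _ u1))
    · exact (hA.1 a k).2
  · simp only [Finset.coe_filter, Finset.mem_insert, mem_ofPred_eq] at ha hb
    rcases ha.1 with k | k | k <;> rcases hb.1 with l | l | l
    · exact absurd (k.trans l.symm) ne
    · rw [k, l]; exact e1
    · rw [k, real_inner_comm]; exact e2 b (Finset.mem_insert_of_mem l)
    · rw [k, l, real_inner_comm]; exact e1
    · exact absurd (k.trans l.symm) ne
    · rw [k, real_inner_comm]; exact e3 b l
    · rw [l]; exact e2 a (Finset.mem_insert_of_mem k)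
    · rw [l]; exact e3 a k
    · exact hA.2 a k b l ne
  · have m : ∀ a ∈ insert (p' - h) (insert h A), a ∈ span ℝ
        (((insert (p' - h) (insert h A)).filter (· ≠ 0) : Finset X) : Set X) := fun a ha => by
      by_cases k : a = 0
      · rw [k]; exact zero_mem _
      · exact subset_span (Finset.mem_coe.2 (Finset.mem_filter.2 ⟨ha, k⟩))
    have e : p = (p' - h) + h + y0 := by rw [hp']; abel
    rw [e]
    exact add_mem (add_mem (m _ (by simp)) (m _ (by simp)))
      (span_le.2 (fun a ha => m a (by simp [Finset.mem_coe.1 ha])) a1)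

theorem system [TopologicalSpace.SeparableSpace X] {w : X} (hw : w ∉ Z) (f : X) :
    ∃ φ : ℕ → X, (∀ m n, m ≠ n → ⟪T (φ m), T (φ n)⟫ = 0) ∧ (∀ n, φ n ≠ 0) ∧
      Dense (span ℝ (range φ) : Set X) ∧ ∀ n, φ n ∈ Z ∨ ⟪T f, T (φ n)⟫ = 0 := by
  classical
  have st : ∀ (A : {A : Finset X // Good T Z f A}) (p : X) (k : ℕ),
      ∃ B : {A : Finset X // Good T Z f A}, A.1 ⊆ B.1 ∧
        ∃ v ∈ span ℝ (B.1 : Set X), dist p v < 1 / ((k : ℝ) + 1) := fun A p k => by
    by_cases hp : p ∈ span ℝ ((insert f A.1 : Finset X) : Set X)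
    · obtain ⟨r, hr⟩ := proper T Z hT hZ hw (insert f A.1)
      have c0 : 0 < 1 / ((k : ℝ) + 1) / (‖r‖ + 1) := by positivity
      obtain ⟨B, b1, b2, b3⟩ := step T Z hT hZ f A.1 A.2
        (p := p + (1 / ((k : ℝ) + 1) / (‖r‖ + 1)) • r) fun q =>
          hr ((smul_mem_iff _ c0.ne').1 ((add_mem_cancel_left hp).1 q))
      refine ⟨⟨B, b2⟩, b1, _, b3, ?_⟩
      rw [dist_self_add_right, norm_smul, Real.norm_of_nonneg c0.le, div_mul_eq_mul_div,
        div_lt_iff₀ (by positivity)]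
      exact mul_lt_mul_of_pos_left (lt_add_one _) (by positivity)
    · obtain ⟨B, b1, b2, b3⟩ := step T Z hT hZ f A.1 A.2 hp
      exact ⟨⟨B, b2⟩, b1, p, b3, by rw [dist_self]; positivity⟩
  choose nx n1 n2 using st
  let p := TopologicalSpace.denseSeq X
  let Φ : ℕ → {A : Finset X // Good T Z f A} := fun k => Nat.rec ⟨∅, by simp [Good]⟩
    (fun k A => nx A (p (Nat.unpair k).1) (Nat.unpair k).2) k
  have mono : Monotone fun k => (Φ k).1 := monotone_nat_of_le_succ fun k => n1 _ _ _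
  let A : Set X := ⋃ k, ((Φ k).1 : Set X)
  have hd : Dense (span ℝ A : Set X) := Metric.dense_iff.2 fun x ε hε => by
    obtain ⟨i, hi⟩ := Metric.denseRange_iff.1 (TopologicalSpace.denseRange_denseSeq X) x (ε / 2)
      (by positivity)
    obtain ⟨j, hj⟩ := exists_nat_one_div_lt (K := ℝ) (half_pos hε)
    obtain ⟨v, v1, v2⟩ := n2 (Φ (Nat.pair i j)) (p i) j
    refine ⟨v, ?_, span_mono (?_ : _ ⊆ A) v1⟩
    · rw [Metric.mem_ball, dist_comm]
      linarith [dist_triangle x (p i) v]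
    · have := subset_iUnion (fun k => ((Φ k).1 : Set X)) (Nat.pair i j + 1)
      simpa only [Φ, Nat.unpair_pair] using this
  have : Countable A := (countable_iUnion fun k => (Φ k).1.countable_toSet).to_subtype
  have : Infinite A := infinite_coe_iff.2 fun hf => by
    obtain ⟨r, hr⟩ := proper T Z hT hZ hw hf.toFinset
    rw [hf.coe_toFinset] at hr
    have : FiniteDimensional ℝ (span ℝ A) := FiniteDimensional.span_of_finite ℝ hf
    exact hr ((span ℝ A).closed_of_finiteDimensional.closure_subset (hd r))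
  obtain ⟨e⟩ := nonempty_equiv_of_countable (α := ℕ) (β := A)
  have hg : ∀ n, ∃ k, (e n).1 ∈ (Φ k).1 := fun n => mem_iUnion.1 (e n).2
  refine ⟨fun n => e n, fun m n h => ?_, fun n => (hg n).elim fun k hk => ((Φ k).2.1 _ hk).1, ?_,
    fun n => (hg n).elim fun k hk => ((Φ k).2.1 _ hk).2⟩
  · obtain ⟨k, hk⟩ := hg m
    obtain ⟨l, hl⟩ := hg n
    exact (Φ (max k l)).2.2 _ (mono (le_max_left k l) hk) _ (mono (le_max_right k l) hl)
      fun q => h (e.injective (Subtype.ext q))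
  · rwa [show range (fun n => (e n).1) = A from
      (e.surjective.range_comp Subtype.val).trans Subtype.range_coe]

end Pool.Agent.Lib.MP_ae49d3_an.NullA
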